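import Pool.Agent.Q286.GB.Stm

set_option autoImplicit false

/-!
# Project GB, second part: from the analytic data of an L-function to `Obj`

`N > 0` is the conductor, `μ_j` the archimedean parameters (`Re μ_j < 1/2`), `Λ` the completed L-function (without the
factor `N^(s/2)`), `gam N μ s = N^(s/2) ∏ Γ_ℝ(s - μ_j)`, `LL μ Λ s = Λ s ∏ Γ_ℝ(s - μ_j)⁻¹`.
-/

namespace Pool.Agent.Q286.GB

open Complex MeasureTheory Filter Topology Set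
open scoped ComplexConjugate

/-- the gamma factor with the conductor -/
noncomputable def gam {m : ℕ} (N : ℝ) (μ : Fin m → ℂ) (s : ℂ) : ℂ := (N : ℂ) ^ (s / 2) * ∏ j, Gammaℝ (s - μ j)

/-- the L-function -/
noncomputable def LL {m : ℕ} (μ : Fin m → ℂ) (Λ : ℂ → ℂ) (s : ℂ) : ℂ := Λ s * ∏ j, (Gammaℝ (s - μ j))⁻¹

/-- JOB EUL (Euler products over any set of places). Proof. Work with the weighted norm `‖a‖ = ∑ |a n| n^(-2)` on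
sequences, which is submultiplicative for the Dirichlet convolution (`a 0 = 0`). (a) `mu`: for a finite set `A` of
indices `(i, j)` let `n_A = ∏ q`, `b_A = ∏ (-β)`; `mu n = ∑_{A : n_A = n} b_A` (absolutely convergent after weighting:
`∏ (1 + ‖β‖ q^(-2)) < ∞` since `‖β‖ q^(-2) ≤ q^(-3/2)`); `∑ mu n n^(-s) = ∏' ∏ (1 - β q^(-s))` for `Re s ≥ 2` by Mathlib
`tprod_one_add` / `summable_finset_prod_of_summable_norm`. (b) `lam`: the same with the factors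
`1 + ∑_{k ≥ 1} β^k (q^k)^(-s)` (index a finitely supported exponent function `ι × Fin D →₀ ℕ`, or take the limit of the
finite products in the complete space of sequences with finite weighted norm; `‖β‖ q^(-2) ≤ 2^(-3/2) < 1`). (c) `inv` and
the values: finite partial products satisfy the identities exactly; pass to the limit coefficientwise (every
coefficient is a continuous function of the sequence), or use uniqueness of the coefficients of absolutely convergent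
Dirichlet series (`LSeries` injectivity in Mathlib). -/
def S_EUL : Prop := ∀ (ι : Type) (D : ℕ) (q : ι → ℕ) (β : ι → Fin D → ℂ), (∀ i, 2 ≤ q i) →
  Summable (fun i => (q i : ℝ) ^ (-(3 / 2) : ℝ)) → (∀ i j, ‖β i j‖ ≤ Real.sqrt (q i)) →
  ∃ lam mu : ℕ → ℂ, lam 0 = 0 ∧ mu 0 = 0 ∧ lam 1 = 1 ∧
    Summable (fun n : ℕ => ‖lam n‖ * (n : ℝ) ^ (-2 : ℝ)) ∧ Summable (fun n : ℕ => ‖mu n‖ * (n : ℝ) ^ (-2 : ℝ)) ∧
    (∀ n : ℕ, 1 ≤ n → ∑ p ∈ n.divisorsAntidiagonal, lam p.1 * mu p.2 = if n = 1 then 1 else 0) ∧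
    ∀ s : ℂ, 2 ≤ s.re →
      HasSum (fun n : ℕ => lam n * (n : ℂ) ^ (-s)) (∏' i, ∏ j, (1 - β i j * (q i : ℂ) ^ (-s))⁻¹)

/-- JOB GAM. Proof. `Re (s - μ_j) > 0` for `Re s > 1/2 - η`, `η ≤ 1/2 - Re μ_j` for all `j`. Logarithmic derivative: `log N / 2 +
∑ (-(log π)/2 + (1/2) ψ((s - μ_j)/2))`, and `‖ψ(z)‖ ≤ C log (|Im z| + 2)` for `c ≤ Re z ≤ B`, `c > 0` (`H370.DL.logDeriv_Gammaℝ_bound`
and its neighbours; small real parts by `ψ(z) = ψ(z+1) - 1/z`). -/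
def S_GAM : Prop := ∀ (m : ℕ) (N : ℝ) (μ : Fin m → ℂ) (η : ℝ), 0 < N → 0 < η → (∀ j, (μ j).re + η ≤ 1 / 2) →
  (∀ s : ℂ, 1 / 2 - η < s.re → DifferentiableAt ℂ (gam N μ) s ∧ gam N μ s ≠ 0) ∧
  ∀ B : ℝ, ∃ C : ℝ, 0 < C ∧ ∀ s : ℂ, 1 / 2 - η / 2 ≤ s.re → s.re ≤ B →
    ‖deriv (gam N μ) s‖ ≤ C * Real.log (|s.im| + 16) * ‖gam N μ s‖

/-- The standard analytic properties: `Λ` is entire, of finite order in vertical strips, satisfies the functional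
equation, and `LL` is bounded for `Re s ≥ 2`. -/
structure Std {m : ℕ} (N : ℝ) (μ : Fin m → ℂ) (Λ : ℂ → ℂ) : Prop where
  N_pos : 0 < N
  re_lt : ∀ j, (μ j).re < 1 / 2
  entire : Differentiable ℂ Λ
  fe : ∃ ε : ℂ, ‖ε‖ = 1 ∧ ∀ s : ℂ, Λ s = ε * (N : ℂ) ^ (1 / 2 - s) * conj (Λ (1 - conj s))
  bdd : ∀ a b : ℝ, ∃ M ρ : ℝ, ∀ s : ℂ, a ≤ s.re → s.re ≤ b → ‖Λ s‖ ≤ Real.exp (M * (1 + |s.im|) ^ ρ)
  right : ∃ C : ℝ, ∀ s : ℂ, 2 ≤ s.re → ‖LL μ Λ s‖ ≤ C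

/-- JOB GRW: polynomial growth in right half-planes. Proof. `LL` is entire (`1/Γ_ℝ` is entire). Stirling in the form needed:
for `a` in a compact subset of `(0, ∞)` the quantity `‖Γ_ℝ(a + I t)‖ exp (π |t| / 4)` is `≤ C (1 + |t|)^C` (exact formula
`‖Γ(1/2 + I y)‖^2 = π / cosh (π y)` from the reflection formula, and the logarithmic derivative bound of `S_GAM`, or of
`H370.DL.logDeriv_Gammaℝ_bound`, integrated along horizontal segments). We may assume `B ≥ 2 + max ‖μ_j‖`. On the line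
`Re s = -B`, functional equation: `‖LL s‖ = N^(1/2+B) ‖LL(1 - conj s)‖ ∏ ‖Γ_ℝ(1 - conj s - μ_j)‖ ‖Γ_ℝ(s - μ_j)⁻¹‖`, `LL(1 - conj s)` is
bounded by `right`, `‖Γ_ℝ(1 - conj s - μ)‖ = ‖Γ_ℝ(1 - s - conj μ)‖`, and with `w = 1 - s + μ` (Mathlib: `Γ_ℝ(w)/Γ_ℝ(1-w) =
Γ_ℂ(w) cos (π w/2)`, `Γ_ℂ(w) = Γ_ℝ(w) Γ_ℝ(w+1)`): `Γ_ℝ(s - μ)⁻¹ = Γ_ℝ(1 - w)⁻¹ = Γ_ℝ(w + 1) cos (π w/2)`. The arguments
`1 - s - conj μ` and `w + 1` have the same imaginary part, `‖cos (π w/2)‖ ≤ exp (π |Im w|/2)`, so each quotient is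
`≤ C (1 + |Im s|)^C`. Inside the strip `-B ≤ Re s ≤ 2`: Phragmén-Lindelöf (Mathlib
`PhragmenLindelof.vertical_strip`) for `LL(s) / (s + B + 2)^K'`, using `bdd` and a bound
`‖1/Γ_ℝ(s)‖ ≤ exp (C (1+|Im s|)^2)` in strips. Similar results are in the library (search `convexity`,
`PhragmenLindelof`; rows MP_52e316_nt, MP_4e5e8a_nt). -/
def S_GRW : Prop := ∀ (m : ℕ) (N : ℝ) (μ : Fin m → ℂ) (Λ : ℂ → ℂ), Std N μ Λ → Differentiable ℂ (LL μ Λ) ∧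
  ∀ B : ℝ, ∃ C K : ℝ, 0 < C ∧ 0 ≤ K ∧ ∀ s : ℂ, -B ≤ s.re → ‖LL μ Λ s‖ ≤ C * (1 + ‖s‖) ^ K

/-- JOB SLW (from `S_GRW`): `X = N^(s/2) Λ` is slow and satisfies the functional equation. Proof. For `Re s ≥ 1/2`:
`X = gam * LL` with `‖LL s‖ ≤ C (1+‖s‖)^K` and `‖Γ_ℝ(z)‖ ≤ C exp (C ‖z‖^(3/2))` for `Re z ≥ c > 0` (`|Γ(z)| ≤ Γ(Re z)`, and
`Γ(x) ≤ x^x` for `x ≥ 1`). For `Re s ≤ 1/2` by the functional equation `X s = ε' conj (X (1 - conj s))`, `‖ε'‖ = 1`: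
`N^(s/2) N^(1/2 - s) = N^(1/2 - s/2)` and `conj (N^((1 - conj s)/2)) = N^((1-s)/2)`. -/
def S_SLW : Prop := ∀ (m : ℕ) (N : ℝ) (μ : Fin m → ℂ) (Λ : ℂ → ℂ), Std N μ Λ →
  (∀ δ : ℝ, 0 < δ → ∃ K : ℝ, 0 < K ∧ ∀ z : ℂ, ‖(N : ℂ) ^ (z / 2) * Λ z‖ ≤ K * Real.exp (δ * ‖z‖ ^ 2)) ∧
  ∃ ε : ℂ, ‖ε‖ = 1 ∧ ∀ s : ℂ, (N : ℂ) ^ (s / 2) * Λ s = ε * conj ((N : ℂ) ^ ((1 - conj s) / 2) * Λ (1 - conj s))

/-- JOB OBJ (from `S_GAM`, `S_GRW`, `S_SLW`): assembly. `X s = N^(s/2) Λ s`, `γ = gam N μ`, `η = min (1/2) (min over j of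
(1/2 - Re μ_j))` (`m = 0`: `η = 1/2`); `X s = gam s * LL s` for `Re s > 1/2 - η` since `Γ_ℝ(s - μ_j) ≠ 0` there. -/
def S_OBJ : Prop := ∀ (m : ℕ) (N : ℝ) (μ : Fin m → ℂ) (Λ : ℂ → ℂ), Std N μ Λ → ∀ lam mu : ℕ → ℂ,
  lam 0 = 0 → mu 0 = 0 → lam 1 = 1 →
  Summable (fun n : ℕ => ‖lam n‖ * (n : ℝ) ^ (-2 : ℝ)) → Summable (fun n : ℕ => ‖mu n‖ * (n : ℝ) ^ (-2 : ℝ)) →
  (∀ n : ℕ, 1 ≤ n → ∑ p ∈ n.divisorsAntidiagonal, lam p.1 * mu p.2 = if n = 1 then 1 else 0) →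
  (∀ s : ℂ, 2 ≤ s.re → HasSum (fun n : ℕ => lam n * (n : ℂ) ^ (-s)) (LL μ Λ s)) →
  ∃ O : Obj, O.L = LL μ Λ ∧ O.lam = lam ∧ O.mu = mu ∧ O.X = fun s => (N : ℂ) ^ (s / 2) * Λ s

end Pool.Agent.Q286.GB
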