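import Pool.Agent.Q286.GB.Stm

set_option autoImplicit false

/-!
Project GB, job HH (written by helper148): Harnack's inequality near the critical line.
-/

namespace Pool.Agent.Q286.GB

open Complex MeasureTheory Filter Topology Set
open scoped ComplexConjugate
open Pool.Agent.Q286.BD (cl Lam ML Lap Wt V Fm Pl)

namespace HHAux

/-- growth along a segment from a bound for the derivative -/
lemma seg {f : ℂ → ℂ} {a b : ℂ} {K : ℝ}
    (hd : ∀ τ : ℝ, 0 ≤ τ → τ ≤ 1 → DifferentiableAt ℂ f (a + τ * (b - a)))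
    (hb : ∀ τ : ℝ, 0 ≤ τ → τ ≤ 1 → ‖deriv f (a + τ * (b - a))‖ ≤ K * ‖f (a + τ * (b - a))‖) :
    ‖f b‖ ≤ Real.exp (K * ‖b - a‖) * ‖f a‖ := by
  set g : ℝ → ℂ := fun τ => f (a + τ * (b - a)) with hg
  have hder : ∀ τ : ℝ, 0 ≤ τ → τ ≤ 1 → HasDerivAt g (deriv f (a + τ * (b - a)) * (b - a)) τ := by
    intro τ h0 h1
    have h2 := (hd τ h0 h1).hasDerivAt
    have h3 : HasDerivAt (fun τ : ℝ => a + (τ : ℂ) * (b - a)) (b - a) τ := by
      have h4 : HasDerivAt (fun τ : ℝ => (τ : ℂ)) 1 τ := Complex.ofRealCLM.hasDerivAt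
      have h5 := (h4.mul_const (b - a)).const_add a
      simpa using h5
    exact h2.comp τ h3
  have hcont : ContinuousOn g (Icc 0 1) := fun τ hτ => (hder τ hτ.1 hτ.2).continuousAt.continuousWithinAt
  have := norm_le_gronwallBound_of_norm_deriv_right_le (f := g) (f' := fun τ => deriv f (a + τ * (b - a)) * (b - a))
    (δ := ‖f a‖) (K := K * ‖b - a‖) (ε := 0) (a := 0) (b := 1) hcont
    (fun τ hτ => (hder τ hτ.1 hτ.2.le).hasDerivWithinAt)
    (by simp [hg])
    (fun τ hτ => by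
      rw [norm_mul, add_zero]
      have h1 := hb τ hτ.1 hτ.2.le
      calc ‖deriv f (a + τ * (b - a))‖ * ‖b - a‖ ≤ (K * ‖f (a + τ * (b - a))‖) * ‖b - a‖ :=
            mul_le_mul_of_nonneg_right h1 (norm_nonneg _)
        _ = K * ‖b - a‖ * ‖g τ‖ := by rw [hg]; ring) 1 (by simp)
  rw [gronwallBound_ε0] at this
  have h2 : g 1 = f b := by simp [hg]
  rw [h2] at this
  calc ‖f b‖ ≤ ‖f a‖ * Real.exp (K * ‖b - a‖ * (1 - 0)) := this
    _ = Real.exp (K * ‖b - a‖) * ‖f a‖ := by rw [sub_zero, mul_one]; ring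

/-- logarithm on a disc -/
lemma logb {F : ℂ → ℂ} {c : ℂ} {R : ℝ} (hR : 0 < R) (hd : DifferentiableOn ℂ F (Metric.ball c R))
    (hne : ∀ z ∈ Metric.ball c R, F z ≠ 0) :
    ∃ h : ℂ → ℂ, DifferentiableOn ℂ h (Metric.ball c R) ∧ ∀ z ∈ Metric.ball c R, F z = cexp (h z) := by
  have hdF : DifferentiableOn ℂ (deriv F) (Metric.ball c R) := hd.deriv Metric.isOpen_ball
  have hq : DifferentiableOn ℂ (fun z => deriv F z / F z) (Metric.ball c R) := hdF.div hd hne
  obtain ⟨h0, hh0⟩ := hq.isExactOn_ball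
  have hc : c ∈ Metric.ball c R := Metric.mem_ball_self hR
  refine ⟨fun z => h0 z - h0 c + Complex.log (F c), ?_, ?_⟩
  · intro z hz
    exact (((hh0 z hz).sub_const (h0 c)).add_const _).differentiableAt.differentiableWithinAt
  intro z hz
  have hconst : ∀ z ∈ Metric.ball c R, F z * cexp (-(h0 z - h0 c)) = F c := by
    intro z hz
    have hder : ∀ w ∈ Metric.ball c R, HasDerivWithinAt (fun w => F w * cexp (-(h0 w - h0 c))) 0 (Metric.ball c R) w := by
      intro w hw
      have h1 : HasDerivAt F (deriv F w) w :=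
        ((hd w hw).differentiableAt (Metric.isOpen_ball.mem_nhds hw)).hasDerivAt
      have h2 := ((hh0 w hw).sub_const (h0 c)).neg.cexp
      have h3 := h1.mul h2
      have h4 : HasDerivAt (fun w => F w * cexp (-(h0 w - h0 c))) 0 w := by
        refine h3.congr_deriv ?_
        have := hne w hw
        field_simp
        ring
      exact h4.hasDerivWithinAt
    have := (convex_ball c R).norm_image_sub_le_of_norm_hasDerivWithin_le (𝕜 := ℂ)
      (f := fun w => F w * cexp (-(h0 w - h0 c))) (f' := fun _ => 0) (C := 0)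
      hder (fun w _ => by simp) hc hz
    rw [zero_mul, norm_le_zero_iff, sub_eq_zero] at this
    simpa using this
  have := hconst z hz
  have hFc := hne c hc
  rw [Complex.exp_add, Complex.exp_log hFc]
  rw [← this, mul_comm (cexp _), mul_assoc, ← Complex.exp_add]
  simp

lemma Lam_ge (t : ℝ) : 1 ≤ Lam t := by
  unfold Pool.Agent.Q286.BD.Lam
  rw [Real.le_log_iff_exp_le (by positivity)]
  have := Real.exp_one_lt_d9
  have := abs_nonneg t
  linarith

lemma Lam_near (t u : ℝ) (h : |u - t| ≤ 1) : Lam u ≤ Lam t + 1 := by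
  unfold Pool.Agent.Q286.BD.Lam
  have h1 : |u| + 16 ≤ (|t| + 16) * 2 := by
    have := abs_sub_abs_le_abs_sub u t
    have := abs_nonneg t
    linarith
  calc Real.log (|u| + 16) ≤ Real.log ((|t| + 16) * 2) := Real.log_le_log (by positivity) h1
    _ = Real.log (|t| + 16) + Real.log 2 := Real.log_mul (by positivity) (by norm_num)
    _ ≤ _ := by
      have := Real.log_two_lt_d9
      linarith

lemma exp_Lam (t C : ℝ) (hC : 0 ≤ C) : Real.exp (C * Lam t) ≤ (|t| + 2) ^ (4 * C) := by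
  unfold Pool.Agent.Q286.BD.Lam
  have h0 : 0 ≤ |t| := abs_nonneg t
  have h1 : |t| + 16 ≤ (|t| + 2) ^ (4 : ℕ) := by nlinarith [pow_nonneg h0 2, pow_nonneg h0 3, pow_nonneg h0 4]
  have h2 : Real.exp (C * Real.log (|t| + 16)) = (|t| + 16) ^ C := by
    rw [Real.rpow_def_of_pos (by positivity), mul_comm]
  rw [h2, show (4 * C) = ((4 : ℕ) : ℝ) * C by norm_num, Real.rpow_mul (by positivity), Real.rpow_natCast]
  exact Real.rpow_le_rpow (by positivity) h1 hC

end HHAux

open HHAux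

theorem t_HH (h1 : S_CAR) (h2 : S_POS) (h3 : S_FB) : S_HH := by
  intro O hRH
  obtain ⟨P1, P2, P3⟩ := h2 O hRH
  obtain ⟨C1, hC1, -, hFB⟩ := h3 O hRH
  obtain ⟨C3, hC3, hγ⟩ := O.γ_ld 1
  refine ⟨4 * (100 * (C1 + C3)), by positivity, ?_⟩
  intro t d hd hdη hZ w hw1 hw2
  have hη2 : d ≤ 1 / 2 := hdη.trans O.η_le
  set Λt := Lam t with hΛ
  have hΛ1 : 1 ≤ Λt := Lam_ge t
  -- the norm of `X` near the line
  have hXd : ∀ s : ℂ, DifferentiableAt ℂ O.X s := fun s => O.diff s
  have hsym : ∀ x y : ℝ, ‖O.X (1 / 2 + x + y * I)‖ = ‖O.X (1 / 2 + |x| + y * I)‖ := by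
    intro x y
    rcases abs_cases x with ⟨h, _⟩ | ⟨h, _⟩
    · rw [h]
    · rw [h]
      have := P2 (-x) y
      push_cast at this ⊢
      rw [← this]
      congr 2; ring
  have hld : ∀ u v : ℝ, 0 < v → v ≤ 3 → ‖deriv O.X (1 / 2 + v + u * I)‖ ≤ C1 * Lam u / v * ‖O.X (1 / 2 + v + u * I)‖ := by
    intro u v hv hv3
    have hne : O.X (1 / 2 + v + u * I) ≠ 0 := (P1 _ (by simp; linarith)).1
    have := hFB u v hv hv3
    rw [norm_div, div_le_iff₀ (norm_pos_iff.2 hne)] at this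
    exact this
  -- vertical comparison at `1/2 + d`
  have hvert : ∀ y : ℝ, |y - t| ≤ d → ‖O.X (1 / 2 + d + y * I)‖ ≤ Real.exp (2 * C1 * Λt) * ‖O.X (1 / 2 + d + t * I)‖ := by
    intro y hy
    have hseg := seg (f := O.X) (a := 1 / 2 + d + t * I) (b := 1 / 2 + d + y * I) (K := C1 * (Λt + 1) / d)
      (fun τ _ _ => hXd _)
      (fun τ h0 h1 => by
        have e : (1 / 2 + d + t * I : ℂ) + τ * ((1 / 2 + d + y * I) - (1 / 2 + d + t * I)) =
            1 / 2 + d + ((t + τ * (y - t) : ℝ) : ℂ) * I := by push_cast; ring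
        rw [e]
        refine (hld _ d hd (by linarith)).trans ?_
        apply mul_le_mul_of_nonneg_right _ (norm_nonneg _)
        apply div_le_div_of_nonneg_right _ hd.le
        apply mul_le_mul_of_nonneg_left _ hC1.le
        apply Lam_near
        have : |t + τ * (y - t) - t| = τ * |y - t| := by
          rw [add_sub_cancel_left, abs_mul, abs_of_nonneg h0]
        rw [this]
        calc τ * |y - t| ≤ 1 * d := mul_le_mul h1 hy (abs_nonneg _) zero_le_one
          _ ≤ 1 := by linarith)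
    refine hseg.trans ?_
    apply mul_le_mul_of_nonneg_right _ (norm_nonneg _)
    apply Real.exp_le_exp.2
    have e : ‖((1 / 2 + d + y * I : ℂ) - (1 / 2 + d + t * I))‖ = |y - t| := by
      have : ((1 / 2 + d + y * I : ℂ) - (1 / 2 + d + t * I)) = ((y - t : ℝ) : ℂ) * I := by push_cast; ring
      rw [this, norm_mul, Complex.norm_I, mul_one, Complex.norm_real, Real.norm_eq_abs]
    rw [e]
    calc C1 * (Λt + 1) / d * |y - t| ≤ C1 * (Λt + 1) / d * d := mul_le_mul_of_nonneg_left hy (by positivity)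
      _ = C1 * (Λt + 1) := by field_simp
      _ ≤ 2 * C1 * Λt := by nlinarith
  -- horizontal comparison
  have hhor : ‖O.X (1 / 2 + d + t * I)‖ ≤ Real.exp (C1 * Λt) * ‖O.X (1 / 2 + (d / 2 : ℝ) + t * I)‖ := by
    have hseg := seg (f := O.X) (a := 1 / 2 + (d / 2 : ℝ) + t * I) (b := 1 / 2 + d + t * I) (K := C1 * Λt / (d / 2))
      (fun τ _ _ => hXd _)
      (fun τ h0 h1 => by
        have e : (1 / 2 + (d / 2 : ℝ) + t * I : ℂ) + τ * ((1 / 2 + d + t * I) - (1 / 2 + (d / 2 : ℝ) + t * I)) =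
            1 / 2 + ((d / 2 + τ * (d / 2) : ℝ) : ℂ) + t * I := by push_cast; ring
        rw [e]
        have hv : d / 2 ≤ d / 2 + τ * (d / 2) := by nlinarith
        refine (hld t (d / 2 + τ * (d / 2)) (by linarith) (by nlinarith)).trans ?_
        apply mul_le_mul_of_nonneg_right _ (norm_nonneg _)
        apply div_le_div_of_nonneg_left (by positivity) (by linarith) hv)
    refine hseg.trans (le_of_eq ?_)
    congr 2
    have e : ‖((1 / 2 + d + t * I : ℂ) - (1 / 2 + (d / 2 : ℝ) + t * I))‖ = d / 2 := by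
      have : ((1 / 2 + d + t * I : ℂ) - (1 / 2 + (d / 2 : ℝ) + t * I)) = ((d / 2 : ℝ) : ℂ) := by push_cast; ring
      rw [this, Complex.norm_real, Real.norm_of_nonneg (by linarith)]
    rw [e]
    field_simp
  -- no zeros in the disc
  have hcoord : ∀ z : ℂ, z = 1 / 2 + ((z.re - 1 / 2 : ℝ) : ℂ) + (z.im : ℝ) * I := by
    intro z
    apply Complex.ext <;> simp
  have hcl : cl t = 1 / 2 + ((0 : ℝ) : ℂ) + t * I := by
    unfold Pool.Agent.Q286.BD.cl; simp
  have hclre : (cl t).re = 1 / 2 := by unfold Pool.Agent.Q286.BD.cl; simp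
  have hclim : (cl t).im = t := by unfold Pool.Agent.Q286.BD.cl; simp
  have hball : ∀ z ∈ Metric.ball (cl t) d, |z.re - 1 / 2| < d ∧ |z.im - t| < d := by
    intro z hz
    rw [mem_ball_iff_norm] at hz
    have h1 := Complex.abs_re_le_norm (z - cl t)
    have h2 := Complex.abs_im_le_norm (z - cl t)
    rw [Complex.sub_re, hclre] at h1
    rw [Complex.sub_im, hclim] at h2
    exact ⟨lt_of_le_of_lt h1 hz, lt_of_le_of_lt h2 hz⟩
  have hne : ∀ z ∈ Metric.ball (cl t) d, O.X z ≠ 0 := by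
    intro z hz h0
    obtain ⟨hz1, hz2⟩ := hball z hz
    by_cases hre : z.re - 1 / 2 = 0
    · have hz' : z = cl z.im := by
        unfold Pool.Agent.Q286.BD.cl
        apply Complex.ext
        · simp; linarith
        · simp
      have hγne := O.γ_ne z (by have := O.η_pos; linarith)
      have he := O.eq z (by have := O.η_pos; linarith)
      rw [h0] at he
      have hL : O.L z = 0 := by
        rcases mul_eq_zero.1 he.symm with h | h
        · exact absurd h hγne
        · exact h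
      rw [hz'] at hL
      have := hZ z.im hL
      linarith
    · have h3 : ‖O.X z‖ ≠ 0 := by
        rw [hcoord z, hsym]
        exact norm_ne_zero_iff.2 (P1 _ (by
          have h5 := abs_pos.2 hre
          have e : ((1 : ℂ) / 2 + ((|z.re - 1 / 2| : ℝ) : ℂ) + ((z.im : ℝ) : ℂ) * I).re = 1 / 2 + |z.re - 1 / 2| := by simp
          rw [e]; linarith)).1
      exact h3 (by rw [h0, norm_zero])
  obtain ⟨ℓ, hℓd, hℓ⟩ := logb hd (fun z _ => (hXd z).differentiableWithinAt) hne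
  have hℓre : ∀ z ∈ Metric.ball (cl t) d, (ℓ z).re = Real.log ‖O.X z‖ := by
    intro z hz
    rw [hℓ z hz, Complex.norm_exp, Real.log_exp]
  set A := Real.log ‖O.X (1 / 2 + d + t * I)‖ with hA
  have hXpos : 0 < ‖O.X (1 / 2 + d + t * I)‖ := norm_pos_iff.2 (P1 _ (by simp; linarith)).1
  set F : ℂ → ℂ := fun z => ((A + 2 * C1 * Λt : ℝ) : ℂ) - ℓ z with hF
  have hFd : DifferentiableOn ℂ F (Metric.ball (cl t) d) := (differentiableOn_const _).sub hℓd
  have hFre : ∀ z ∈ Metric.ball (cl t) d, (F z).re = A + 2 * C1 * Λt - Real.log ‖O.X z‖ := by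
    intro z hz
    rw [hF]
    simp only [sub_re, ofReal_re]
    rw [hℓre z hz]
  have hFnn : ∀ z ∈ Metric.ball (cl t) d, 0 ≤ (F z).re := by
    intro z hz
    rw [hFre z hz]
    obtain ⟨hz1, hz2⟩ := hball z hz
    have hXz : ‖O.X z‖ ≤ Real.exp (2 * C1 * Λt) * ‖O.X (1 / 2 + d + t * I)‖ := by
      refine le_trans ?_ (hvert z.im hz2.le)
      rw [hcoord z, hsym]
      have := P3 |z.re - 1 / 2| d z.im (abs_nonneg _) hz1.le
      simpa using this
    have hXz0 : 0 < ‖O.X z‖ := norm_pos_iff.2 (hne z hz)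
    have := Real.log_le_log hXz0 hXz
    rw [Real.log_mul (Real.exp_pos _).ne' hXpos.ne', Real.log_exp] at this
    linarith
  have hcar := h1 F (cl t) d hd hFd hFnn
  -- the centre
  have hz1 : cl t + ((d / 2 : ℝ) : ℂ) ∈ Metric.ball (cl t) d := by
    rw [mem_ball_iff_norm, add_sub_cancel_left, Complex.norm_real, Real.norm_of_nonneg (by linarith)]; linarith
  have hH := (hcar _ hz1).2
  rw [add_sub_cancel_left, Complex.norm_real, Real.norm_of_nonneg (by linarith : (0 : ℝ) ≤ d / 2)] at hH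
  have hFz1 : (F (cl t + ((d / 2 : ℝ) : ℂ))).re ≤ 3 * C1 * Λt := by
    rw [hFre _ hz1]
    have e : cl t + ((d / 2 : ℝ) : ℂ) = 1 / 2 + (d / 2 : ℝ) + t * I := by
      unfold Pool.Agent.Q286.BD.cl; ring
    rw [e]
    have hX2pos : 0 < ‖O.X (1 / 2 + (d / 2 : ℝ) + t * I)‖ := norm_pos_iff.2 (P1 _ (by simp; linarith)).1
    have := Real.log_le_log hXpos hhor
    rw [Real.log_mul (Real.exp_pos _).ne' hX2pos.ne', Real.log_exp] at this
    linarith
  have hFc : (F (cl t)).re ≤ 9 * C1 * Λt := by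
    have h4 : (d / 2) * (F (cl t)).re ≤ (d / 2) * (3 * (F (cl t + ((d / 2 : ℝ) : ℂ))).re) := by linarith
    have h5 := le_of_mul_le_mul_left h4 (by linarith)
    linarith
  -- the point
  have hwn : ‖w‖ ≤ 3 * d / 5 := by
    have hsq : ‖w‖ ^ 2 ≤ (3 * d / 5) ^ 2 := by
      rw [← Complex.normSq_eq_norm_sq, Complex.normSq_apply]
      have h5 : w.re * w.re ≤ (d / 4) ^ 2 := by
        rw [← sq, ← sq_abs]; exact pow_le_pow_left₀ (abs_nonneg _) hw1 2
      have h6 : w.im * w.im ≤ (d / 2) ^ 2 := by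
        rw [← sq, ← sq_abs]; exact pow_le_pow_left₀ (abs_nonneg _) hw2 2
      nlinarith
    exact le_of_sq_le_sq hsq (by positivity)
  have hzw : cl t + w ∈ Metric.ball (cl t) d := by
    rw [mem_ball_iff_norm, add_sub_cancel_left]; linarith
  have hFw : (F (cl t + w)).re ≤ 36 * C1 * Λt := by
    have h5 := (hcar _ hzw).1
    rw [add_sub_cancel_left] at h5
    have hFc0 : 0 ≤ (F (cl t)).re := hFnn _ (Metric.mem_ball_self hd)
    have h6 : 2 * ‖w‖ / (d - ‖w‖) ≤ 3 := by
      rw [div_le_iff₀ (by linarith)]; linarith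
    have h7 : ‖F (cl t + w) - F (cl t)‖ ≤ 3 * (F (cl t)).re := h5.trans (mul_le_mul_of_nonneg_right h6 hFc0)
    have h8 := (Complex.re_le_norm (F (cl t + w) - F (cl t))).trans h7
    rw [Complex.sub_re] at h8
    linarith
  have hXt : ‖O.X (cl t)‖ ≤ Real.exp (36 * C1 * Λt) * ‖O.X (cl t + w)‖ := by
    have h5 : ‖O.X (cl t)‖ ≤ ‖O.X (1 / 2 + d + t * I)‖ := by
      rw [hcl]; exact P3 0 d t le_rfl hd.le
    refine h5.trans ?_
    have hXw0 : 0 < ‖O.X (cl t + w)‖ := norm_pos_iff.2 (hne _ hzw)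
    rw [hFre _ hzw] at hFw
    have h6 : A ≤ 36 * C1 * Λt + Real.log ‖O.X (cl t + w)‖ := by
      have : 0 ≤ 2 * C1 * Λt := by positivity
      linarith
    calc ‖O.X (1 / 2 + d + t * I)‖ = Real.exp A := by rw [hA, Real.exp_log hXpos]
      _ ≤ Real.exp (36 * C1 * Λt + Real.log ‖O.X (cl t + w)‖) := Real.exp_le_exp.2 h6
      _ = _ := by rw [Real.exp_add, Real.exp_log hXw0]
  -- the gamma factor
  have hηp := O.η_pos
  have hγne : ∀ τ : ℝ, 0 ≤ τ → τ ≤ 1 → 1 / 2 - d / 4 ≤ (cl t + τ * ((cl t + w) - cl t)).re ∧ (cl t + τ * ((cl t + w) - cl t)).re ≤ 1 ∧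
      |(cl t + τ * ((cl t + w) - cl t)).im - t| ≤ 1 := by
    intro τ h0 h1
    rw [add_sub_cancel_left]
    have e1 : (cl t + τ * w).re = 1 / 2 + τ * w.re := by
      rw [add_re, hclre]; simp
    have e2 : (cl t + τ * w).im = t + τ * w.im := by
      rw [add_im, hclim]; simp
    rw [e1, e2]
    have g1 : |τ * w.re| ≤ d / 4 := by
      rw [abs_mul, abs_of_nonneg h0]
      calc τ * |w.re| ≤ 1 * (d / 4) := mul_le_mul h1 hw1 (abs_nonneg _) zero_le_one
        _ = d / 4 := one_mul _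
    have g2 : |τ * w.im| ≤ d / 2 := by
      rw [abs_mul, abs_of_nonneg h0]
      calc τ * |w.im| ≤ 1 * (d / 2) := mul_le_mul h1 hw2 (abs_nonneg _) zero_le_one
        _ = d / 2 := one_mul _
    have g3 := abs_le.1 g1
    refine ⟨by linarith, by linarith, ?_⟩
    rw [add_sub_cancel_left]; linarith
  have hγr : ‖O.γ (cl t + w)‖ ≤ Real.exp (2 * C3 * Λt) * ‖O.γ (cl t)‖ := by
    have hseg := seg (f := O.γ) (a := cl t) (b := cl t + w) (K := C3 * (Λt + 1))
      (fun τ h0 h1 => O.γ_diff _ (by have := (hγne τ h0 h1).1; linarith))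
      (fun τ h0 h1 => by
        obtain ⟨g1, g2, g3⟩ := hγne τ h0 h1
        refine (hγ _ (by linarith) g2).trans ?_
        apply mul_le_mul_of_nonneg_right _ (norm_nonneg _)
        apply mul_le_mul_of_nonneg_left _ hC3.le
        exact Lam_near t _ g3)
    refine hseg.trans ?_
    apply mul_le_mul_of_nonneg_right _ (norm_nonneg _)
    apply Real.exp_le_exp.2
    rw [add_sub_cancel_left]
    calc C3 * (Λt + 1) * ‖w‖ ≤ C3 * (Λt + 1) * 1 := mul_le_mul_of_nonneg_left (by linarith) (by positivity)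
      _ ≤ 2 * C3 * Λt := by nlinarith
  have e1 := O.eq (cl t) (by rw [hclre]; linarith)
  have hre2 : 1 / 2 - O.η < (cl t + w).re := by
    have := (hγne 1 zero_le_one le_rfl).1
    simp only [ofReal_one, one_mul, add_sub_cancel] at this
    linarith
  have e2 := O.eq (cl t + w) hre2
  have hγ0 : 0 < ‖O.γ (cl t)‖ := norm_pos_iff.2 (O.γ_ne _ (by rw [hclre]; linarith))
  have hfin : ‖O.γ (cl t)‖ * ‖O.L (cl t)‖ ≤ ‖O.γ (cl t)‖ * (Real.exp (100 * (C1 + C3) * Λt) * ‖O.L (cl t + w)‖) := by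
    calc ‖O.γ (cl t)‖ * ‖O.L (cl t)‖ = ‖O.X (cl t)‖ := by rw [e1, norm_mul]
      _ ≤ Real.exp (36 * C1 * Λt) * ‖O.X (cl t + w)‖ := hXt
      _ = Real.exp (36 * C1 * Λt) * (‖O.γ (cl t + w)‖ * ‖O.L (cl t + w)‖) := by rw [e2, norm_mul]
      _ ≤ Real.exp (36 * C1 * Λt) * ((Real.exp (2 * C3 * Λt) * ‖O.γ (cl t)‖) * ‖O.L (cl t + w)‖) := by
          apply mul_le_mul_of_nonneg_left _ (Real.exp_pos _).le
          exact mul_le_mul_of_nonneg_right hγr (norm_nonneg _)
      _ = ‖O.γ (cl t)‖ * (Real.exp (36 * C1 * Λt + 2 * C3 * Λt) * ‖O.L (cl t + w)‖) := by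
          rw [Real.exp_add]; ring
      _ ≤ _ := by
          apply mul_le_mul_of_nonneg_left _ hγ0.le
          apply mul_le_mul_of_nonneg_right _ (norm_nonneg _)
          apply Real.exp_le_exp.2
          nlinarith [mul_pos hC1 (by linarith : (0 : ℝ) < Λt), mul_pos hC3 (by linarith : (0 : ℝ) < Λt)]
  have hfin2 := le_of_mul_le_mul_left hfin hγ0
  refine hfin2.trans ?_
  apply mul_le_mul_of_nonneg_right _ (norm_nonneg _)
  exact exp_Lam t (100 * (C1 + C3)) (by positivity)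

end Pool.Agent.Q286.GB
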