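import Pool.Agent.Q286.BD.Spec

set_option autoImplicit false

/-!
# Project GB: the distance of Nyman, Beurling and Báez-Duarte for every entire L-function with an Euler product

Definitions and exact statements of the lemma jobs, with complete proofs in the docstrings.  `Lam t = log (|t| + 16)`,
`ML t = Lam t / log (Lam t)`, `cl t = 1/2 + I t`, `Wt`, `Lap`, `V`, `Fm`, `Pl` are those of `Pool/Agent/Q286/BD/Spec.lean`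
(note `Lam t ≥ 2.77`, `1.01 ≤ log (Lam t)`, `2 ≤ ML t`, `ML t ≤ Lam t`, facts on `Lam`, `ML` in
`Pool/Agent/Q261/BD/Lm.lean`).  Most jobs are adaptations of the landed modules of project BD (zeta function); those
are named in the docstrings.
-/

namespace Pool.Agent.Q286.GB

open Complex MeasureTheory Filter Topology Set
open scoped ComplexConjugate
open Pool.Agent.Q286.BD (cl Lam ML Lap Wt V Fm Pl)

/-! ## objects -/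

/-- An entire function `L` of polynomial growth in right half-planes, with a Dirichlet series with coefficients `lam`
and an inverse Dirichlet series with coefficients `mu`, both absolutely convergent for `Re s ≥ 2` (so
`‖lam n‖, ‖mu n‖ ≤ C n ^ 2`, and `L`, `1/L` are bounded there). -/
structure LFn where
  L : ℂ → ℂ
  lam : ℕ → ℂ
  mu : ℕ → ℂ
  entire : Differentiable ℂ L
  lam_zero : lam 0 = 0
  mu_zero : mu 0 = 0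
  lam_one : lam 1 = 1
  lam_sum : Summable (fun n : ℕ => ‖lam n‖ * (n : ℝ) ^ (-2 : ℝ))
  mu_sum : Summable (fun n : ℕ => ‖mu n‖ * (n : ℝ) ^ (-2 : ℝ))
  inv : ∀ n : ℕ, 1 ≤ n → ∑ p ∈ n.divisorsAntidiagonal, lam p.1 * mu p.2 = if n = 1 then 1 else 0
  ser : ∀ s : ℂ, 2 ≤ s.re → HasSum (fun n : ℕ => lam n * (n : ℂ) ^ (-s)) (L s)
  grow : ∀ B : ℝ, ∃ C K : ℝ, 0 < C ∧ 0 ≤ K ∧ ∀ s : ℂ, -B ≤ s.re → ‖L s‖ ≤ C * (1 + ‖s‖) ^ K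

/-- The same with a completed function `X = γ L` and a functional equation. -/
structure Obj extends LFn where
  X : ℂ → ℂ
  γ : ℂ → ℂ
  η : ℝ
  η_pos : 0 < η
  η_le : η ≤ 1 / 2
  diff : Differentiable ℂ X
  slow : ∀ δ : ℝ, 0 < δ → ∃ K : ℝ, 0 < K ∧ ∀ z : ℂ, ‖X z‖ ≤ K * Real.exp (δ * ‖z‖ ^ 2)
  fe : ∃ ε : ℂ, ‖ε‖ = 1 ∧ ∀ s : ℂ, X s = ε * conj (X (1 - conj s))
  γ_diff : ∀ s : ℂ, 1 / 2 - η < s.re → DifferentiableAt ℂ γ s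
  γ_ne : ∀ s : ℂ, 1 / 2 - η < s.re → γ s ≠ 0
  eq : ∀ s : ℂ, 1 / 2 - η < s.re → X s = γ s * L s
  γ_ld : ∀ B : ℝ, ∃ C : ℝ, 0 < C ∧ ∀ s : ℂ, 1 / 2 - η / 2 ≤ s.re → s.re ≤ B →
    ‖deriv γ s‖ ≤ C * Real.log (|s.im| + 16) * ‖γ s‖

/-- The Riemann hypothesis. -/
def RH (O : LFn) : Prop := ∀ s : ℂ, 1 / 2 < s.re → O.L s ≠ 0

/-- The ordinates of the zeros on the critical line. -/
def Z (O : LFn) : Set ℝ := {g | O.L (cl g) = 0}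

/-- The multiplicity of `1/2 + I g`. -/
noncomputable def mz (O : LFn) (g : ℝ) : ℕ := analyticOrderNatAt O.L (cl g)

/-- The integrand of the distance (line form). -/
noncomputable def lin (O : LFn) (N : ℕ) (a : ℕ → ℂ) (t : ℝ) : ℝ :=
  ‖1 - O.L (cl t) * ∑ n ∈ Finset.Icc 1 N, a n * (n : ℂ) ^ (-cl t)‖ ^ 2 / (1 / 4 + t ^ 2)

/-- The Dirichlet convolution of `a` (cut at `N`) and `lam`. -/
noncomputable def cc (O : LFn) (N : ℕ) (a : ℕ → ℂ) (k : ℕ) : ℂ :=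
  ∑ p ∈ k.divisorsAntidiagonal, (if p.1 ≤ N then a p.1 else 0) * O.lam p.2

/-- `1 - ∑_{k ≤ y} (a * lam)(k)`. -/
noncomputable def CC (O : LFn) (N : ℕ) (a : ℕ → ℂ) (y : ℝ) : ℂ := 1 - ∑ k ∈ Finset.Icc 1 ⌊y⌋₊, cc O N a k

/-! ## general facts about the half-plane -/

/-- JOB CAR (Carathéodory's inequality). Proof. If `F` is constant or `Re F c = 0` it is constant (open mapping, or
maximum principle) and both sides vanish. Otherwise `W z = (F z - F c) / (F z + conj (F c))` maps the ball to the closed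
unit disc (`Re F z ≥ 0`, `Re F c > 0`, so the denominator is not zero) with `W c = 0`, and the Schwarz lemma gives
`‖W z‖ ≤ r / R`, `r = ‖z - c‖`. So `‖F z - F c‖ ≤ (r/R) (‖F z - F c‖ + 2 Re F c)`. Second part (Harnack): from
`F z = (F c + conj (F c) W)/(1 - W)` we have `Re F z = Re (F c) (1 - ‖W‖^2)/‖1 - W‖^2 ≥ Re (F c) (1 - ‖W‖)/(1 + ‖W‖)`. -/
def S_CAR : Prop := ∀ (F : ℂ → ℂ) (c : ℂ) (R : ℝ), 0 < R → DifferentiableOn ℂ F (Metric.ball c R) →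
  (∀ z ∈ Metric.ball c R, 0 ≤ (F z).re) → ∀ z ∈ Metric.ball c R,
  ‖F z - F c‖ ≤ 2 * ‖z - c‖ / (R - ‖z - c‖) * (F c).re ∧
  (R - ‖z - c‖) * (F c).re ≤ (R + ‖z - c‖) * (F z).re

/-- JOB POS. Proof. `X = γ L ≠ 0` on `Re s > 1/2`. Positivity: `Pool.Agent.W613.HF.re_nonneg` (structure `GLc 0 X` in
`Pool/Agent/H353R6/E14.lean`; see how `Cl` is turned into `GLc` there with `slow_growth`). Symmetry of the norm: the
functional equation; monotonicity: integrate `Re (X'/X) ≥ 0` along horizontal segments, continuity at the end. `F = X'/X`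
below. `X` has no zeros off the line by `fe`. -/
def S_POS : Prop := ∀ O : Obj, RH O.toLFn →
  (∀ s : ℂ, 1 / 2 < s.re → O.X s ≠ 0 ∧ 0 ≤ (deriv O.X s / O.X s).re) ∧
  (∀ x y : ℝ, ‖O.X (1 / 2 - x + y * I)‖ = ‖O.X (1 / 2 + x + y * I)‖) ∧
  (∀ x x' y : ℝ, 0 ≤ x → x ≤ x' → ‖O.X (1 / 2 + x + y * I)‖ ≤ ‖O.X (1 / 2 + x' + y * I)‖)

/-- JOB FB (from `S_CAR`, `S_POS`). Proof. (a) For `Re s ≥ 5/2`: `‖L s‖ ≤ C`, `‖L' s‖ ≤ C`, and `‖(L s)⁻¹‖ ≤ C`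
(`L s * ∑ mu n n^(-s) = 1` for `Re s ≥ 2` from `inv`: product of absolutely convergent Dirichlet series, Mathlib
`LSeries_convolution`, or `tsum_mul_tsum` by hand). (b) at `s1 = 1/2 + 3 + I u`: `X'/X = γ'/γ + L'/L = O(Lam u)` by `γ_ld`; `S_CAR` for
`F = X'/X` on the ball with centre `s1` and radius `3`, `z = 1/2 + v + I u`: `‖F z‖ ≤ ‖F s1‖ (1 + 2 (3 - v) / v)`. -/
def S_FB : Prop := ∀ O : Obj, RH O.toLFn → ∃ C : ℝ, 0 < C ∧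
  (∀ s : ℂ, 5 / 2 ≤ s.re → ‖O.L s‖ ≤ C ∧ ‖(O.L s)⁻¹‖ ≤ C ∧ ‖deriv O.L s‖ ≤ C) ∧
  ∀ u v : ℝ, 0 < v → v ≤ 3 →
    ‖deriv O.X (1 / 2 + v + u * I) / O.X (1 / 2 + v + u * I)‖ ≤ C * Lam u / v

/-- JOB FAR (from `S_POS`, `S_FB`): bound for the logarithm. Proof. Let `g0` be a logarithm of `z ↦ L (1/2 + z)` on
`Re z > 0` (`Q241.SN.exists_GG`, or `exists_log` for convex domains). Put `g z = g0 (4 z) / D`, `D ≥ 1` large. Then `GH g C0`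
(`Pool/Agent/Q241/SN/Grow1.lean`) holds: `low`: `Re g' = (4/D) Re (L'/L)(1/2 + 4z)` and
`L'/L = X'/X - γ'/γ`, `Re X'/X ≥ 0`, `‖γ'/γ‖ ≤ C log (|4 im z| + 16)`; `bdd`: for `Re z ≥ 1/2 + η` we have
`Re (1/2 + 4z) ≥ 5/2 + 4η`, where `g0` is bounded: `‖L - 1‖ ≤ 1/2` for `Re s ≥ σ1` (so `g0 - log L` is constant there) and
`L'/L` is bounded for `Re s ≥ 5/2` by `S_FB`. `GH.growth` (Grow3.lean) with `η = 1/2` gives the bound for `u = 4 t`,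
`t` large, `v = 4x ≤ 4`: `‖g (x + i t)‖ ≤ C (log t / loglog t) (1 + 1/(x loglog t))`, and `1/(x loglog t) ≤ C'` for
`v ≥ 1 / log (Lam u)`. `u → -∞`: apply the same to `conj (g (conj z))` (also `GH`). Bounded `u`: `log ‖L‖` is continuous
on the compact set `{1/log (Lam u) ≤ v ≤ 4, |u| ≤ U}`. `v ≥ 2`: bounded by `S_FB`. Compare
`Pool/Agent/Q261/BD/Gr.lean` (far, far2). -/
def S_FAR : Prop := ∀ O : Obj, RH O.toLFn → ∃ C : ℝ, 0 < C ∧ ∀ u v : ℝ, 1 / Real.log (Lam u) ≤ v →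
  |Real.log ‖O.L (1 / 2 + v + u * I)‖| ≤ C * ML u

/-- JOB LD (from `S_CAR`, `S_POS`, `S_FB`, `S_FAR`). Proof. `v0 = 1 / log (Lam u)`. For `v ≥ 2 v0`: the disc
around `1/2 + v + I u` of radius `r = min (v/4) (1/4)` lies in the region of `S_FAR` (`Lam (u + y) ≥ Lam u - 1/10` for
`|y| ≤ 1`, `ML (u+y) ≤ 2 ML u`), and a logarithm of `L` on the disc has real part bounded by `C ML u`, so its
derivative at the centre is `≤ 4 C ML u / r` (Borel-Carathéodory; or `S_CAR` applied to `C' ML u - log L`, and the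
limit quotient). So `‖L'/L‖ ≤ C ML u / v`. For `v < v1 = 2 v0`: `F = X'/X`, `‖F(1/2 + v1 + I u)‖ ≤ C Lam u` (`γ_ld` and the
first case, `ML u / v1 = Lam u / 2`), `S_CAR` on the ball of centre `1/2 + v1 + I u` and radius `v1`:
`‖F(1/2+v+Iu) - F(1/2+v1+Iu)‖ ≤ (2 v1/v) C Lam u = 4 C ML u / v`. Finally `L'/L = F - γ'/γ`. Compare
`Pool/Agent/Q261/BD/LD.lean`. -/
def S_LD : Prop := ∀ O : Obj, RH O.toLFn → ∃ C : ℝ, 0 < C ∧ ∀ u v : ℝ, 0 < v → v ≤ 1 →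
  ‖deriv O.L (1 / 2 + v + u * I) / O.L (1 / 2 + v + u * I)‖ ≤ C * (Lam u + ML u / v)

/-- JOB MONO (from `S_POS`). Proof. `‖L(cl t)‖ = ‖X(cl t)‖/‖γ(cl t)‖ ≤ ‖X(1/2+h+It)‖/‖γ(cl t)‖
= ‖L(1/2+h+It)‖ ‖γ(1/2+h+It)‖/‖γ(cl t)‖` and `‖γ'/γ‖ ≤ C Lam t` on the segment. -/
def S_MONO : Prop := ∀ O : Obj, RH O.toLFn → ∃ C : ℝ, 0 < C ∧ ∀ t h : ℝ, 0 < h → h ≤ 1 →
  ‖O.L (cl t)‖ ≤ C * Real.exp (C * (h * Lam t)) * ‖O.L (1 / 2 + h + t * I)‖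

/-- JOB RAT (from `S_FAR`, `S_LD`, `S_MONO`), three theorems: ratio bound, lower bound, upper bound. Proof: as in
`Pool/Agent/Q162/BD/{Gz,Ztwo,ZtwoB}.lean` (there for zeta, with the factor `s - 1` which is absent here;
constants `C` in the exponent of `S_MONO`). `S_LOWB` for `x ≥ 1 / log (Lam u)` is `S_FAR` (all such `x`, no upper
limit). -/
def S_RATIO : Prop := ∀ O : Obj, RH O.toLFn → ∃ C : ℝ, 0 < C ∧ ∀ t y x : ℝ, 0 < x → x ≤ 1 → |y| ≤ 1 + |t| / 2 →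
  ‖O.L (cl t)‖ ≤ Real.exp (C * ML t * Real.log (2 + |y| / x)) * ‖O.L (1 / 2 + x + (t + y) * I)‖

/-- see `S_RATIO` -/
def S_LOWB : Prop := ∀ O : Obj, RH O.toLFn → ∃ C : ℝ, 0 < C ∧ ∀ u x : ℝ, 0 < x →
  Real.exp (-(C * Lam u * Real.log (2 + 1 / x))) ≤ ‖O.L (1 / 2 + x + u * I)‖

/-- see `S_RATIO` -/
def S_UPL : Prop := ∀ O : Obj, RH O.toLFn → ∃ C : ℝ, 0 < C ∧ ∀ t : ℝ, ‖O.L (cl t)‖ ≤ Real.exp (C * ML t)

/-- JOB HH (from `S_CAR`, `S_POS`, `S_FB`). Proof. `X ≠ 0` on `ball (cl t) d` (zeros of `X` are on the line, and there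
`X(cl g) = 0` iff `L(cl g) = 0`). Let `A = log ‖X(1/2 + d + I t)‖`. Upper bound on `ball (cl t) d`: for `w = x + I y`,
`‖X(cl t + w)‖ = ‖X(1/2 + |x| + I(t+y))‖ ≤ ‖X(1/2 + d + I(t+y))‖ ≤ exp (A + C Lam t)` (`S_FB` with `v = d`, `|y| ≤ d`).
Lower bound at `w = d/2`: `‖X(1/2 + d/2 + I t)‖ ≥ exp (A - C Lam t)`. So `h w = A + C Lam t - log X(cl t + w)` (a branch of the
logarithm on the ball) has `Re h ≥ 0` and `Re h (d/2) ≤ 2 C Lam t`. Harnack (second part of `S_CAR`, centre `0`, radius `d`, `z = d/2`): `Re h(0) ≤ 3 Re h(d/2) ≤ 6 C Lam t`; first part of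
`S_CAR`: `Re h(w) ≤ 4 Re h(0)` for `‖w‖ ≤ 3d/5`. The region `|Re w| ≤ d/4`, `|Im w| ≤ d/2` is inside. So `‖X(cl t)‖ ≤ exp A ≤ exp (C'' Lam t) ‖X(cl t + w)‖`;
the ratio of the factors `γ` is `≤ exp (C Lam t)` by `γ_ld` (`Re ≥ 1/2 - d/4 ≥ 1/2 - η/2`, segment). -/
def S_HH : Prop := ∀ O : Obj, RH O.toLFn → ∃ C : ℝ, 0 < C ∧ ∀ t d : ℝ, 0 < d → d ≤ O.η →
  (∀ g : ℝ, O.L (cl g) = 0 → d ≤ |g - t|) →
  ∀ w : ℂ, |w.re| ≤ d / 4 → |w.im| ≤ d / 2 →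
  ‖O.L (cl t)‖ ≤ (|t| + 2) ^ C * ‖O.L (cl t + w)‖

/-- JOB CNT (from `S_POS`, `S_FB`). Proof. For a finite set `S` of zeros on the line with ordinates in `[T, T+1]` put
`X1 = X / ∏ (s - cl g)^(m g)` (removable singularities; `m g = mz O g` is also the order of `X` at `cl g`):
entire, slow, satisfies the functional equation with another `ε` (as `1 - conj s - ρ` conjugated is `-(s - ρ)` for
`Re ρ = 1/2`), no zeros in `Re s > 1/2`; so `Re X1'/X1 ≥ 0` there (`Pool.Agent.W613.HF.re_nonneg`), i.e. at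
`s = 3/2 + I T`: `∑ m g / 2 ≤ ∑ m g Re (1/(s - cl g)) ≤ Re (X'/X) ≤ C Lam T` by `S_FB` with `v = 1`. So every
finite set of zeros in `[T,T+1]` has `∑ m g ≤ 2 C Lam T`; hence finiteness, the count, and
`∑ m^2 ≤ (2 C Lam T)^2`, which makes `∑ m^2/(1/4+g^2)` converge. (`mz O g ≥ 1` at a zero, `L` is not identically zero.) -/
def S_CNT : Prop := ∀ O : Obj, RH O.toLFn →
  (∃ K0 : ℝ, ∀ T : ℝ, (Z O.toLFn ∩ Icc T (T + 1)).Finite ∧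
    ((Z O.toLFn ∩ Icc T (T + 1)).ncard : ℝ) ≤ K0 * Real.log (|T| + 2)) ∧
  Summable (fun g : Z O.toLFn => (mz O.toLFn g : ℝ) ^ 2 / (1 / 4 + (g : ℝ) ^ 2))

/-! ## the mollifier -/

/-- the mollifier -/
noncomputable def AA (O : LFn) (φ : ℝ → ℝ) (L : ℝ) (s : ℂ) : ℂ :=
  ∑ n ∈ Finset.Icc 1 ⌊Real.exp L⌋₊, O.mu n * ((V φ (Real.log n / L) : ℝ) : ℂ) * (n : ℂ) ^ (-s)

/-- JOB PER. Proof: as `Pool/Agent/Q153/BD/Per.lean` (`S_per`), with `(L s)⁻¹ = ∑ mu n n^(-s)` for `Re s ≥ 2`. -/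
def S_PER : Prop := ∀ (O : LFn) (β : ℝ) (φ : ℝ → ℝ), 0 < β → Wt β φ → ∀ (L a : ℝ) (s : ℂ), 0 < L → 0 < a →
  2 < s.re + a / L →
  AA O φ L s = 1 / (2 * Real.pi) * ∫ K : ℝ, (O.L (s + (a + K * I) / L))⁻¹ * Lap φ (a + K * I) / (a + K * I)

/-- JOB PRH (from `S_PER`, `S_LOWB`, `S_FB`). Proof: as `Pool/Agent/Q237/BD/{Vert,PerRH}.lean` (`S_perRH`); simpler, no
pole. Growth of `1/L`: `S_LOWB` (all `x > 0`), boundedness for `Re s ≥ 5/2` by `S_FB`. -/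
def S_PRH : Prop := ∀ O : Obj, RH O.toLFn → ∀ (β : ℝ) (φ : ℝ → ℝ), 0 < β → Wt β φ →
  ∀ L a t : ℝ, 0 < L → 0 < a →
  Integrable (fun K : ℝ => (O.L (cl t + (a + K * I) / L))⁻¹ * Lap φ (a + K * I) / (a + K * I)) ∧
  AA O.toLFn φ L (cl t) =
    1 / (2 * Real.pi) * ∫ K : ℝ, (O.L (cl t + (a + K * I) / L))⁻¹ * Lap φ (a + K * I) / (a + K * I)

/-- JOB DEC (from `S_RATIO`, `S_LOWB`, `S_UPL`, `S_PRH`, `S_HH`). Proof: as `Pool/Agent/Q296/BD/{Ib,Pt,Dec}.lean`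
(`S_dec`, which did not need `S_pt`); `S_HH` holds only for `d ≤ η`, for larger `d` apply everything with
`min d η` (`1/(1 + L η) ≤ (1/η) / (1 + L d)` for `d ≤ 1`). -/
def S_DEC : Prop := ∀ O : Obj, RH O.toLFn → ∃ β0 : ℝ, 0 < β0 ∧ β0 < 1 ∧ ∀ β : ℝ, β0 < β → β < 1 →
  ∀ φ : ℝ → ℝ, Wt β φ → ∃ C L0 : ℝ, 0 < C ∧ 1 ≤ L0 ∧ ∀ L : ℝ, L0 ≤ L → ∀ t d : ℝ, |t| ≤ Real.exp (10 * L) →
  0 < d → d ≤ 1 → (∀ g : ℝ, O.L (cl g) = 0 → d ≤ |g - t|) →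
  ‖O.L (cl t) * AA O.toLFn φ L (cl t) - 1‖ ≤ C * (1 + |t|) ^ (3 / 8 : ℝ) / (1 + L * d)

/-- JOB LIM (from `BD.S_inv`, `S_PRH`, `S_RATIO`, `S_LOWB`, `S_UPL`). Proof: as `Pool/Agent/Q237/BD/Lim.lean` (`S_lim`). -/
def S_LIM : Prop := ∀ O : Obj, RH O.toLFn → ∀ (β : ℝ) (φ : ℝ → ℝ), 0 < β → Wt β φ →
  ∀ (g x : ℝ), O.L (cl g) = 0 →
  Tendsto (fun L : ℝ => O.L (cl (g + x / L)) * AA O.toLFn φ L (cl (g + x / L))) atTop
    (𝓝 (1 + Fm (mz O.toLFn g) φ x))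

/-- JOB UP (from `S_DEC`, `S_LIM`, `BD.S_asm`, `BD.S_cost`, `BD.S_loc`, `S_CNT`, `S_UPL`). Proof: as
`Pool/Agent/Q149/BD/{FB,U,U1,U2,U3,U4}.lean` (`S_up`), without `S_mel`: the claim is directly about the integral over the
line. For `|t| ≥ exp (10 L)`: `‖AA‖ ≤ C exp (3 L / 2)` (as `‖mu n‖ n^(-1/2) = ‖mu n‖ n^(-2) n^(3/2)`), `‖L(cl t)‖ ≤ C (1+|t|)^(1/8)`, so
`‖U‖^2 ≤ C exp (3 L) (1+|t|)^(1/4) ≤ C exp L (1+|t|)^(1/2)`. -/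
def S_UP : Prop := ∀ O : Obj, RH O.toLFn → ∀ η : ℝ, 0 < η → ∀ᶠ N : ℕ in atTop, ∃ a : ℕ → ℂ,
  Integrable (lin O.toLFn N a) ∧
  (1 / (2 * Real.pi) * ∫ t : ℝ, lin O.toLFn N a t) * Real.log N ≤
    ∑' g : Z O.toLFn, (mz O.toLFn g : ℝ) ^ 2 / (1 / 4 + (g : ℝ) ^ 2) + η

/-! ## the elementary form -/

/-- JOB PL: the elementary distance is at most the distance on the line (no Riemann hypothesis, no bound for the
mean square of `L`). Proof. Let `u v = CC O N a (exp v) * exp (-v/2)` for `v ≥ 0`, `0` for `v < 0`; `CC y` is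
polynomially bounded, as `lam n = O(n^2)`. For `Re s ≥ 4` (or any large abscissa): `∫_{v ≥ 0} CC (exp v) exp (-s v) dv =
F s := (1 - L s A s)/s`, `A s = ∑_{n ≤ N} a n n^(-s)` (absolutely convergent Dirichlet series, partial summation or
termwise: `∫_1^∞ 1_{y ≥ k} y^(-s-1) dy = k^(-s)/s`, `∑ cc k k^(-s) = A s L s`). For a smooth `ψ` with support in `[0, ε]`,
`ψ ≥ 0`, `∫ ψ = 1`: `ψ^(z) = ∫ ψ(v) exp (z v) dv` is rapidly decreasing on vertical strips. `F` is holomorphic in `Re s > 0` of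
polynomial growth in `Re s ≥ 1/2` (`grow`); so for the convolution `u * ψ`, Laplace/Fourier inversion on `Re s = 4` and the shift of the line to
`Re s = 1/2` (the integrand `F(s) ψ^(1/2 - s) exp ((s - 1/2) v)` is rapidly decreasing) give
`(u * ψ)(v) = (1/2π) ∫ F(1/2 + I t) ψ^(-I t) exp (I t v) dt`. The function `F(1/2 + I t) ψ^(-It)` is in `L^1 ∩ L^2`
(`F(1/2 + I ·) ∈ L^2` is the hypothesis, `‖F(cl t)‖^2 = lin t`), so by Plancherel `∫ ‖u * ψ‖^2 ≤ (1/2π) ∫ lin` (as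
`‖ψ^(-It)‖ ≤ 1`). Let `ε → 0`: `u * ψ_ε → u` at every point of continuity of `u` (all but countably many), so Fatou gives
`∫ ‖u‖^2 ≤ (1/2π) ∫ lin`, and `∫ ‖u‖^2 dv = ∫_1^∞ ‖CC y‖^2 dy / y^2` (`y = exp v`). Vertical shifts: `Pool/Agent/Q237/BD/Vert.lean`. -/
def S_PL : Prop := ∀ (O : LFn) (N : ℕ) (a : ℕ → ℂ), Integrable (lin O N a) →
  IntegrableOn (fun y : ℝ => ‖CC O N a y‖ ^ 2 / y ^ 2) (Ioi 1) ∧
  ∫ y in Ioi (1 : ℝ), ‖CC O N a y‖ ^ 2 / y ^ 2 ≤ 1 / (2 * Real.pi) * ∫ t : ℝ, lin O N a t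

/-! ## the lower bound -/

/-- smooth cutoff: `1` for `y ≤ 1`, `0` for `y ≥ 2` -/
noncomputable def Hc (y : ℝ) : ℝ := Real.smoothTransition (2 - y)

/-- JOB VO: the smoothed Dirichlet series. Proof. `N(w) = -∫_1^2 Hc'(y) y^w dy` is entire, `N(0) = 1`, and rapidly
decreasing on vertical strips (integrate by parts: `‖N w‖ ≤ C_{J,b} (1+‖w‖)^(-J)` for `|Re w| ≤ b`, every `J`); for `y > 0`,
`c > 0`: `Hc y = (1/2πi) ∫_{Re w = c} (N(w)/w) y^(-w) dw` (Mellin inversion). So for `c = R + 3`: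
`∑ lam m m^(-s) Hc(m/X) = (1/2πi) ∫_{Re w = c} (N(w)/w) L(s+w) X^w dw` (`ser`, `lam_sum`; the terms `m > 2X` vanish). Shift the
line to `Re w = -B`: the integrand is holomorphic except for the simple pole at `w = 0` with residue `L(s)` (write
`(N(w) L(s+w) X^w - L(s) e^{w^2}... )/w` or use a residue lemma of the library), and decays by `grow` and the decay of `N`
(`J > K + 2`). The integral over `Re w = -B` is `≤ C X^(-B)` (we may assume `B ≥ 1`). Everything is uniform for `‖s‖ ≤ R`.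
Library for vertical lines with a residue: `Pool/Agent/Q237/BD/Vert.lean`, or search `rect` / `residue` in the library. -/
def S_VO : Prop := ∀ (O : LFn) (B R : ℝ), ∃ C : ℝ, 0 < C ∧ ∀ s : ℂ, ‖s‖ ≤ R → ∀ X : ℝ, 1 ≤ X →
  ‖∑ m ∈ Finset.Icc 1 ⌊2 * X⌋₊, O.lam m * (m : ℂ) ^ (-s) * ((Hc (m / X) : ℝ) : ℂ) - O.L s‖ ≤ C * X ^ (-B)

/-- The primitive of the test function that belongs to `ρ = 1/2 + I g`; `p` is a polynomial. -/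
noncomputable def Phi (g : ℝ) (p : Polynomial ℝ) (δ T y : ℝ) : ℂ :=
  1 / cl g * (y : ℂ) ^ (-cl g) * ((p.eval (Real.log y / ((1 + δ) * T)) : ℝ) : ℂ) *
    ((Hc (y * Real.exp (-((1 + δ) * T))) : ℝ) : ℂ)

/-- The test function. -/
noncomputable def kk (g : ℝ) (p : Polynomial ℝ) (δ T y : ℝ) : ℂ := -deriv (Phi g p δ T) y

/-- JOB NO (from `S_VO`): near orthogonality. Proof. `D_i(s, X) = ∑ lam m m^(-s) (log m)^i Hc(m/X)` is `(-1)^i` times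
the `i`-th derivative in `s` of the sum in `S_VO`, so by Cauchy's estimate on the circle of radius `1` (`S_VO` with `R = |ρ| + 1`)
`‖D_i(ρ, X) - (-1)^i L^(i)(ρ)‖ ≤ i! C X^(-B)`, and `L^(i)(ρ) = 0` for `i < mz` (`analyticOrderNatAt`), so
`‖D_i(ρ, X)‖ ≤ C X^(-B)` for `i < mz`, `X ≥ 1`. With `X = Y/n`, `Y = exp ((1+δ) T) ≥ n e^{δT}`, `p(v) = ∑ p_j v^j`
(`j < mz`), `(log n + log m)^j` expanded by the binomial theorem, `log n ≤ T`: the sum is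
`≤ C ∑_j ∑_i T^j (Y/n)^(-B') ≤ C T^mz exp (-B' δ T)`; choose `B' = (B + 1)/δ`. -/
def S_NO : Prop := ∀ (O : LFn) (g : ℝ) (p : Polynomial ℝ), O.L (cl g) = 0 → p.degree < mz O g →
  ∀ δ B : ℝ, 0 < δ → ∃ C : ℝ, 0 < C ∧ ∀ T : ℝ, 1 ≤ T → ∀ n : ℕ, 1 ≤ n → (n : ℝ) ≤ Real.exp T →
  ‖∑ m ∈ Finset.Icc 1 ⌊2 * Real.exp ((1 + δ) * T)⌋₊, O.lam m * Phi g p δ T (n * m)‖ ≤ C * Real.exp (-(B * T))

/-- JOB NM: smoothness, support and norms. Proof. `y > 0`: `Phi` is smooth (`Hc` is smooth), zero for `y ≥ 2Y`, `Y = exp ((1+δ)T)`.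
`kk y = y^(-ρ-1) [p(l) - (1/(ρ τ)) p'(l)] Hc(y/Y) - (1/ρ) y^(-ρ) p(l) Hc'(y/Y)/Y`, `τ = (1+δ)T`, `l = log y/τ`. With `y = e^v` on
`[0, τ + log 2]`: `∫ ‖∑ w_g kk_g‖^2 y^2 dy = ∫_0^{τ + log 2} ‖∑ w_g e^{-igv} p_g(v/τ)‖^2 dv + O(1) + O(√τ)`: diagonal terms
`τ |w_g|^2 ∫_0^1 p_g^2`, off-diagonal terms `O(1)` by one integration by parts, the terms with `p'/(ρτ)` are `O(1/τ)` pointwise,
the terms with `Hc'` are supported in `[Y, 2Y]` and `O(y^(-1/2)/Y)`; Cauchy-Schwarz for the cross terms. Compare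
`Pool/Agent/Q95/BD/{T2a,T2}.lean` and `Pool/Agent/Q210/BD/TN.lean`. -/
def S_NM : Prop :=
  (∀ (g : ℝ) (p : Polynomial ℝ) (δ T : ℝ), 0 < δ → 1 ≤ T →
    (∀ y : ℝ, 0 < y → DifferentiableAt ℝ (Phi g p δ T) y) ∧ ContinuousOn (kk g p δ T) (Ioi 0) ∧
    (∀ y : ℝ, 2 * Real.exp ((1 + δ) * T) ≤ y → Phi g p δ T y = 0) ∧
    (∀ y : ℝ, 2 * Real.exp ((1 + δ) * T) < y → kk g p δ T y = 0) ∧
    Phi g p δ T 1 = 1 / cl g * ((p.eval 0 : ℝ) : ℂ)) ∧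
  ∀ (S : Finset ℝ) (p : ℝ → Polynomial ℝ) (w : ℝ → ℂ) (δ η : ℝ), 0 < δ → 0 < η → ∀ᶠ T : ℝ in atTop,
    IntegrableOn (fun y : ℝ => ‖∑ g ∈ S, w g * kk g (p g) δ T y‖ ^ 2 * y ^ 2) (Ioi 1) ∧
    ∫ y in Ioi (1 : ℝ), ‖∑ g ∈ S, w g * kk g (p g) δ T y‖ ^ 2 * y ^ 2 ≤
      T * ((1 + δ) * ∑ g ∈ S, ‖w g‖ ^ 2 * (∫ u in (0 : ℝ)..1, (p g).eval u ^ 2) + η)

/-- JOB CO: the coefficients are bounded by the distance. Proof. `CC` is constant on `[k, k+1)`, so with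
`J` the integral `‖CC k‖^2 / (k (k+1)) ≤ J`, `‖CC k‖ ≤ (k+1) √J`; `cc k = CC (k-1) - CC k` (`CC 0 = 1`), so
`‖cc k‖ ≤ 1 + 2 (k+1) √J`. By `inv`, `a n = ∑_{p ∈ antidiagonal n} cc p.1 * mu p.2` for `1 ≤ n ≤ N` (associativity of the
Dirichlet convolution), and `∑_{n ≤ N} ‖mu n‖ ≤ C N^2` (`mu_sum`). -/
def S_CO : Prop := ∀ O : LFn, ∃ C : ℝ, 0 < C ∧ ∀ (N : ℕ) (a : ℕ → ℂ), 1 ≤ N →
  IntegrableOn (fun y : ℝ => ‖CC O N a y‖ ^ 2 / y ^ 2) (Ioi 1) →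
  ∑ n ∈ Finset.Icc 1 N, ‖a n‖ ≤ C * (N : ℝ) ^ 4 * (1 + Real.sqrt (∫ y in Ioi (1 : ℝ), ‖CC O N a y‖ ^ 2 / y ^ 2))

/-- JOB LOW (from `BD.S_leg`, `S_NO`, `S_NM`, `S_CO`): **Burnol's lower bound** for any L-function. Proof: as
`Pool/Agent/Q202/BD/Low.lean`. `M = ∑_{g ∈ S} mz^2/(1/4+g^2)`; for `g ∈ S`: `p_g` of `BD.S_leg` with `m = mz O g ≥ 1`,
`w_g = 1 / conj (cl g)`, `k = ∑ w_g kk_g`, `T = log N`. `∫_1^∞ CC(y) k(y) dy = ∑ w_g [Phi_g 1 - ∑_{n ≤ N} a n ∑_m lam m Phi_g(n m)]`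
(finite sums: `∫_1^∞ 1_{y ≥ j} kk(y) dy = Phi(j)` for `j ≥ 1`), `∑ w_g Phi_g 1 = M`, the rest is
`≤ C N^4 (1+√J) C exp (-6T)` (`S_NO` with `B = 6`, `S_CO`). Cauchy-Schwarz with `y^(-1)` and `y`. -/
def S_LOW : Prop := ∀ (O : LFn) (S : Finset ℝ), (∀ g ∈ S, O.L (cl g) = 0) → ∀ η : ℝ, 0 < η →
  ∀ᶠ N : ℕ in atTop, ∀ a : ℕ → ℂ, IntegrableOn (fun y : ℝ => ‖CC O N a y‖ ^ 2 / y ^ 2) (Ioi 1) →
  ∑ g ∈ S, (mz O g : ℝ) ^ 2 / (1 / 4 + g ^ 2) - η ≤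
    (∫ y in Ioi (1 : ℝ), ‖CC O N a y‖ ^ 2 / y ^ 2) * Real.log N

/-- JOB NRH. Proof. Let `L ρ = 0`, `Re ρ = β > 1/2`. If `J = ∫ ‖CC‖^2/y^2 < ∞`, then `F s = ∫_1^∞ CC(y) y^(-s-1) dy` converges
absolutely and is holomorphic for `Re s > 1/2` (Cauchy-Schwarz), and equals `(1 - L s A s)/s` for `Re s` large (see
`S_PL`), hence for all `Re s > 1/2` (identity theorem). So `F ρ = 1/ρ` and `1/|ρ|^2 ≤ J/(2β - 1)`. Compare
`Pool/Agent/Q210/BD/NrhR.lean`. -/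
def S_NRH : Prop := ∀ O : LFn, ¬ RH O → ∃ c : ℝ, 0 < c ∧ ∀ (N : ℕ) (a : ℕ → ℂ),
  IntegrableOn (fun y : ℝ => ‖CC O N a y‖ ^ 2 / y ^ 2) (Ioi 1) →
  c ≤ ∫ y in Ioi (1 : ℝ), ‖CC O N a y‖ ^ 2 / y ^ 2

end Pool.Agent.Q286.GB
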