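import Pool.Agent.Q286.GB.Rows2
import Pool.Agent.Q190.GB.Car
import Pool.Agent.Q190.GB.Pos
import Pool.Agent.Q211.GB.Bas
import Pool.Agent.Q211.GB.Far
import Pool.Agent.Q211.GB.Ld
import Pool.Agent.Q252.GB.Mono
import Pool.Agent.Q211.GB.Rat
import Pool.Agent.Q286.GB.HH
import Pool.Agent.Q252.GB.Cnt
import Pool.Agent.Q252.GB.Per
import Pool.Agent.Q211.GB.Prh
import Pool.Agent.Q211.GB.Dec
import Pool.Agent.Q66.GB.Lim
import Pool.Agent.Q174.GB.UP
import Pool.Agent.Q151.GB.Pl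
import Pool.Agent.Q151.GB.VO
import Pool.Agent.Q298.GB.No
import Pool.Agent.Q298.GB.Nm
import Pool.Agent.Q298.GB.Co
import Pool.Agent.Q298.GB.Low
import Pool.Agent.Q298.GB.Nrh
import Pool.Agent.Q151.GB.Eul2
import Pool.Agent.Q66.GB.Gam
import Pool.Agent.Q151.GB.Grw
import Pool.Agent.Q182.GB.Slw
import Pool.Agent.Q237.BD.Inv
import Pool.Agent.Q202.BD.Asm
import Pool.Agent.Q238.BD.Gev
import Pool.Agent.Q202.BD.Leg
import Pool.Agent.Q177.BD.Cost
import Pool.Agent.Q210.BD.Loc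

set_option autoImplicit false

/-!
# Project GB: assembly of the jobs
-/

namespace Pool.Agent.Q286.GB

theorem car : S_CAR := Q190.GB.t_CAR
theorem pos : S_POS := Q190.GB.t_POS
theorem fb : S_FB := Q211.GB.t_FB car pos
theorem far : S_FAR := Q211.GB.t_FAR pos fb
theorem ld : S_LD := Q211.GB.t_LD car pos fb far
theorem mono : S_MONO := Q252.GB.t_MONO pos
theorem ratio : S_RATIO := Q211.GB.t_RATIO far ld mono
theorem lowb : S_LOWB := Q211.GB.t_LOWB far ld mono
theorem upl : S_UPL := Q211.GB.t_UPL far ld mono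
theorem hh : S_HH := t_HH car pos fb
theorem cnt : S_CNT := Q252.GB.t_CNT pos fb
theorem per : S_PER := Q252.GB.t_PER
theorem prh : S_PRH := Q211.GB.t_PRH per lowb fb
theorem dec : S_DEC := Q211.GB.t_DEC ratio lowb upl prh hh
theorem lim : S_LIM := Q66.GB.t_LIM Q237.BD.inv prh ratio lowb upl
theorem up : S_UP := Q174.GB.t_UP dec lim Q202.BD.asm (Q177.BD.cost Q238.BD.gev Q202.BD.leg) Q210.BD.loc cnt upl
theorem pl : S_PL := Q151.GB.t_PL
theorem vo : S_VO := Q151.GB.t_VO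
theorem no : S_NO := Q298.GB.t_NO vo
theorem nm : S_NM := Q298.GB.t_NM
theorem co : S_CO := Q298.GB.t_CO
theorem low : S_LOW := Q298.GB.t_LOW Q202.BD.leg no nm co
theorem nrh : S_NRH := Q298.GB.t_NRH
theorem eul : S_EUL := Q151.GB.t_EUL
theorem gamm : S_GAM := Q66.GB.t_GAM
theorem grw : S_GRW := Q151.GB.t_GRW
theorem slw : S_SLW := Q182.GB.t_SLW grw
theorem obj : S_OBJ := Q182.GB.t_OBJ gamm grw slw

/-- everything -/
theorem facts : Facts := ⟨eul, obj, up, pl, cnt, low, nrh⟩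

end Pool.Agent.Q286.GB
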