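import Pool.Agent.Q286.GB.Fin
import Pool.Agent.Q286.GB.Stm2

set_option autoImplicit false

/-!
# Project GB: from Euler products to objects; uniqueness of the coefficients; transfer of multiplicities
-/

namespace Pool.Agent.Q286.GB

open Complex MeasureTheory Filter Topology Set
open scoped ComplexConjugate ENNReal
open Pool.Agent.Q286.BD (cl Lam ML Lap Wt V Fm Pl)

/-- `lam` is the sequence of the coefficients of `L`: `lam 0 = 0` and `L s = ∑ lam n n^(-s)` for `Re s ≥ 2`. -/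
def IsCo (L : ℂ → ℂ) (lam : ℕ → ℂ) : Prop :=
  lam 0 = 0 ∧ ∀ s : ℂ, 2 ≤ s.re → HasSum (fun n : ℕ => lam n * (n : ℂ) ^ (-s)) (L s)

lemma term_eq {f : ℕ → ℂ} (h0 : f 0 = 0) (s : ℂ) : LSeries.term f s = fun n : ℕ => f n * (n : ℂ) ^ (-s) := by
  funext n
  rw [LSeries.term_def]
  split_ifs with h
  · rw [h, h0, zero_mul]
  · rw [Complex.cpow_neg, div_eq_mul_inv]

lemma IsCo.summable {L : ℂ → ℂ} {lam : ℕ → ℂ} (h : IsCo L lam) {s : ℂ} (hs : 2 ≤ s.re) : LSeriesSummable lam s := by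
  unfold LSeriesSummable
  rw [term_eq h.1]
  exact (h.2 s hs).summable

lemma IsCo.abs_lt {L : ℂ → ℂ} {lam : ℕ → ℂ} (h : IsCo L lam) : LSeries.abscissaOfAbsConv lam < ⊤ := by
  have h1 := (h.summable (s := 2) (by norm_num)).abscissaOfAbsConv_le
  refine lt_of_le_of_lt h1 ?_
  exact EReal.coe_lt_top _

lemma IsCo.series {L : ℂ → ℂ} {lam : ℕ → ℂ} (h : IsCo L lam) {s : ℂ} (hs : 2 ≤ s.re) : LSeries lam s = L s := by
  unfold LSeries
  rw [term_eq h.1]
  exact (h.2 s hs).tsum_eq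

theorem IsCo.unique {L : ℂ → ℂ} {f g : ℕ → ℂ} (hf : IsCo L f) (hg : IsCo L g) : f = g := by
  have h1 : (fun x : ℝ => LSeries f x) =ᶠ[atTop] fun x : ℝ => LSeries g x := by
    filter_upwards [eventually_ge_atTop (2 : ℝ)] with x hx
    rw [hf.series (by simpa using hx), hg.series (by simpa using hx)]
  funext n
  rcases eq_or_ne n 0 with rfl | hn
  · rw [hf.1, hg.1]
  · exact LSeries.eq_of_LSeries_eventually_eq hf.abs_lt hg.abs_lt h1 hn

lemma isCo (O : LFn) : IsCo O.L O.lam := ⟨O.lam_zero, O.ser⟩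

/-- the norm of `n^(-s)` for `Re s ≥ 2` -/
lemma norm_cpow_le (n : ℕ) {s : ℂ} (hs : 2 ≤ s.re) : ‖(n : ℂ) ^ (-s)‖ ≤ (n : ℝ) ^ (-2 : ℝ) := by
  rcases Nat.eq_zero_or_pos n with rfl | hn
  · have h1 : -s ≠ 0 := by
      intro h
      have : s.re = 0 := by
        have h2 := congrArg Complex.re h
        simpa using h2
      linarith
    rw [Nat.cast_zero, Complex.zero_cpow h1, norm_zero]
    positivity
  · rw [Complex.norm_natCast_cpow_of_pos hn, neg_re]
    exact Real.rpow_le_rpow_of_exponent_le (by exact_mod_cast hn) (by linarith)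

/-- objects from Euler products -/
theorem mk_obj (hEUL : S_EUL) (hOBJ : S_OBJ) {m : ℕ} {N : ℝ} {μ : Fin m → ℂ} {Λ : ℂ → ℂ}
    (N_pos : 0 < N) (re_lt : ∀ j, (μ j).re < 1 / 2) (entire : Differentiable ℂ Λ)
    (fe : ∃ ε : ℂ, ‖ε‖ = 1 ∧ ∀ s : ℂ, Λ s = ε * (N : ℂ) ^ (1 / 2 - s) * conj (Λ (1 - conj s)))
    (bdd : ∀ a b : ℝ, ∃ M ρ : ℝ, ∀ s : ℂ, a ≤ s.re → s.re ≤ b → ‖Λ s‖ ≤ Real.exp (M * (1 + |s.im|) ^ ρ))
    {ι : Type} {D : ℕ} {q : ι → ℕ} {β : ι → Fin D → ℂ} (hq : ∀ i, 2 ≤ q i)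
    (hsum : Summable (fun i => (q i : ℝ) ^ (-(3 / 2) : ℝ))) (hβ : ∀ i j, ‖β i j‖ ≤ Real.sqrt (q i))
    (heul : ∀ s : ℂ, 2 ≤ s.re → LL μ Λ s = ∏' i, ∏ j, (1 - β i j * (q i : ℂ) ^ (-s))⁻¹) :
    ∃ O : Obj, O.L = LL μ Λ ∧ O.X = fun s => (N : ℂ) ^ (s / 2) * Λ s := by
  obtain ⟨lam, mu, h0, h1, h2, h3, h4, h5, h6⟩ := hEUL ι D q β hq hsum hβ
  have hser : ∀ s : ℂ, 2 ≤ s.re → HasSum (fun n : ℕ => lam n * (n : ℂ) ^ (-s)) (LL μ Λ s) := fun s hs => by
    rw [heul s hs]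
    exact h6 s hs
  have hstd : Std N μ Λ := by
    refine ⟨N_pos, re_lt, entire, fe, bdd, ∑' n : ℕ, ‖lam n‖ * (n : ℝ) ^ (-2 : ℝ), fun s hs => ?_⟩
    rw [← (hser s hs).tsum_eq]
    refine tsum_of_norm_bounded h3.hasSum fun n => ?_
    rw [norm_mul]
    exact mul_le_mul_of_nonneg_left (norm_cpow_le n hs) (norm_nonneg _)
  obtain ⟨O, hL, _, _, hX⟩ := hOBJ m N μ Λ hstd lam mu h0 h1 h2 h3 h4 h5 hser
  exact ⟨O, hL, hX⟩

/-- the zeros of `L` in the half-plane `Re s ≥ 1/2` are those of `X` -/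
lemma L_zero_iff (O : Obj) {s : ℂ} (hs : 1 / 2 - O.η < s.re) : O.L s = 0 ↔ O.X s = 0 := by
  rw [O.eq s hs]
  constructor
  · intro h
    rw [h, mul_zero]
  · intro h
    exact (mul_eq_zero.1 h).resolve_left (O.γ_ne s hs)

/-- the Riemann hypothesis in terms of the completed function -/
theorem rh_iff (O : Obj) : RH O.toLFn ↔ ∀ s : ℂ, O.X s = 0 → s.re = 1 / 2 := by
  have hη := O.η_pos
  constructor
  · intro h s hs
    by_contra hne
    rcases lt_or_gt_of_ne hne with h1 | h1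
    · obtain ⟨ε, hε, hfe⟩ := O.fe
      have h2 : O.X (1 - conj s) = 0 := by
        have h3 := hfe s
        rw [hs] at h3
        have h4 : conj (O.X (1 - conj s)) = 0 := by
          rcases mul_eq_zero.1 h3.symm with h5 | h5
          · exfalso
            rw [h5, norm_zero] at hε
            exact zero_ne_one hε
          · exact h5
        have h6 := congrArg conj h4
        rwa [Complex.conj_conj, map_zero] at h6
      have h3 : 1 / 2 < (1 - conj s).re := by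
        rw [sub_re, one_re, conj_re]
        linarith
      exact h _ h3 ((L_zero_iff O (by linarith)).2 h2)
    · exact h s h1 ((L_zero_iff O (by linarith)).2 hs)
  · intro h s hs h0
    have := h s ((L_zero_iff O (by linarith)).1 h0)
    linarith

/-- multiplicities -/
theorem mz_eq (O : Obj) (g : ℝ) : mz O.toLFn g = analyticOrderNatAt O.X (cl g) := by
  have hη := O.η_pos
  have hre : (cl g).re = 1 / 2 := by simp [cl]
  have hopen : IsOpen {s : ℂ | 1 / 2 - O.η < s.re} := isOpen_lt continuous_const Complex.continuous_re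
  have hmem : {s : ℂ | 1 / 2 - O.η < s.re} ∈ 𝓝 (cl g) := hopen.mem_nhds (by
    show 1 / 2 - O.η < (cl g).re
    rw [hre]
    linarith)
  have hγ : AnalyticAt ℂ O.γ (cl g) := by
    refine DifferentiableOn.analyticAt (s := {s : ℂ | 1 / 2 - O.η < s.re}) (fun s hs => ?_) hmem
    exact (O.γ_diff s hs).differentiableWithinAt
  have hL : AnalyticAt ℂ O.L (cl g) := O.entire.analyticAt _
  have heq : O.X =ᶠ[𝓝 (cl g)] fun s => O.γ s * O.L s := by
    filter_upwards [hmem] with s hs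
    exact O.eq s hs
  unfold mz analyticOrderNatAt
  rw [analyticOrderAt_congr heq]
  have h1 : analyticOrderAt (fun s => O.γ s * O.L s) (cl g) = analyticOrderAt O.γ (cl g) + analyticOrderAt O.L (cl g) :=
    analyticOrderAt_mul hγ hL
  rw [h1, hγ.analyticOrderAt_eq_zero.2 (O.γ_ne _ (by rw [hre]; linarith)), zero_add]

end Pool.Agent.Q286.GB
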