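import Pool.Agent.Q286.GB.Dir
import Pool.Agent.W355.UN.Inst2
import Pool.Agent.Y690.EP
import Pool.Agent.Y772.DK.Main
import Pool.Agent.H921R2.TatePole.Dedekind

set_option autoImplicit false

/-!
# Project GB: Artin L-functions and direct sums
-/

namespace Pool.Agent.Q286.GB

open Complex MeasureTheory Filter Topology Set NumberField IsDedekindDomain
open scoped ComplexConjugate ENNReal
open Pool.Agent.W169.HF (Slow)
open H353.E (gaf)

/-- the class: `G` is an L-function with a completed function `X` -/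
def InD (G : ℂ → ℂ) : Prop :=
  ∃ (d : ℕ) (N : ℝ) (μ : Fin d → ℂ) (X : ℂ → ℂ) (f g : ArithmeticFunction ℂ), 1 ≤ N ∧ (∀ j, (μ j).re ≤ 0) ∧
    Slow X ∧ (∃ ε : ℂ, ‖ε‖ = 1 ∧ ∀ s : ℂ, X s = ε * conj (X (1 - conj s))) ∧ Dir G f g ∧
    ∃ σ : ℝ, ∀ s : ℂ, σ ≤ s.re → X s = gaf N μ s * G s

lemma gaf_eq_gam {d : ℕ} (N : ℝ) (μ : Fin d → ℂ) (s : ℂ) : gaf N μ s = gam N μ s := rfl

theorem InD.mul {G1 G2 : ℂ → ℂ} (h1 : InD G1) (h2 : InD G2) : InD (fun s => G1 s * G2 s) := by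
  obtain ⟨d1, N1, μ1, X1, f1, g1, n1, r1, s1, ⟨ε1, e1, fe1⟩, D1, σ1, q1⟩ := h1
  obtain ⟨d2, N2, μ2, X2, f2, g2, n2, r2, s2, ⟨ε2, e2, fe2⟩, D2, σ2, q2⟩ := h2
  refine ⟨d1 + d2, N1 * N2, Fin.append μ1 μ2, fun s => X1 s * X2 s, f1 * f2, g1 * g2, by nlinarith, fun j => ?_,
    Pool.Agent.W355.UN.slow_mul s1 s2, ⟨ε1 * ε2, by rw [norm_mul, e1, e2, one_mul], fun s => ?_⟩, D1.mul D2,
    max σ1 σ2, fun s hs => ?_⟩
  · refine Fin.addCases (fun i => ?_) (fun i => ?_) j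
    · rw [Fin.append_left]; exact r1 i
    · rw [Fin.append_right]; exact r2 i
  · show X1 s * X2 s = ε1 * ε2 * conj (X1 (1 - conj s) * X2 (1 - conj s))
    rw [map_mul]
    calc X1 s * X2 s = (ε1 * conj (X1 (1 - conj s))) * (ε2 * conj (X2 (1 - conj s))) := by
          rw [← fe1 s, ← fe2 s]
      _ = _ := by ring
  · show X1 s * X2 s = _
    rw [Pool.Agent.W355.UN.gaf_append (by linarith) (by linarith), q1 s ((le_max_left _ _).trans hs),
      q2 s ((le_max_right _ _).trans hs)]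
    ring

theorem InD.concl (H : Facts) {G : ℂ → ℂ} (h : InD G) :
    ∃ O : Obj, (∀ s : ℂ, 2 ≤ s.re → O.L s = G s) ∧ (∀ s : ℂ, 0 < s.re → O.L s = 0 → O.X s = 0) ∧
      Concl O.L O.lam O.X (1 / 2) := by
  obtain ⟨d, N, μ, X, f, g, hN, hμ, ⟨hX, hslow⟩, ⟨ε, hε, hfe⟩, D, σ, hσ⟩ := h
  have hN0 : 0 < N := by linarith
  have hμ' : ∀ j, (μ j).re < 1 / 2 := fun j => by linarith [hμ j]
  have hNc : (N : ℂ) ≠ 0 := by exact_mod_cast hN0.ne'
  obtain ⟨Λ, hΛ⟩ : ∃ Λ : ℂ → ℂ, Λ = fun s => (N : ℂ) ^ (-(s / 2)) * X s := ⟨_, rfl⟩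
  have hcp : Differentiable ℂ fun z : ℂ => (N : ℂ) ^ (-(z / 2)) := fun z =>
    DifferentiableAt.const_cpow (by fun_prop) (Or.inl hNc)
  have hΛd : Differentiable ℂ Λ := by rw [hΛ]; exact hcp.mul hX
  have hXΛ : (fun s => (N : ℂ) ^ (s / 2) * Λ s) = X := by
    funext s
    rw [hΛ]
    show (N : ℂ) ^ (s / 2) * ((N : ℂ) ^ (-(s / 2)) * X s) = X s
    rw [← mul_assoc, ← Complex.cpow_add _ _ hNc, add_neg_cancel, Complex.cpow_zero, one_mul]
  have hconj : ∀ w : ℂ, conj ((N : ℂ) ^ w) = (N : ℂ) ^ conj w := fun w => by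
    have harg : ((N : ℂ)).arg ≠ Real.pi := by
      rw [Complex.arg_ofReal_of_nonneg hN0.le]
      exact Real.pi_pos.ne
    rw [Complex.cpow_conj _ _ harg, Complex.conj_ofReal]
  have hLL : Differentiable ℂ (LL μ Λ) := by
    unfold LL
    refine hΛd.mul ?_
    refine Differentiable.fun_finsetProd fun j _ => ?_
    exact Complex.differentiable_Gammaℝ_inv.comp (differentiable_id.sub_const _)
  have hfar : ∀ s : ℂ, max σ 1 ≤ s.re → LL μ Λ s = G s := by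
    intro s hs
    have h1 := hσ s ((le_max_left _ _).trans hs)
    have h2 := (le_max_right _ _).trans hs
    have h0 : ∏ j, Gammaℝ (s - μ j) ≠ 0 := Finset.prod_ne_zero_iff.2 fun j _ =>
      Gammaℝ_ne_zero_of_re_pos (by rw [sub_re]; linarith [hμ j])
    unfold LL
    rw [hΛ]
    show (N : ℂ) ^ (-(s / 2)) * X s * _ = _
    rw [h1, gaf_eq_gam, Finset.prod_inv_distrib]
    unfold gam
    have h3 : (N : ℂ) ^ (-(s / 2)) * (N : ℂ) ^ (s / 2) = 1 := by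
      rw [← Complex.cpow_add _ _ hNc, neg_add_cancel, Complex.cpow_zero]
    calc (N : ℂ) ^ (-(s / 2)) * ((N : ℂ) ^ (s / 2) * (∏ j, Gammaℝ (s - μ j)) * G s) * (∏ j, Gammaℝ (s - μ j))⁻¹ =
        ((N : ℂ) ^ (-(s / 2)) * (N : ℂ) ^ (s / 2)) * ((∏ j, Gammaℝ (s - μ j)) * (∏ j, Gammaℝ (s - μ j))⁻¹) * G s := by
          ring
      _ = G s := by rw [h3, mul_inv_cancel₀ h0, one_mul, one_mul]
  have hfe' : ∀ s : ℂ, Λ s = ε * (N : ℂ) ^ (1 / 2 - s) * conj (Λ (1 - conj s)) := by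
    intro s
    rw [hΛ]
    show (N : ℂ) ^ (-(s / 2)) * X s = ε * (N : ℂ) ^ (1 / 2 - s) * conj ((N : ℂ) ^ (-((1 - conj s) / 2)) * X (1 - conj s))
    rw [hfe s, map_mul, hconj]
    have e1 : conj (-((1 - conj s) / 2)) = -((1 - s) / 2) := by
      simp only [map_neg, map_div₀, map_sub, map_one, map_ofNat, Complex.conj_conj]
    rw [e1]
    have e2 : (N : ℂ) ^ (1 / 2 - s) * (N : ℂ) ^ (-((1 - s) / 2)) = (N : ℂ) ^ (-(s / 2)) := by
      rw [← Complex.cpow_add _ _ hNc]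
      congr 1
      ring
    rw [← e2]
    ring
  have hbd : ∀ a b : ℝ, ∃ M ρ : ℝ, ∀ s : ℂ, a ≤ s.re → s.re ≤ b → ‖Λ s‖ ≤ Real.exp (M * (1 + |s.im|) ^ ρ) := by
    intro a b
    obtain ⟨K, hK, hb⟩ := hslow 1 one_pos
    obtain ⟨A, hA⟩ : ∃ A : ℝ, A = 1 + |a| + |b| := ⟨_, rfl⟩
    have hA1 : 1 ≤ A := by rw [hA]; linarith [abs_nonneg a, abs_nonneg b]
    obtain ⟨l, hl⟩ : ∃ l : ℝ, l = |Real.log N| := ⟨_, rfl⟩
    have hl0 : 0 ≤ l := by rw [hl]; exact abs_nonneg _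
    refine ⟨l * A + K + A ^ 2, 2, fun s h1 h2 => ?_⟩
    have him := abs_nonneg s.im
    have hre : |s.re| ≤ |a| + |b| := by
      rw [abs_le]
      constructor
      · linarith [neg_abs_le a, abs_nonneg b]
      · linarith [le_abs_self b, abs_nonneg a]
    rw [Real.rpow_two]
    have hW : 1 ≤ (1 + |s.im|) ^ 2 := by nlinarith
    have hn : ‖s‖ ≤ A * (1 + |s.im|) := by
      have h5 := Complex.norm_le_abs_re_add_abs_im s
      nlinarith
    have hn2 : ‖s‖ ^ 2 ≤ A ^ 2 * (1 + |s.im|) ^ 2 := by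
      rw [← mul_pow]
      exact pow_le_pow_left₀ (norm_nonneg _) hn 2
    have h3 : ‖(N : ℂ) ^ (-(s / 2))‖ ≤ Real.exp (l * A) := by
      rw [Complex.norm_cpow_eq_rpow_re_of_pos hN0, Real.rpow_def_of_pos hN0]
      refine Real.exp_le_exp.2 ?_
      have e5 : (-(s / 2)).re = -s.re / 2 := by
        simp
        ring
      rw [e5]
      have e6 : Real.log N * (-s.re / 2) ≤ |Real.log N| * |(-s.re / 2)| := by
        rw [← abs_mul]
        exact le_abs_self _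
      refine e6.trans ?_
      rw [← hl]
      refine mul_le_mul_of_nonneg_left ?_ hl0
      rw [abs_div, abs_neg, abs_of_pos (by norm_num : (0 : ℝ) < 2)]
      linarith [abs_nonneg s.re]
    have h4 : ‖X s‖ ≤ Real.exp (K + A ^ 2 * (1 + |s.im|) ^ 2) := by
      refine (hb s).trans ?_
      rw [Real.exp_add, one_mul]
      have h5 : K ≤ Real.exp K := by linarith [Real.add_one_le_exp K]
      have h6 : Real.exp (‖s‖ ^ 2) ≤ Real.exp (A ^ 2 * (1 + |s.im|) ^ 2) := Real.exp_le_exp.2 hn2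
      exact mul_le_mul h5 h6 (Real.exp_pos _).le (Real.exp_pos _).le
    rw [hΛ]
    show ‖(N : ℂ) ^ (-(s / 2)) * X s‖ ≤ _
    rw [norm_mul]
    calc ‖(N : ℂ) ^ (-(s / 2))‖ * ‖X s‖ ≤ Real.exp (l * A) * Real.exp (K + A ^ 2 * (1 + |s.im|) ^ 2) :=
          mul_le_mul h3 h4 (norm_nonneg _) (Real.exp_pos _).le
      _ = Real.exp (l * A + (K + A ^ 2 * (1 + |s.im|) ^ 2)) := by rw [← Real.exp_add]
      _ ≤ _ := by
          refine Real.exp_le_exp.2 ?_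
          have h5 : l * A ≤ l * A * (1 + |s.im|) ^ 2 := le_mul_of_one_le_right (by positivity) hW
          have h6 : K ≤ K * (1 + |s.im|) ^ 2 := le_mul_of_one_le_right hK.le hW
          nlinarith
  obtain ⟨O, hL, hl, hOX⟩ := obj_dir H.obj hN0 hμ' hΛd ⟨ε, hε, hfe'⟩ hbd D
    (fun s hs => ll_eq hLL D ⟨_, hfar⟩ hs)
  refine ⟨O, fun s hs => ?_, fun s hs h0 => ?_, Pool.Agent.Q286.GB.concl H O⟩
  · rw [hL]
    exact ll_eq hLL D ⟨_, hfar⟩ hs
  · rw [hL] at h0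
    rw [hOX]
    have h1 : ∏ j, (Gammaℝ (s - μ j))⁻¹ ≠ 0 := Finset.prod_ne_zero_iff.2 fun j _ =>
      inv_ne_zero (Gammaℝ_ne_zero_of_re_pos (by rw [sub_re]; linarith [hμ j]))
    have h2 : Λ s = 0 := by
      rcases mul_eq_zero.1 h0 with h3 | h3
      · exact h3
      · exact absurd h3 h1
    show (N : ℂ) ^ (s / 2) * Λ s = 0
    rw [h2, mul_zero]

section
variable {K : Type} [Field K] [NumberField K]
open Pool.Agent.H921R2.TatePole (nm two_le_nm nm_summable)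

/-- Hecke L-functions of bounded completely multiplicative functions -/
theorem dir_LI (hEUL : S_EUL) (ψ : Ideal (𝓞 K) →*₀ ℂ) (hψ : ∀ 𝔞, ‖ψ 𝔞‖ ≤ 1) :
    ∃ f g : ArithmeticFunction ℂ, Dir (Pool.Agent.Y773.LI ψ) f g := by
  obtain ⟨lam, mu, l0, m0, l1, ls, ms, inv, ser⟩ := hEUL (HeightOneSpectrum (𝓞 K)) 1 (fun v => nm v)
    (fun v _ => ψ v.asIdeal) (fun v => two_le_nm v) (nm_summable (K := K) (x := 3 / 2) (by norm_num))
    (fun v _ => (hψ _).trans (by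
      rw [Real.one_le_sqrt]
      have := two_le_nm v
      exact_mod_cast (by omega : 1 ≤ nm v)))
  refine ⟨_, _, dir_of_eul l0 m0 l1 ls ms inv fun s hs => ?_⟩
  have h1 := Pool.Agent.Y690.hasProd_ideal (R := 𝓞 K)
    (g := fun 𝔞 : Ideal (𝓞 K) => ψ 𝔞 * ((Ideal.absNorm 𝔞 : ℕ) : ℂ) ^ (-s))
    ⟨by rw [show ψ ⊥ = 0 from map_zero ψ, zero_mul], by
        rw [show ψ ⊤ = 1 from by rw [← Ideal.one_eq_top, map_one], Ideal.absNorm_top, Nat.cast_one,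
          Complex.one_cpow, one_mul],
      fun I J => by
        simp only [map_mul, Nat.cast_mul]
        rw [Complex.natCast_mul_natCast_cpow]
        ring⟩
    (Pool.Agent.Y772.DK.term_summable (a := fun 𝔞 => ψ 𝔞) (map_zero _) hψ (by linarith))
  have h2 : Pool.Agent.Y773.LI ψ s = ∏' v : HeightOneSpectrum (𝓞 K), ∏ _j : Fin 1,
      (1 - ψ v.asIdeal * ((nm v : ℕ) : ℂ) ^ (-s))⁻¹ := by
    rw [show Pool.Agent.Y773.LI ψ s = ∑' 𝔞 : Ideal (𝓞 K), ψ 𝔞 * ((Ideal.absNorm 𝔞 : ℕ) : ℂ) ^ (-s) from rfl,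
      ← h1.tprod_eq]
    refine tprod_congr fun v => ?_
    rw [Fin.prod_univ_one]
    rfl
  rw [h2]
  exact ser s hs

end

end Pool.Agent.Q286.GB
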