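import Pool.Agent.Q286.GB.RowsH
import Pool.Agent.Y771.NF.FinD

set_option autoImplicit false

/-!
# The modular discriminant as an instance of the data of `Q246.HW`
-/

namespace Pool.Agent.Q286.Dl

open UpperHalfPlane hiding I
open MatrixGroups CongruenceSubgroup Filter Topology Complex
open Pool.Agent.Q246.HW (a Newform IsNewform Attached IsCompleted exists_hw uniq_hw)
open Pool.Agent.W97.TW (deltaForm)
open scoped ModularForm Pointwise ComplexConjugate

lemma le1 : (Gamma1 1 : Subgroup (GL (Fin 2) ℝ)) ≤ 𝒮ℒ := by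
  rintro _ ⟨γ, _, rfl⟩
  exact ⟨γ, rfl⟩

/-- the discriminant -/
noncomputable def F1 : CuspForm (Gamma1 1 : Subgroup (GL (Fin 2) ℝ)) ((12 : ℕ) : ℤ) where
  toFun := CuspForm.discriminant
  slash_action_eq' g hg := CuspForm.discriminant.slash_action_eq' g (le1 hg)
  holo' := CuspForm.discriminant.holo'
  zero_at_cusps' hc := CuspForm.discriminant.zero_at_cusps' (hc.mono le1)

lemma F1_apply (τ : ℍ) : F1 τ = deltaForm τ := rfl

lemma a_eq (n : ℕ) : a F1 n = (qExpansion 1 deltaForm).coeff n := rfl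

lemma real_a (n : ℕ) : conj (a F1 n) = a F1 n := by
  rw [a_eq]
  exact Complex.conj_eq_iff_im.2 (Pool.Agent.Y771.NF.delta_real n)

lemma refl_F1 (τ τ'' : ℍ) (h : (τ'' : ℂ) = -conj (τ : ℂ)) : conj (F1 τ'') = F1 τ := by
  have h1 := Pool.Agent.W97.TW.hasSum_f deltaForm τ.im_pos
  have h2 := Pool.Agent.W97.TW.hasSum_f deltaForm τ''.im_pos
  rw [ofComplex_apply] at h1 h2
  have h3 := h2.map (starRingEnd ℂ) Complex.continuous_conj
  have h4 : HasSum (fun n : ℕ => Pool.Agent.W97.TW.A deltaForm n * Complex.exp (2 * Real.pi * Complex.I * n * (τ : ℂ)))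
      (conj (deltaForm τ'')) := by
    refine h3.congr_fun fun n => ?_
    show _ = conj (_ * _)
    rw [map_mul, ← Complex.exp_conj]
    have e1 : conj (Pool.Agent.W97.TW.A deltaForm n) = Pool.Agent.W97.TW.A deltaForm n := real_a n
    rw [e1, h]
    congr 2
    simp only [map_mul, map_neg, map_ofNat, Complex.conj_I, Complex.conj_ofReal, Complex.conj_natCast, Complex.conj_conj]
    ring
  exact h4.unique h1

lemma one_app (x : ZMod 1) : (1 : DirichletCharacter ℂ 1) x = 1 :=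
  MulChar.one_apply (isUnit_of_subsingleton x)

theorem isNewform : IsNewform 1 12 1 F1 where
  neb γ _ τ := by
    have h1 := SlashInvariantForm.slash_action_eqn_SL'' (Γ := Gamma0 1) deltaForm
      (γ := γ) (by
        rw [Gamma0_mem]
        exact Subsingleton.elim _ _) τ
    rw [one_app, one_mul]
    exact h1
  one := Pool.Agent.Y771.NF.newf_delta.one
  mul := Pool.Agent.Y771.NF.newf_delta.mul
  pow p j hp := by
    have h1 := Pool.Agent.Y771.NF.newf_delta.pow p j hp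
    have hp1 : ¬ p ∣ 1 := fun hd => hp.one_lt.ne' (Nat.dvd_one.1 hd)
    rw [if_neg hp1] at h1
    rw [one_app, one_mul, a_eq, a_eq, a_eq, a_eq, h1]
    norm_num
  real n _ := by
    rw [one_app, map_one, one_mul]
    exact real_a n
  fricke := by
    refine ⟨1, by simp, fun τ τ' τ'' h h2 => ?_⟩
    have h1 := Pool.Agent.Y771.NF.newf_delta.fricke τ τ' h
    have e3 : (((Real.sqrt ((1 : ℕ) : ℝ) : ℝ) : ℂ) * (τ : ℂ) / Complex.I) ^ (12 : ℤ) = (τ : ℂ) ^ (12 : ℤ) := by
      rw [Nat.cast_one, Real.sqrt_one, Complex.ofReal_one, one_mul, div_zpow]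
      have : Complex.I ^ (12 : ℤ) = 1 := by
        rw [show (12 : ℤ) = ((12 : ℕ) : ℤ) by norm_num, zpow_natCast, show (12 : ℕ) = 4 * 3 by norm_num, pow_mul,
          Complex.I_pow_four, one_pow]
      rw [this, div_one]
    have e4 : ((Real.sqrt ((1 : ℕ) : ℝ) : ℝ) : ℂ) * (τ : ℂ) = τ := by
      rw [Nat.cast_one, Real.sqrt_one, Complex.ofReal_one, one_mul]
    rw [e3] at h1
    have e6 : (τ : ℂ) ^ (12 : ℤ) = (τ : ℂ) ^ 12 := by
      rw [show (12 : ℤ) = ((12 : ℕ) : ℤ) by norm_num, zpow_natCast]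
    rw [e6] at h1
    rw [refl_F1 τ τ'' h2, F1_apply, F1_apply, h1, e4]
    push_cast
    ring

/-- the newform -/
noncomputable def gD : Newform where
  N := 1
  k := 12
  N_pos := le_rfl
  k_pos := by norm_num
  ψ := 1
  f := F1
  isNewform := isNewform

lemma twist_gD : gD.twist 11 = 0 := rfl

/-- the local roots -/
theorem exR : ∃ R : ℕ → ℕ → Multiset ℂ, Attached 1 11 R [gD] ∧
    ∀ p : ℕ, ∃ u v : ℂ, u + v = a F1 p ∧ u * v = (p : ℂ) ^ 11 ∧ R p 11 = {u, v} := by
  choose u v huv hprod using fun p : ℕ => Pool.Agent.TH839.NA.exists_roots (a F1 p) ((p : ℂ) ^ 11)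
  refine ⟨fun p _ => {u p, v p}, ⟨by simp, fun g hg => ?_, fun g hg p hp hd => ?_, fun p hp _ T => ?_⟩,
    fun p => ⟨u p, v p, huv p, hprod p, rfl⟩⟩
  · rw [List.mem_singleton] at hg
    subst hg
    exact ⟨le_rfl, by show 2 ∣ 11 + 1 - 12; norm_num⟩
  · rw [List.mem_singleton] at hg
    subst hg
    exact hd
  · simp only [List.map_cons, List.map_nil, List.prod_cons, List.prod_nil, mul_one, Multiset.insert_eq_cons,
      Multiset.map_cons, Multiset.map_singleton, Multiset.prod_cons, Multiset.prod_singleton]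
    show (1 - u p * T) * (1 - v p * T) = 1 - a F1 p * (p : ℂ) ^ gD.twist 11 * T + (1 : DirichletCharacter ℂ 1) (p : ZMod 1) *
      (p : ℂ) ^ 11 * T ^ 2
    rw [one_app, twist_gD, pow_zero, mul_one, one_mul, ← huv, ← hprod]
    ring

/-! ### the completed L-function -/

/-- `Δ(i y)` -/
noncomputable def delta (y : ℝ) : ℝ :=
  Real.exp (-2 * Real.pi * y) * ∏' n : ℕ, (1 - Real.exp (-2 * Real.pi * ((n : ℝ) + 1) * y)) ^ 24

/-- `Λ(s)` -/
noncomputable def Lam (s : ℂ) : ℂ := mellin (fun y : ℝ => ((delta y : ℝ) : ℂ)) s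

/-- `L(s, Δ)` -/
noncomputable def LD (s : ℂ) : ℂ := ((2 * Real.pi : ℝ) : ℂ) ^ s * Lam s / Complex.Gamma s

lemma Lam_eq (s : ℂ) : Pool.Agent.Y771.NF.Lam (N := 1) (k := 12) deltaForm s = Lam s := by
  rw [Pool.Agent.Y771.NF.Lam_delta]
  rfl

lemma Lam_diff : Differentiable ℂ Lam := by
  have h := Pool.Agent.Y771.NF.Lam_diff (N := 1) (k := 12) (by norm_num) Pool.Agent.Y771.NF.newf_delta
  have e : Pool.Agent.Y771.NF.Lam (N := 1) (k := 12) deltaForm = Lam := funext Lam_eq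
  rwa [e] at h

lemma two_pi_ne : ((2 * Real.pi : ℝ) : ℂ) ≠ 0 := by exact_mod_cast (by positivity : (2 * Real.pi : ℝ) ≠ 0)

lemma LD_diff : Differentiable ℂ LD := by
  have h : LD = fun s => ((2 * Real.pi : ℝ) : ℂ) ^ s * Lam s * (Complex.Gamma s)⁻¹ := by
    funext s
    unfold LD
    rw [div_eq_mul_inv]
  rw [h]
  have h1 : Differentiable ℂ fun s : ℂ => ((2 * Real.pi : ℝ) : ℂ) ^ s :=
    fun z => DifferentiableAt.const_cpow differentiableAt_id (Or.inl two_pi_ne)
  exact (h1.mul Lam_diff).mul Complex.differentiable_one_div_Gamma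

lemma Lam_ser (s : ℂ) (hs : 7 < s.re) : Lam s = (((2 * Real.pi : ℝ)) : ℂ) ^ (-s) * Complex.Gamma s *
    ∑' n : ℕ, a F1 (n + 1) * ((n + 1 : ℕ) : ℂ) ^ (-s) := by
  have h := Pool.Agent.Y771.NF.Lam_ser (N := 1) (k := 12) (by norm_num) Pool.Agent.Y771.NF.newf_delta s (by
    norm_num
    linarith)
  rw [Lam_eq] at h
  rw [h]
  have e : ((Real.sqrt ((1 : ℕ) : ℝ) / (2 * Real.pi) : ℝ) : ℂ) ^ s = (((2 * Real.pi : ℝ)) : ℂ) ^ (-s) := by
    rw [Nat.cast_one, Real.sqrt_one, one_div]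
    exact Pool.Agent.Y771.NF.cpow_inv' (by positivity) s
  rw [e]
  rfl

end Pool.Agent.Q286.Dl
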