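import Pool.Agent.Q286.GB.Del

set_option autoImplicit false

/-!
# The modular discriminant: the L-function and the distances
-/

namespace Pool.Agent.Q286.Dl

open UpperHalfPlane hiding I
open MatrixGroups CongruenceSubgroup Filter Topology Complex
open Pool.Agent.Q246.HW (a Newform IsNewform Attached IsCompleted exists_hw uniq_hw)
open Pool.Agent.Q246.NC (nco)
open Pool.Agent.W97.TW (deltaForm)
open scoped ModularForm Pointwise ComplexConjugate

lemma a_zero : a F1 0 = 0 := Pool.Agent.W97.TW.A_zero deltaForm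

lemma nco_eqD (n : ℕ) (s : ℂ) : nco gD.f n * (n : ℂ) ^ (-s) = a F1 n * (n : ℂ) ^ (-(s + 11 / 2)) := by
  rcases Nat.eq_zero_or_pos n with rfl | hn
  · have h0 : nco gD.f 0 = 0 := (Pool.Agent.Q286.TR.frmG gD).zero
    rw [h0, a_zero, zero_mul, zero_mul]
  · have hn0 : (n : ℂ) ≠ 0 := by exact_mod_cast hn.ne'
    unfold nco
    show a F1 n * _ * _ = _
    have e : (((n : ℝ) ^ (-(((((gD.k : ℕ) : ℝ)) - 1) / 2)) : ℝ) : ℂ) = (n : ℂ) ^ (-(11 / 2) : ℂ) := by
      rw [Complex.ofReal_cpow (Nat.cast_nonneg n)]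
      show (((n : ℝ)) : ℂ) ^ (((-((((12 : ℕ) : ℝ) - 1) / 2)) : ℝ) : ℂ) = _
      rw [Complex.ofReal_natCast]
      congr 1
      push_cast
      norm_num
    have e2 : (n : ℂ) ^ (-(11 / 2) : ℂ) * (n : ℂ) ^ (-s) = (n : ℂ) ^ (-(s + 11 / 2)) := by
      rw [← Complex.cpow_add _ _ hn0]
      congr 1
      ring
    rw [mul_assoc, ← e2]
    first
      | (rw [← e]; rfl)
      | (rw [e])

lemma sum_a {s : ℂ} (hs : 13 / 2 < s.re) : Summable fun n : ℕ => a F1 n * (n : ℂ) ^ (-s) := by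
  have h1 := (Pool.Agent.Q246.NC.frm_summable (Pool.Agent.Q286.TR.frmG gD) (s := s - 11 / 2) (by
    rw [sub_re]
    norm_num
    linarith)).of_norm
  refine h1.congr fun n => ?_
  rw [nco_eqD, sub_add_cancel]

variable {R : ℕ → ℕ → Multiset ℂ} {F Λ : ℂ → ℂ}

lemma F_ser (h : Attached 1 11 R [gD]) (hc : IsCompleted 1 11 R [gD] F Λ) {s : ℂ} (hs : 13 / 2 < s.re) :
    HasSum (fun n : ℕ => a F1 n * (n : ℂ) ^ (-s)) (F s) := by
  have h1 := Pool.Agent.Q286.GB.hF_eq h hc (s := s - 11 / 2) (by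
    rw [sub_re]
    norm_num
    linarith)
  have e1 : s - 11 / 2 + ((11 : ℕ) : ℂ) / 2 = s := by push_cast; ring
  rw [e1] at h1
  simp only [List.map_cons, List.map_nil, List.prod_cons, List.prod_nil, mul_one] at h1
  rw [h1, Pool.Agent.Q286.TR.lser_nco]
  have e2 : (fun n : ℕ => nco gD.f n * (n : ℂ) ^ (-(s - 11 / 2))) = fun n : ℕ => a F1 n * (n : ℂ) ^ (-s) := by
    funext n
    rw [nco_eqD, sub_add_cancel]
  rw [e2]
  exact (sum_a hs).hasSum

lemma Lam_F (h : Attached 1 11 R [gD]) (hc : IsCompleted 1 11 R [gD] F Λ) {s : ℂ} (hs : 7 < s.re) :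
    Lam s = (((2 * Real.pi : ℝ)) : ℂ) ^ (-s) * Complex.Gamma s * F s := by
  have h1 := F_ser h hc (s := s) (by linarith)
  rw [Lam_ser s hs]
  congr 1
  have h2 := h1.summable.tsum_eq_zero_add
  rw [h1.tsum_eq, a_zero, zero_mul, zero_add] at h2
  exact h2.symm

theorem Lam_hw (h : Attached 1 11 R [gD]) (hc : IsCompleted 1 11 R [gD] F Λ) : Λ = fun s => 2 * Lam s := by
  refine Pool.Agent.W355.UN.Pk.uniq (G := Λ) (Lam_diff.const_mul 2) hc.entire ⟨8, fun s hs => ?_⟩ ⟨0, fun s _ => rfl⟩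
  rw [hc.eq s (by norm_num; linarith)]
  simp only [List.map_cons, List.map_nil, List.prod_cons, List.prod_nil, mul_one]
  show 2 * Lam s = (((1 : ℕ)) : ℂ) ^ (s / 2) * Gammaℂ (s - ((gD.twist 11 : ℕ) : ℂ)) * F s
  rw [Lam_F h hc (by linarith), twist_gD, Nat.cast_one, Complex.one_cpow, one_mul, Nat.cast_zero, sub_zero, Complex.Gammaℂ_def]
  push_cast
  ring

theorem F_hw (h : Attached 1 11 R [gD]) (hc : IsCompleted 1 11 R [gD] F Λ) : F = LD := by
  refine Pool.Agent.W355.UN.Pk.uniq (G := F) LD_diff hc.entire_F ⟨8, fun s hs => ?_⟩ ⟨0, fun s _ => rfl⟩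
  unfold LD
  have hG : Complex.Gamma s ≠ 0 := Complex.Gamma_ne_zero_of_re_pos (by linarith)
  rw [Lam_F h hc (by linarith)]
  have e : ((2 * Real.pi : ℝ) : ℂ) ^ s * ((2 * Real.pi : ℝ) : ℂ) ^ (-s) = 1 := by
    rw [← Complex.cpow_add _ _ two_pi_ne, add_neg_cancel, Complex.cpow_zero]
  rw [div_eq_iff hG]
  linear_combination (Complex.Gamma s * F s) * e

/-- the Dirichlet series -/
theorem LD_ser {s : ℂ} (hs : 13 / 2 < s.re) : HasSum (fun n : ℕ => a F1 n * (n : ℂ) ^ (-s)) (LD s) := by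
  obtain ⟨R, hR, -⟩ := exR
  obtain ⟨c, Λ₀, F, -, -, hc⟩ := exists_hw hR
  rw [← F_hw hR hc]
  exact F_ser hR hc hs

open Pool.Agent.Q286.GB

theorem concl_const {L : ℂ → ℂ} {lam : ℕ → ℂ} {X X' : ℂ → ℂ} {c : ℝ} {w : ℂ} (hw : w ≠ 0) (h : Concl L lam X c)
    (hd : Differentiable ℂ X') (hX : X = fun s => w * X' s) : Concl L lam X' c := by
  have hz : ∀ s : ℂ, X s = 0 ↔ X' s = 0 := fun s => by
    rw [hX]
    simp [hw]
  have hrh : (∀ s : ℂ, X s = 0 → s.re = c) ↔ ∀ s : ℂ, X' s = 0 → s.re = c :=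
    forall_congr' fun s => by rw [hz]
  have hB : BB X c = BB X' c := BB_congr (fun g => hz _) fun g => by
    rw [hX]
    unfold analyticOrderNatAt
    have h2 : analyticOrderAt (fun s => w * X' s) ((c : ℂ) + g * I) =
        analyticOrderAt (fun _ : ℂ => w) ((c : ℂ) + g * I) + analyticOrderAt X' ((c : ℂ) + g * I) :=
      analyticOrderAt_mul analyticAt_const (hd.analyticAt _)
    rw [h2, (analyticAt_const (v := w)).analyticOrderAt_eq_zero.2 hw, zero_add]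
  exact ⟨h.le, hB ▸ h.low, fun h' => hB ▸ h.rh (hrh.2 h'), fun h' => h.nrh fun h'' => h' (hrh.1 h''),
    hrh.symm.trans h.iff_d, hrh.symm.trans h.iff_e⟩

lemma pow_cpow (n : ℕ) : (((n : ℝ) ^ ((11 : ℝ) / 2) : ℝ) : ℂ) = (n : ℂ) ^ ((11 : ℂ) / 2) := by
  rw [Complex.ofReal_cpow (Nat.cast_nonneg n)]
  push_cast
  rfl

/-- the distance formula -/
theorem conclD : Concl LD (fun n => a F1 n / (((n : ℝ) ^ ((11 : ℝ) / 2) : ℝ) : ℂ)) Lam 6 := by
  obtain ⟨R, hR, -⟩ := exR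
  obtain ⟨c, Λ₀, F, -, -, hc⟩ := exists_hw hR
  obtain ⟨O, hO, H⟩ := exHD facts hR hc
  have hF := F_hw hR hc
  have hcoef : IsCo O.L (fun n => a F1 n / (((n : ℝ) ^ ((11 : ℝ) / 2) : ℝ) : ℂ)) := by
    refine ⟨by beta_reduce; rw [a_zero, zero_div], fun s hs => ?_⟩
    have hre : 13 / 2 < (s + 11 / 2).re := by
      rw [add_re]
      norm_num
      linarith
    rw [hO, hF]
    have e1 : s + ((11 : ℕ) : ℂ) / 2 = s + 11 / 2 := by push_cast; ring
    rw [e1]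
    refine (LD_ser hre).congr_fun fun n => ?_
    rcases Nat.eq_zero_or_pos n with rfl | hn
    · simp [a_zero]
    · have hn0 : (n : ℂ) ≠ 0 := by exact_mod_cast hn.ne'
      beta_reduce
      rw [pow_cpow, div_eq_mul_inv, ← Complex.cpow_neg, mul_assoc, ← Complex.cpow_add _ _ hn0]
      congr 2
      ring
  have hlam : O.lam = fun n => a F1 n / (((n : ℝ) ^ ((11 : ℝ) / 2) : ℝ) : ℂ) := (isCo O.toLFn).unique hcoef
  rw [hlam, hF] at H
  have e2 : (1 : ℝ) / 2 + ((11 : ℕ) : ℝ) / 2 = 6 := by norm_num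
  rw [e2] at H
  exact concl_const two_ne_zero H Lam_diff (Lam_hw hR hc)

end Pool.Agent.Q286.Dl
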