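import Pool.Agent.Q286.GB.Del2

set_option autoImplicit false

/-!
# Ramanujan's function `τ`
-/

namespace Pool.Agent.Q286.Dl

open UpperHalfPlane hiding I
open MatrixGroups CongruenceSubgroup Filter Topology Complex
open Pool.Agent.Q246.HW (a)
open Pool.Agent.W97.TW (deltaForm)
open scoped ModularForm Pointwise ComplexConjugate

/-- `τ` is the sequence of the coefficients of `x ∏ (1 - x^m)^24`. -/
def IsTau (τ : ℕ → ℝ) : Prop :=
  ∀ x : ℝ, 0 < x → x < 1 → HasSum (fun n : ℕ => τ n * x ^ n) (x * ∏' m : ℕ, (1 - x ^ (m + 1)) ^ 24)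

lemma a_re (n : ℕ) : (((a F1 n).re : ℝ) : ℂ) = a F1 n :=
  Complex.conj_eq_iff_re.1 (real_a n)

theorem isTau_a : IsTau fun n => (a F1 n).re := by
  intro x hx hx1
  obtain ⟨y, hy⟩ : ∃ y : ℝ, y = -Real.log x / (2 * Real.pi) := ⟨_, rfl⟩
  have hpi := Real.pi_pos
  have hlog : Real.log x < 0 := Real.log_neg hx hx1
  have hy0 : 0 < y := by
    rw [hy]
    have : 0 < -Real.log x := by linarith
    positivity
  have hexp : ∀ c : ℝ, Real.exp (-(2 * Real.pi * c * y)) = x ^ c := by
    intro c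
    rw [Real.rpow_def_of_pos hx, hy]
    congr 1
    field_simp
  have h1 := Complex.hasSum_re (Pool.Agent.Y771.NF.sum_iy deltaForm hy0)
  have h2 : (deltaForm (ofComplex (Complex.I * ((y / Real.sqrt ((1 : ℕ) : ℝ) : ℝ) : ℂ)))).re = delta y := by
    rw [Nat.cast_one, Real.sqrt_one, div_one]
    have h3 := Pool.Agent.H128R3.JD.DelK.Dl_eq hy0
    have h4 : deltaForm (ofComplex (Complex.I * (y : ℂ))) = ModularForm.discriminant (ofComplex (Complex.I * y)) := rfl
    rw [h4, ← h3, Complex.ofReal_re]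
    rfl
  have h5 : delta y = x * ∏' m : ℕ, (1 - x ^ (m + 1)) ^ 24 := by
    unfold delta
    have e1 : Real.exp (-2 * Real.pi * y) = x := by
      have := hexp 1
      rw [Real.rpow_one] at this
      rw [← this]
      congr 1
      ring
    have e2 : ∀ m : ℕ, Real.exp (-2 * Real.pi * ((m : ℝ) + 1) * y) = x ^ (m + 1) := by
      intro m
      have := hexp ((m : ℝ) + 1)
      rw [← Real.rpow_natCast]
      push_cast
      rw [← this]
      congr 1
      ring
    rw [e1]
    simp only [e2]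
  rw [h2, h5] at h1
  refine h1.congr_fun fun n => ?_
  rw [Complex.re_mul_ofReal]
  have e3 : Real.exp (-(2 * Real.pi * (n : ℝ) * y / Real.sqrt ((1 : ℕ) : ℝ))) = x ^ n := by
    rw [Nat.cast_one, Real.sqrt_one, div_one, hexp, Real.rpow_natCast]
  rw [e3]
  rfl

theorem isTau_iff (τ : ℕ → ℝ) : IsTau τ ↔ τ = fun n => (a F1 n).re := by
  constructor
  · intro h
    funext n
    have h1 := Pool.Agent.Y771.NF.coeff_zero_of (c := fun n => τ n - (a F1 n).re) (fun r hr hr1 => by
      have h2 := (h r hr hr1).sub (isTau_a r hr hr1)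
      rw [sub_self] at h2
      refine h2.congr_fun fun n => ?_
      ring) n
    linarith
  · rintro rfl
    exact isTau_a

theorem existsUnique_tau : ∃! τ : ℕ → ℝ, IsTau τ :=
  ⟨_, isTau_a, fun τ h => (isTau_iff τ).1 h⟩

theorem tau_eq {τ : ℕ → ℝ} (h : IsTau τ) (n : ℕ) : (τ n : ℂ) = a F1 n := by
  rw [(isTau_iff τ).1 h]
  exact a_re n

lemma delta_pos {y : ℝ} (hy : 0 < y) : 0 < delta y := Pool.Agent.H128R3.JD.DelK.Dl_pos hy

/-- the order of zero -/
lemma order_Xi (z : ℂ) : analyticOrderNatAt (fun z => Lam (6 + Complex.I * z)) z = analyticOrderNatAt Lam (6 + Complex.I * z) := by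
  have h0 : AnalyticAt ℂ (fun z : ℂ => 6 + Complex.I * z) z := by fun_prop
  have h1 : analyticOrderAt (Lam ∘ fun z : ℂ => 6 + Complex.I * z) z = analyticOrderAt Lam (6 + Complex.I * z) := by
    refine analyticOrderAt_comp_of_deriv_ne_zero h0 ?_
    have : deriv (fun z : ℂ => 6 + Complex.I * z) z = Complex.I := by
      have h2 : HasDerivAt (fun z : ℂ => 6 + Complex.I * z) (Complex.I * 1) z :=
        ((hasDerivAt_id z).const_mul Complex.I).const_add 6
      rw [h2.deriv, mul_one]
    rw [this]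
    exact Complex.I_ne_zero
  unfold analyticOrderNatAt
  exact congrArg ENat.toNat h1

end Pool.Agent.Q286.Dl
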