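import Pool.Agent.Q286.GB.Stm2
import Pool.Agent.W355.UN.Stm

set_option autoImplicit false

/-!
# Project GB: Dirichlet series with an inverse
-/

namespace Pool.Agent.Q286.GB

open Complex

/-- For `Re s ≥ 2`, `G s = ∑ f n n^(-s)` with `∑ ‖f n‖ n^(-2) < ∞`, and `f` has the Dirichlet inverse `g` with
`∑ ‖g n‖ n^(-2) < ∞`. -/
structure Dir (G : ℂ → ℂ) (f g : ArithmeticFunction ℂ) : Prop where
  one : f 1 = 1
  fs : Summable (fun n : ℕ => ‖f n‖ * (n : ℝ) ^ (-2 : ℝ))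
  gs : Summable (fun n : ℕ => ‖g n‖ * (n : ℝ) ^ (-2 : ℝ))
  inv : f * g = 1
  ser : ∀ s : ℂ, 2 ≤ s.re → HasSum (fun n : ℕ => f n * (n : ℂ) ^ (-s)) (G s)

/-- JOB DCV. Proof. `f n = b n` for `n ≠ 0`, `f 0 = 0`. `g` is defined by `g 0 = 0`, `g 1 = 1` and the recursion
`g n * log n = - ∑_{d ∣ n} Λ(d) c(d) g(n/d)` (the term `d = 1` vanishes). With `D h = h * log` (pointwise; a derivation of
the ring of arithmetic functions, see `leibniz` in `Pool/Agent/W672/UN/Coef.lean`, there for real values) and `C n = Λ(n) c(n)`: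
`D f = C * f`, `D g = - C * g`, so `D (f * g) = 0`, so `(f * g) n = 0` for `n ≥ 2`, and `(f * g) 1 = 1`. Bounds:
`Pool.Agent.W672.UN.bound` (for `b, c` and for `g, -c`; `Conv` is the recursion) and `A_summable` at `s = 2`. The series
at `Re s ≥ 2` converges absolutely, and its sum is `LSeries b s` (the term `n = 0` of `LSeries` is zero by definition).  -/
def S_DCV : Prop := ∀ (m : ℕ) (b c : ℕ → ℂ), b 1 = 1 → (∀ n, ‖c n‖ ≤ m) → Pool.Agent.W355.UN.Conv b c →
  ∃ f g : ArithmeticFunction ℂ, Dir (LSeries b) f g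

end Pool.Agent.Q286.GB
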