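import Pool.Agent.Q286.GB.Rows2
import Pool.Agent.Q286.GB.Stm3

set_option autoImplicit false

/-!
# Project GB: products of Dirichlet series, and objects from them
-/

namespace Pool.Agent.Q286.GB

open Complex MeasureTheory Filter Topology Set
open scoped ComplexConjugate ENNReal

lemma wnorm (f : ℕ → ℂ) (h0 : f 0 = 0) (n : ℕ) : ‖LSeries.term f 2 n‖ = ‖f n‖ * (n : ℝ) ^ (-2 : ℝ) := by
  rw [LSeries.norm_term_eq]
  split_ifs with h
  · rw [h, h0, norm_zero, zero_mul]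
  · rw [div_eq_mul_inv, Real.rpow_neg (Nat.cast_nonneg n)]
    norm_num

lemma wsum_iff (f : ℕ → ℂ) (h0 : f 0 = 0) :
    Summable (fun n : ℕ => ‖f n‖ * (n : ℝ) ^ (-2 : ℝ)) ↔ LSeriesSummable f 2 := by
  unfold LSeriesSummable
  rw [← summable_norm_iff (f := LSeries.term f 2)]
  exact summable_congr fun n => (wnorm f h0 n).symm

lemma wsum_s {f : ℕ → ℂ} (h0 : f 0 = 0) (h : Summable (fun n : ℕ => ‖f n‖ * (n : ℝ) ^ (-2 : ℝ))) {s : ℂ}
    (hs : 2 ≤ s.re) : LSeriesSummable f s :=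
  ((wsum_iff f h0).1 h).of_re_le_re (by simpa using hs)

lemma hasSum_LSeries {f : ℕ → ℂ} (h0 : f 0 = 0) {s : ℂ} (h : LSeriesSummable f s) :
    HasSum (fun n : ℕ => f n * (n : ℂ) ^ (-s)) (LSeries f s) := by
  have h1 := h.hasSum
  rw [term_eq h0] at h1
  unfold LSeries
  rw [term_eq h0]
  exact h1

lemma Dir.eq {G : ℂ → ℂ} {f g : ArithmeticFunction ℂ} (h : Dir G f g) {s : ℂ} (hs : 2 ≤ s.re) :
    G s = LSeries f s :=
  (h.ser s hs).unique (hasSum_LSeries f.map_zero (wsum_s f.map_zero h.fs hs))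

theorem Dir.mul {G1 G2 : ℂ → ℂ} {f1 g1 f2 g2 : ArithmeticFunction ℂ} (h1 : Dir G1 f1 g1) (h2 : Dir G2 f2 g2) :
    Dir (fun s => G1 s * G2 s) (f1 * f2) (g1 * g2) := by
  have hf := fun (s : ℂ) (hs : 2 ≤ s.re) => ArithmeticFunction.LSeriesSummable_mul (wsum_s f1.map_zero h1.fs hs)
    (wsum_s f2.map_zero h2.fs hs)
  have hg := fun (s : ℂ) (hs : 2 ≤ s.re) => ArithmeticFunction.LSeriesSummable_mul (wsum_s g1.map_zero h1.gs hs)
    (wsum_s g2.map_zero h2.gs hs)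
  refine ⟨?_, ?_, ?_, ?_, fun s hs => ?_⟩
  · rw [ArithmeticFunction.mul_apply_one, h1.one, h2.one, one_mul]
  · exact (wsum_iff _ ArithmeticFunction.map_zero).2 (hf 2 (by norm_num))
  · exact (wsum_iff _ ArithmeticFunction.map_zero).2 (hg 2 (by norm_num))
  · rw [mul_mul_mul_comm, h1.inv, h2.inv, one_mul]
  · rw [h1.eq hs, h2.eq hs]
    have e := ArithmeticFunction.LSeries_mul' (wsum_s f1.map_zero h1.fs hs) (wsum_s f2.map_zero h2.fs hs)
    rw [← e]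
    exact hasSum_LSeries ArithmeticFunction.map_zero (hf s hs)

/-- from the output of `S_EUL` -/
theorem dir_of_eul {G : ℂ → ℂ} {lam mu : ℕ → ℂ} (l0 : lam 0 = 0) (m0 : mu 0 = 0) (l1 : lam 1 = 1)
    (ls : Summable (fun n : ℕ => ‖lam n‖ * (n : ℝ) ^ (-2 : ℝ))) (ms : Summable (fun n : ℕ => ‖mu n‖ * (n : ℝ) ^ (-2 : ℝ)))
    (inv : ∀ n : ℕ, 1 ≤ n → ∑ p ∈ n.divisorsAntidiagonal, lam p.1 * mu p.2 = if n = 1 then 1 else 0)
    (ser : ∀ s : ℂ, 2 ≤ s.re → HasSum (fun n : ℕ => lam n * (n : ℂ) ^ (-s)) (G s)) :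
    Dir G ⟨lam, l0⟩ ⟨mu, m0⟩ := by
  refine ⟨l1, ls, ms, ?_, ser⟩
  ext n
  rcases Nat.eq_zero_or_pos n with rfl | hn
  · simp
  · rw [ArithmeticFunction.mul_apply, ArithmeticFunction.one_apply]
    exact inv n hn

/-- the objects -/
theorem obj_dir (hOBJ : S_OBJ) {m : ℕ} {N : ℝ} {μ : Fin m → ℂ} {Λ G : ℂ → ℂ} {f g : ArithmeticFunction ℂ}
    (N_pos : 0 < N) (re_lt : ∀ j, (μ j).re < 1 / 2) (entire : Differentiable ℂ Λ)
    (fe : ∃ ε : ℂ, ‖ε‖ = 1 ∧ ∀ s : ℂ, Λ s = ε * (N : ℂ) ^ (1 / 2 - s) * conj (Λ (1 - conj s)))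
    (bdd : ∀ a b : ℝ, ∃ M ρ : ℝ, ∀ s : ℂ, a ≤ s.re → s.re ≤ b → ‖Λ s‖ ≤ Real.exp (M * (1 + |s.im|) ^ ρ))
    (h : Dir G f g) (hG : ∀ s : ℂ, 2 ≤ s.re → LL μ Λ s = G s) :
    ∃ O : Obj, O.L = LL μ Λ ∧ O.lam = f ∧ O.X = fun s => (N : ℂ) ^ (s / 2) * Λ s := by
  have hser : ∀ s : ℂ, 2 ≤ s.re → HasSum (fun n : ℕ => f n * (n : ℂ) ^ (-s)) (LL μ Λ s) := fun s hs => by
    rw [hG s hs]
    exact h.ser s hs
  have hstd : Std N μ Λ := by
    refine ⟨N_pos, re_lt, entire, fe, bdd, ∑' n : ℕ, ‖f n‖ * (n : ℝ) ^ (-2 : ℝ), fun s hs => ?_⟩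
    rw [← (hser s hs).tsum_eq]
    refine tsum_of_norm_bounded h.fs.hasSum fun n => ?_
    rw [norm_mul]
    exact mul_le_mul_of_nonneg_left (norm_cpow_le n hs) (norm_nonneg _)
  obtain ⟨O, hL, hl, _, hX⟩ := hOBJ m N μ Λ hstd f g f.map_zero g.map_zero h.one h.fs h.gs (fun n hn => by
    have h1 := congrArg (fun F : ArithmeticFunction ℂ => F n) h.inv
    simpa only [ArithmeticFunction.mul_apply, ArithmeticFunction.one_apply] using h1) hser
  exact ⟨O, hL, hl, hX⟩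

/-- analytic continuation of the identity `LL = G` from large real part to `Re s ≥ 2` -/
theorem ll_eq {m : ℕ} {μ : Fin m → ℂ} {Λ G : ℂ → ℂ} {f g : ArithmeticFunction ℂ} (entire : Differentiable ℂ (LL μ Λ))
    (h : Dir G f g) (hG : ∃ σ : ℝ, ∀ s : ℂ, σ ≤ s.re → LL μ Λ s = G s) {s : ℂ} (hs : 2 ≤ s.re) :
    LL μ Λ s = G s := by
  obtain ⟨σ, hσ⟩ := hG
  have hab : LSeries.abscissaOfAbsConv f ≤ ((2 : ℝ) : EReal) := by
    have := ((wsum_iff f f.map_zero).1 h.fs).abscissaOfAbsConv_le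
    simpa using this
  have han : AnalyticOnNhd ℂ (LSeries f) {z : ℂ | 2 < z.re} := fun z hz => by
    refine LSeries_analyticOnNhd f z ?_
    exact lt_of_le_of_lt hab (EReal.coe_lt_coe_iff.2 hz)
  have key : ∀ z : ℂ, 2 < z.re → LL μ Λ z = LSeries f z := by
    intro z hz
    have hz0 : ((max σ 2 + 1 : ℝ) : ℂ) ∈ {z : ℂ | 2 < z.re} := by
      have := le_max_right σ 2
      show 2 < (((max σ 2 + 1 : ℝ) : ℂ)).re
      rw [ofReal_re]
      linarith
    refine AnalyticOnNhd.eqOn_of_preconnected_of_eventuallyEq (fun z _ => entire.analyticAt z) han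
      (convex_halfSpace_re_gt 2).isPreconnected hz0 ?_ hz
    have h3 : ∀ᶠ z : ℂ in 𝓝 ((max σ 2 + 1 : ℝ) : ℂ), max σ 2 < z.re :=
      (Complex.continuous_re.tendsto _).eventually (lt_mem_nhds (by rw [ofReal_re]; linarith))
    filter_upwards [h3] with z hz
    rw [hσ z ((le_max_left _ _).trans hz.le), h.eq ((le_max_right _ _).trans hz.le)]
  rw [h.eq hs]
  -- continuity on the closed half-plane
  have hcont : ContinuousOn (LSeries f) {z : ℂ | 2 ≤ z.re} := by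
    have e : LSeries f = fun z => ∑' n, LSeries.term f z n := rfl
    rw [e]
    refine continuousOn_tsum (u := fun n => ‖f n‖ * (n : ℝ) ^ (-2 : ℝ)) (fun n => ?_) h.fs (fun n z hz => ?_)
    · rw [show (fun z : ℂ => LSeries.term f z n) = fun z => f n * (n : ℂ) ^ (-z) from funext fun z => congrFun (term_eq f.map_zero z) n]
      rcases Nat.eq_zero_or_pos n with rfl | hn
      · simp only [f.map_zero, zero_mul]
        exact continuousOn_const
      · have hn0 : (n : ℂ) ≠ 0 := by exact_mod_cast hn.ne'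
        exact (continuous_const.mul (continuous_neg.const_cpow (Or.inl hn0))).continuousOn
    · rw [show LSeries.term f z n = f n * (n : ℂ) ^ (-z) from congrFun (term_eq f.map_zero z) n, norm_mul]
      exact mul_le_mul_of_nonneg_left (norm_cpow_le n hz) (norm_nonneg _)
  have hlim1 : Tendsto (fun δ : ℝ => LL μ Λ (s + δ)) (𝓝[>] 0) (𝓝 (LL μ Λ s)) := by
    have h1 : Continuous fun δ : ℝ => LL μ Λ (s + δ) := entire.continuous.comp (by fun_prop)
    have h2 := (h1.tendsto 0).mono_left (nhdsWithin_le_nhds (s := Ioi (0 : ℝ)))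
    simpa using h2
  have hlim2 : Tendsto (fun δ : ℝ => LSeries f (s + δ)) (𝓝[>] 0) (𝓝 (LSeries f s)) := by
    have h1 := (hcont s hs).tendsto
    have h2 : Tendsto (fun δ : ℝ => s + (δ : ℂ)) (𝓝[>] 0) (𝓝[{z : ℂ | 2 ≤ z.re}] s) := by
      refine tendsto_nhdsWithin_iff.2 ⟨?_, ?_⟩
      · have h3 : Continuous fun δ : ℝ => s + (δ : ℂ) := by fun_prop
        have h4 := (h3.tendsto 0).mono_left (nhdsWithin_le_nhds (s := Ioi (0 : ℝ)))
        simpa using h4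
      · filter_upwards [self_mem_nhdsWithin] with δ hδ
        have hδ0 : (0 : ℝ) < δ := hδ
        show 2 ≤ (s + (δ : ℂ)).re
        rw [add_re, ofReal_re]
        linarith
    exact h1.comp h2
  refine tendsto_nhds_unique hlim1 (hlim2.congr' ?_)
  filter_upwards [self_mem_nhdsWithin] with δ hδ
  have hδ0 : (0 : ℝ) < δ := hδ
  exact (key _ (by rw [add_re, ofReal_re]; linarith)).symm

end Pool.Agent.Q286.GB
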