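import Pool.Agent.Q286.GB.Stm

set_option autoImplicit false

/-!
# Project GB: the abstract theorem
-/

namespace Pool.Agent.Q286.GB

open Complex MeasureTheory Filter Topology Set
open scoped ComplexConjugate ENNReal
open Pool.Agent.Q286.BD (cl Lam ML Lap Wt V Fm Pl)

/-- the squared distance, line form -/
noncomputable def dN (O : LFn) (N : ℕ) : ℝ≥0∞ :=
  ⨅ a : ℕ → ℂ, ENNReal.ofReal (1 / (2 * Real.pi)) * ∫⁻ t : ℝ, ENNReal.ofReal (lin O N a t)

/-- the squared distance, elementary form -/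
noncomputable def eN (O : LFn) (N : ℕ) : ℝ≥0∞ :=
  ⨅ a : ℕ → ℂ, ∫⁻ y in Ioi (1 : ℝ), ENNReal.ofReal (‖CC O N a y‖ ^ 2 / y ^ 2)

/-- the constant -/
noncomputable def Bd (O : LFn) : ℝ≥0∞ :=
  ∑' g : Z O, ENNReal.ofReal ((mz O g : ℝ) ^ 2 / (1 / 4 + (g : ℝ) ^ 2))

lemma cont_lin (O : LFn) (N : ℕ) (a : ℕ → ℂ) : Continuous (lin O N a) := by
  have hcl : Continuous cl := by unfold cl; fun_prop
  unfold lin
  have h1 : Continuous (fun t : ℝ => O.L (cl t)) := O.entire.continuous.comp hcl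
  have h2 : Continuous (fun t : ℝ => ∑ n ∈ Finset.Icc 1 N, a n * (n : ℂ) ^ (-cl t)) := by
    refine continuous_finsetSum _ fun n hn => continuous_const.mul ?_
    have hn0 : (n : ℂ) ≠ 0 := by
      have := (Finset.mem_Icc.1 hn).1
      exact_mod_cast (by omega : n ≠ 0)
    exact hcl.neg.const_cpow (Or.inl hn0)
  refine Continuous.div (((continuous_const.sub (h1.mul h2)).norm).pow 2) (by fun_prop) fun t => ?_
  positivity

lemma lin_nonneg (O : LFn) (N : ℕ) (a : ℕ → ℂ) (t : ℝ) : 0 ≤ lin O N a t := by unfold lin; positivity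

lemma meas_CC (O : LFn) (N : ℕ) (a : ℕ → ℂ) : Measurable (CC O N a) := by
  unfold CC
  refine measurable_const.sub ?_
  exact (measurable_from_nat (f := fun j => ∑ k ∈ Finset.Icc 1 j, cc O N a k)).comp Nat.measurable_floor

lemma meas_J (O : LFn) (N : ℕ) (a : ℕ → ℂ) : Measurable (fun y : ℝ => ‖CC O N a y‖ ^ 2 / y ^ 2) :=
  ((meas_CC O N a).norm.pow_const 2).div (measurable_id.pow_const 2)

lemma J_nonneg (O : LFn) (N : ℕ) (a : ℕ → ℂ) (y : ℝ) : 0 ≤ ‖CC O N a y‖ ^ 2 / y ^ 2 := by positivity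

lemma int_of_fin {μ : Measure ℝ} {f : ℝ → ℝ} (hm : Measurable f) (h0 : ∀ x, 0 ≤ f x)
    (hf : ∫⁻ x, ENNReal.ofReal (f x) ∂μ ≠ ⊤) : Integrable f μ := by
  refine ⟨hm.aestronglyMeasurable, ?_⟩
  rw [hasFiniteIntegral_iff_norm]
  have h1 : (fun a => ENNReal.ofReal ‖f a‖) = fun a => ENNReal.ofReal (f a) := by
    funext a
    rw [Real.norm_of_nonneg (h0 a)]
  rw [h1]
  exact lt_top_iff_ne_top.2 hf

theorem eN_le (hPL : S_PL) (O : LFn) (N : ℕ) : eN O N ≤ dN O N := by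
  unfold eN dN
  refine iInf_mono fun a => ?_
  have hc : ENNReal.ofReal (1 / (2 * Real.pi)) ≠ 0 := by
    rw [Ne, ENNReal.ofReal_eq_zero, not_le]
    positivity
  by_cases htop : ∫⁻ t : ℝ, ENNReal.ofReal (lin O N a t) = ⊤
  · rw [htop, ENNReal.mul_top hc]
    exact le_top
  · have hint := int_of_fin (cont_lin O N a).measurable (lin_nonneg O N a) htop
    obtain ⟨h1, h2⟩ := hPL O N a hint
    rw [← ofReal_integral_eq_lintegral_ofReal h1 (Eventually.of_forall (J_nonneg O N a)),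
      ← ofReal_integral_eq_lintegral_ofReal hint (Eventually.of_forall (lin_nonneg O N a)),
      ← ENNReal.ofReal_mul (by positivity)]
    exact ENNReal.ofReal_le_ofReal h2

/-- lower bound for one finite set of zeros -/
theorem low_fin (hLOW : S_LOW) (O : LFn) (S : Finset ℝ) (hS : ∀ g ∈ S, O.L (cl g) = 0) {η : ℝ} (hη : 0 < η) :
    ∀ᶠ N : ℕ in atTop, ENNReal.ofReal (∑ g ∈ S, (mz O g : ℝ) ^ 2 / (1 / 4 + g ^ 2) - η) ≤
      eN O N * ENNReal.ofReal (Real.log N) := by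
  filter_upwards [hLOW O S hS η hη, eventually_ge_atTop 2] with N hN hN2
  have hlog : 0 < Real.log N := Real.log_pos (by exact_mod_cast (by omega : 1 < N))
  have hc0 : ENNReal.ofReal (Real.log N) ≠ 0 := by
    rw [Ne, ENNReal.ofReal_eq_zero, not_le]
    exact hlog
  rw [← ENNReal.div_le_iff hc0 ENNReal.ofReal_ne_top]
  unfold eN
  refine le_iInf fun a => ?_
  by_cases htop : ∫⁻ y in Ioi (1 : ℝ), ENNReal.ofReal (‖CC O N a y‖ ^ 2 / y ^ 2) = ⊤
  · rw [htop]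
    exact le_top
  · have hint : IntegrableOn (fun y : ℝ => ‖CC O N a y‖ ^ 2 / y ^ 2) (Ioi 1) :=
      int_of_fin (meas_J O N a) (J_nonneg O N a) htop
    have h1 := hN a hint
    rw [ENNReal.div_le_iff hc0 ENNReal.ofReal_ne_top,
      ← ofReal_integral_eq_lintegral_ofReal hint (Eventually.of_forall (J_nonneg O N a)),
      ← ENNReal.ofReal_mul (integral_nonneg (J_nonneg O N a))]
    exact ENNReal.ofReal_le_ofReal h1

theorem low_all (hLOW : S_LOW) (O : LFn) :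
    Bd O ≤ liminf (fun N : ℕ => eN O N * ENNReal.ofReal (Real.log N)) atTop := by
  classical
  unfold Bd
  rw [ENNReal.tsum_eq_iSup_sum]
  refine iSup_le fun S => ?_
  refine ENNReal.le_of_forall_pos_le_add fun ε hε _ => ?_
  have hS : ∀ g ∈ S.image (fun g : Z O => (g : ℝ)), O.L (cl g) = 0 := by
    intro g hg
    obtain ⟨g', _, rfl⟩ := Finset.mem_image.1 hg
    exact g'.2
  have hε' : (0 : ℝ) < ε := hε
  have h1 := low_fin hLOW O _ hS hε'
  have h2 := le_liminf_of_le (by isBoundedDefault) h1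
  have h3 : ∑ g ∈ S, ENNReal.ofReal ((mz O g : ℝ) ^ 2 / (1 / 4 + (g : ℝ) ^ 2)) =
      ENNReal.ofReal (∑ g ∈ S.image (fun g : Z O => (g : ℝ)), (mz O g : ℝ) ^ 2 / (1 / 4 + g ^ 2)) := by
    rw [Finset.sum_image (fun x _ y _ h => Subtype.ext h), ENNReal.ofReal_sum_of_nonneg]
    intro i _
    positivity
  rw [h3]
  calc ENNReal.ofReal (∑ g ∈ S.image (fun g : Z O => (g : ℝ)), (mz O g : ℝ) ^ 2 / (1 / 4 + g ^ 2))
      ≤ ENNReal.ofReal ((∑ g ∈ S.image (fun g : Z O => (g : ℝ)), (mz O g : ℝ) ^ 2 / (1 / 4 + g ^ 2) - ε) + ε) := by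
        rw [sub_add_cancel]
    _ ≤ ENNReal.ofReal (∑ g ∈ S.image (fun g : Z O => (g : ℝ)), (mz O g : ℝ) ^ 2 / (1 / 4 + g ^ 2) - ε) +
        ENNReal.ofReal ε := ENNReal.ofReal_add_le
    _ ≤ _ := by
        rw [ENNReal.ofReal_coe_nnreal]
        exact add_le_add_left h2 _

/-- upper bound under the Riemann hypothesis -/
theorem up_all (hUP : S_UP) (hCNT : S_CNT) (O : Obj) (h : RH O.toLFn) :
    Bd O.toLFn ≠ ⊤ ∧ limsup (fun N : ℕ => dN O.toLFn N * ENNReal.ofReal (Real.log N)) atTop ≤ Bd O.toLFn := by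
  obtain ⟨_, hsum⟩ := hCNT O h
  have hB : Bd O.toLFn = ENNReal.ofReal (∑' g : Z O.toLFn, (mz O.toLFn g : ℝ) ^ 2 / (1 / 4 + (g : ℝ) ^ 2)) := by
    unfold Bd
    rw [ENNReal.ofReal_tsum_of_nonneg (fun g => by positivity) hsum]
  refine ⟨by rw [hB]; exact ENNReal.ofReal_ne_top, ?_⟩
  refine ENNReal.le_of_forall_pos_le_add fun ε hε _ => ?_
  have hε' : (0 : ℝ) < ε := hε
  refine limsup_le_of_le (by isBoundedDefault) ?_
  filter_upwards [hUP O h ε hε', eventually_ge_atTop 2] with N hN hN2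
  obtain ⟨a, hint, ha⟩ := hN
  have hlog : 0 < Real.log N := Real.log_pos (by exact_mod_cast (by omega : 1 < N))
  have h1 : dN O.toLFn N ≤ ENNReal.ofReal (1 / (2 * Real.pi) * ∫ t : ℝ, lin O.toLFn N a t) := by
    unfold dN
    refine (iInf_le _ a).trans ?_
    rw [ENNReal.ofReal_mul (by positivity),
      ofReal_integral_eq_lintegral_ofReal hint (Eventually.of_forall (lin_nonneg O.toLFn N a))]
  calc dN O.toLFn N * ENNReal.ofReal (Real.log N)
      ≤ ENNReal.ofReal (1 / (2 * Real.pi) * ∫ t : ℝ, lin O.toLFn N a t) * ENNReal.ofReal (Real.log N) :=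
        mul_le_mul_left h1 _
    _ = ENNReal.ofReal ((1 / (2 * Real.pi) * ∫ t : ℝ, lin O.toLFn N a t) * Real.log N) := by
        have h2 : 0 ≤ ∫ t : ℝ, lin O.toLFn N a t := integral_nonneg fun t => lin_nonneg O.toLFn N a t
        have h3 : 0 ≤ 1 / (2 * Real.pi) * ∫ t : ℝ, lin O.toLFn N a t := mul_nonneg (by positivity) h2
        rw [ENNReal.ofReal_mul h3]
    _ ≤ ENNReal.ofReal (∑' g : Z O.toLFn, (mz O.toLFn g : ℝ) ^ 2 / (1 / 4 + (g : ℝ) ^ 2) + ε) :=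
        ENNReal.ofReal_le_ofReal ha
    _ ≤ ENNReal.ofReal (∑' g : Z O.toLFn, (mz O.toLFn g : ℝ) ^ 2 / (1 / 4 + (g : ℝ) ^ 2)) + ENNReal.ofReal ε :=
        ENNReal.ofReal_add_le
    _ = _ := by rw [hB, ENNReal.ofReal_coe_nnreal]

theorem nrh_all (hNRH : S_NRH) (O : LFn) (h : ¬ RH O) : ∃ c : ℝ≥0∞, c ≠ 0 ∧ ∀ N : ℕ, c ≤ eN O N := by
  obtain ⟨c, hc, H⟩ := hNRH O h
  refine ⟨ENNReal.ofReal c, by rw [Ne, ENNReal.ofReal_eq_zero, not_le]; exact hc, fun N => ?_⟩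
  unfold eN
  refine le_iInf fun a => ?_
  by_cases htop : ∫⁻ y in Ioi (1 : ℝ), ENNReal.ofReal (‖CC O N a y‖ ^ 2 / y ^ 2) = ⊤
  · rw [htop]
    exact le_top
  · have hint : IntegrableOn (fun y : ℝ => ‖CC O N a y‖ ^ 2 / y ^ 2) (Ioi 1) :=
      int_of_fin (meas_J O N a) (J_nonneg O N a) htop
    rw [← ofReal_integral_eq_lintegral_ofReal hint (Eventually.of_forall (J_nonneg O N a))]
    exact ENNReal.ofReal_le_ofReal (H N a hint)

/-- **The abstract theorem.** -/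
theorem main (hUP : S_UP) (hPL : S_PL) (hCNT : S_CNT) (hLOW : S_LOW) (hNRH : S_NRH) (O : Obj) :
    (∀ N, eN O.toLFn N ≤ dN O.toLFn N) ∧
    Bd O.toLFn ≤ liminf (fun N : ℕ => eN O.toLFn N * ENNReal.ofReal (Real.log N)) atTop ∧
    (RH O.toLFn → Bd O.toLFn ≠ ⊤ ∧
      Tendsto (fun N : ℕ => dN O.toLFn N * ENNReal.ofReal (Real.log N)) atTop (𝓝 (Bd O.toLFn)) ∧
      Tendsto (fun N : ℕ => eN O.toLFn N * ENNReal.ofReal (Real.log N)) atTop (𝓝 (Bd O.toLFn))) ∧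
    (¬ RH O.toLFn → ∃ c : ℝ≥0∞, c ≠ 0 ∧ ∀ N : ℕ, c ≤ eN O.toLFn N) := by
  refine ⟨eN_le hPL O.toLFn, low_all hLOW O.toLFn, fun h => ?_, nrh_all hNRH O.toLFn⟩
  obtain ⟨h1, h2⟩ := up_all hUP hCNT O h
  have hle : ∀ N : ℕ, eN O.toLFn N * ENNReal.ofReal (Real.log N) ≤ dN O.toLFn N * ENNReal.ofReal (Real.log N) :=
    fun N => mul_le_mul_left (eN_le hPL O.toLFn N) _
  have h3 := low_all hLOW O.toLFn
  have h4 : liminf (fun N : ℕ => eN O.toLFn N * ENNReal.ofReal (Real.log N)) atTop ≤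
      liminf (fun N : ℕ => dN O.toLFn N * ENNReal.ofReal (Real.log N)) atTop :=
    liminf_le_liminf (Eventually.of_forall hle)
  have h5 : limsup (fun N : ℕ => eN O.toLFn N * ENNReal.ofReal (Real.log N)) atTop ≤
      limsup (fun N : ℕ => dN O.toLFn N * ENNReal.ofReal (Real.log N)) atTop :=
    limsup_le_limsup (Eventually.of_forall hle)
  exact ⟨h1, tendsto_of_le_liminf_of_limsup_le (h3.trans h4) h2,
    tendsto_of_le_liminf_of_limsup_le h3 (h5.trans h2)⟩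

/-- an equivalent form -/
theorem main_iff (hUP : S_UP) (hPL : S_PL) (hCNT : S_CNT) (hLOW : S_LOW) (hNRH : S_NRH) (O : Obj) :
    (RH O.toLFn ↔ liminf (fun N : ℕ => dN O.toLFn N * ENNReal.ofReal (Real.log N)) atTop ≠ ⊤) ∧
    (RH O.toLFn ↔ liminf (fun N : ℕ => eN O.toLFn N * ENNReal.ofReal (Real.log N)) atTop ≠ ⊤) := by
  obtain ⟨h1, _, h3, h4⟩ := main hUP hPL hCNT hLOW hNRH O
  have key : ¬ RH O.toLFn →
      Tendsto (fun N : ℕ => eN O.toLFn N * ENNReal.ofReal (Real.log N)) atTop (𝓝 ⊤) := by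
    intro h
    obtain ⟨c, hc, H⟩ := h4 h
    have hlog : Tendsto (fun N : ℕ => ENNReal.ofReal (Real.log N)) atTop (𝓝 ⊤) :=
      ENNReal.tendsto_ofReal_atTop.comp (Real.tendsto_log_atTop.comp tendsto_natCast_atTop_atTop)
    have h5 : Tendsto (fun N : ℕ => c * ENNReal.ofReal (Real.log N)) atTop (𝓝 (c * ⊤)) :=
      ENNReal.Tendsto.const_mul hlog (Or.inl ENNReal.top_ne_zero)
    rw [ENNReal.mul_top hc] at h5
    exact tendsto_nhds_top_mono h5 (Eventually.of_forall fun N => mul_le_mul_left (H N) _)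
  refine ⟨⟨fun h => ?_, fun h => ?_⟩, ⟨fun h => ?_, fun h => ?_⟩⟩
  · rw [(h3 h).2.1.liminf_eq]
    exact (h3 h).1
  · by_contra hn
    refine h (tendsto_nhds_top_mono (key hn) (Eventually.of_forall fun N => mul_le_mul_left (h1 N) _)).liminf_eq
  · rw [(h3 h).2.2.liminf_eq]
    exact (h3 h).1
  · by_contra hn
    exact h (key hn).liminf_eq

end Pool.Agent.Q286.GB
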