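import Pool.Agent.Q286.GB.Glue

set_option autoImplicit false

/-!
# Project GB: the distances in terms of a function `L` on the line and a sequence of coefficients

`dd L c N`: line form for the critical line `Re s = c`; `ee lam N`: elementary form for the coefficients `lam`
(analytic normalisation).
-/

namespace Pool.Agent.Q286.GB

open Complex MeasureTheory Filter Topology Set
open scoped ComplexConjugate ENNReal
open Pool.Agent.Q286.BD (cl)

/-- everything that is proved by the jobs -/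
structure Facts : Prop where
  eul : S_EUL
  obj : S_OBJ
  up : S_UP
  pl : S_PL
  cnt : S_CNT
  low : S_LOW
  nrh : S_NRH

/-- squared distance on the line `Re s = c` -/
noncomputable def dd (L : ℂ → ℂ) (c : ℝ) (N : ℕ) : ℝ≥0∞ :=
  ⨅ a : ℕ → ℂ, ENNReal.ofReal (1 / (2 * Real.pi)) * ∫⁻ t : ℝ, ENNReal.ofReal
    (‖1 - L (c + t * I) * ∑ n ∈ Finset.Icc 1 N, a n * (n : ℂ) ^ (-(c + t * I : ℂ))‖ ^ 2 / (1 / 4 + t ^ 2))

/-- squared elementary distance -/
noncomputable def ee (lam : ℕ → ℂ) (N : ℕ) : ℝ≥0∞ :=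
  ⨅ a : ℕ → ℂ, ∫⁻ y in Ioi (1 : ℝ), ENNReal.ofReal
    (‖1 - ∑ k ∈ Finset.Icc 1 ⌊y⌋₊, ∑ p ∈ k.divisorsAntidiagonal, (if p.1 ≤ N then a p.1 else 0) * lam p.2‖ ^ 2 / y ^ 2)

/-- the constant: sum over the zeros of `X` on the line `Re s = c` -/
noncomputable def BB (X : ℂ → ℂ) (c : ℝ) : ℝ≥0∞ :=
  ∑' g : {g : ℝ // X (c + g * I) = 0},
    ENNReal.ofReal ((analyticOrderNatAt X (c + (g : ℝ) * I) : ℝ) ^ 2 / (1 / 4 + (g : ℝ) ^ 2))

lemma half_cast : (((1 / 2 : ℝ) : ℝ) : ℂ) = 1 / 2 := by push_cast; ring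

lemma cl_eq (t : ℝ) : (((1 / 2 : ℝ)) : ℂ) + t * I = cl t := by
  unfold cl
  rw [half_cast]

lemma dd_eq (O : LFn) (N : ℕ) : dd O.L (1 / 2) N = dN O N := by
  unfold dd dN lin
  refine iInf_congr fun a => ?_
  simp only [cl_eq]

lemma ee_eq (O : LFn) (N : ℕ) : ee O.lam N = eN O N := rfl

lemma BB_eq (O : Obj) : BB O.X (1 / 2) = Bd O.toLFn := by
  have hη := O.η_pos
  have hiff : ∀ g : ℝ, O.X ((((1 / 2 : ℝ)) : ℂ) + g * I) = 0 ↔ O.L (cl g) = 0 := fun g => by
    rw [cl_eq, L_zero_iff O (by simp [cl]; linarith)]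
  unfold BB Bd
  let e : {g : ℝ // O.X ((((1 / 2 : ℝ)) : ℂ) + g * I) = 0} ≃ Z O.toLFn :=
    { toFun := fun g => ⟨g.1, (hiff g.1).1 g.2⟩
      invFun := fun g => ⟨g.1, (hiff g.1).2 g.2⟩
      left_inv := fun _ => rfl
      right_inv := fun _ => rfl }
  rw [← e.tsum_eq]
  refine tsum_congr fun g => ?_
  show ENNReal.ofReal ((analyticOrderNatAt O.X ((((1 / 2 : ℝ)) : ℂ) + (g.1 : ℝ) * I) : ℝ) ^ 2 / (1 / 4 + (g.1 : ℝ) ^ 2)) =
    ENNReal.ofReal ((mz O.toLFn g.1 : ℝ) ^ 2 / (1 / 4 + (g.1 : ℝ) ^ 2))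
  rw [mz_eq, cl_eq]

/-- The conclusions, for a function `L`, coefficients `lam`, completed function `X`, critical line `Re s = c`. -/
structure Concl (L : ℂ → ℂ) (lam : ℕ → ℂ) (X : ℂ → ℂ) (c : ℝ) : Prop where
  le : ∀ N, ee lam N ≤ dd L c N
  low : BB X c ≤ liminf (fun N : ℕ => ee lam N * ENNReal.ofReal (Real.log N)) atTop
  rh : (∀ s : ℂ, X s = 0 → s.re = c) → BB X c ≠ ⊤ ∧
    Tendsto (fun N : ℕ => dd L c N * ENNReal.ofReal (Real.log N)) atTop (𝓝 (BB X c)) ∧
    Tendsto (fun N : ℕ => ee lam N * ENNReal.ofReal (Real.log N)) atTop (𝓝 (BB X c))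
  nrh : ¬ (∀ s : ℂ, X s = 0 → s.re = c) → ∃ b : ℝ≥0∞, b ≠ 0 ∧ ∀ N : ℕ, b ≤ ee lam N
  iff_d : (∀ s : ℂ, X s = 0 → s.re = c) ↔
    liminf (fun N : ℕ => dd L c N * ENNReal.ofReal (Real.log N)) atTop ≠ ⊤
  iff_e : (∀ s : ℂ, X s = 0 → s.re = c) ↔
    liminf (fun N : ℕ => ee lam N * ENNReal.ofReal (Real.log N)) atTop ≠ ⊤

theorem concl (H : Facts) (O : Obj) : Concl O.L O.lam O.X (1 / 2) := by
  have hd : ∀ N, dd O.L (1 / 2) N = dN O.toLFn N := dd_eq O.toLFn
  have he : ∀ N, ee O.lam N = eN O.toLFn N := ee_eq O.toLFn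
  have hB := BB_eq O
  have hrh : (∀ s : ℂ, O.X s = 0 → s.re = 1 / 2) ↔ RH O.toLFn := (rh_iff O).symm
  obtain ⟨h1, h2, h3, h4⟩ := main H.up H.pl H.cnt H.low H.nrh O
  obtain ⟨h5, h6⟩ := main_iff H.up H.pl H.cnt H.low H.nrh O
  refine ⟨?_, ?_, ?_, ?_, ?_, ?_⟩
  · intro N
    rw [hd, he]
    exact h1 N
  · simp only [he, hB]
    exact h2
  · intro h
    simp only [hd, he, hB]
    exact h3 (hrh.1 h)
  · intro h
    simp only [he]
    exact h4 fun h' => h (hrh.2 h')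
  · simp only [hd]
    exact hrh.trans h5
  · simp only [he]
    exact hrh.trans h6

/-- transport along a translation by `1/2`, for L-functions with critical line `Re s = 1`, and arbitrary constant
nonzero factors of the completed function -/
theorem concl_shift {L L' X X' : ℂ → ℂ} {lam : ℕ → ℂ} (h : Concl L lam X (1 / 2)) (w : ℂ) (hw : w ≠ 0)
    (hXd : Differentiable ℂ X) (hL : ∀ s : ℂ, 0 ≤ s.re → L s = L' (s + 1 / 2)) (hX : ∀ s : ℂ, X s = w * X' (s + 1 / 2)) :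
    Concl L' lam X' 1 := by
  have hrh : (∀ s : ℂ, X s = 0 → s.re = 1 / 2) ↔ ∀ s : ℂ, X' s = 0 → s.re = 1 := by
    constructor
    · intro h s hs
      have h1 := h (s - 1 / 2) (by rw [hX, sub_add_cancel, hs, mul_zero])
      rw [sub_re] at h1
      norm_num at h1
      linarith
    · intro h s hs
      have h1 : X' (s + 1 / 2) = 0 := by
        rw [hX] at hs
        exact (mul_eq_zero.1 hs).resolve_left hw
      have h2 := h _ h1
      rw [add_re] at h2
      norm_num at h2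
      linarith
  have hd : ∀ N, dd L' 1 N = dd L (1 / 2) N := by
    intro N
    unfold dd
    -- reparametrise the coefficients by `n^(1/2)`
    have key : ∀ a : ℕ → ℂ, ∀ t : ℝ,
        L (((1 / 2 : ℝ) : ℂ) + t * I) * ∑ n ∈ Finset.Icc 1 N, a n * (n : ℂ) ^ (-((((1 / 2 : ℝ)) : ℂ) + t * I)) =
        L' (((1 : ℝ) : ℂ) + t * I) *
          ∑ n ∈ Finset.Icc 1 N, (a n * (n : ℂ) ^ (1 / 2 : ℂ)) * (n : ℂ) ^ (-(((1 : ℝ) : ℂ) + t * I)) := by
      intro a t
      congr 1
      · rw [hL _ (by simp)]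
        congr 1
        push_cast
        ring
      · refine Finset.sum_congr rfl fun n hn => ?_
        have hn0 : (n : ℂ) ≠ 0 := by
          have := (Finset.mem_Icc.1 hn).1
          exact_mod_cast (by omega : n ≠ 0)
        rw [mul_assoc, ← Complex.cpow_add _ _ hn0]
        congr 2
        push_cast
        ring
    apply le_antisymm
    · refine le_iInf fun a => ?_
      refine (iInf_le _ fun n => a n * (n : ℂ) ^ (1 / 2 : ℂ)).trans (le_of_eq ?_)
      congr 1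
      refine lintegral_congr fun t => ?_
      rw [key a t]
    · refine le_iInf fun a => ?_
      refine (iInf_le _ fun n => a n * (n : ℂ) ^ (-(1 / 2) : ℂ)).trans (le_of_eq ?_)
      congr 1
      refine lintegral_congr fun t => ?_
      rw [key _ t]
      have hsum : ∑ n ∈ Finset.Icc 1 N, (a n * (n : ℂ) ^ (-(1 / 2) : ℂ) * (n : ℂ) ^ (1 / 2 : ℂ)) *
          (n : ℂ) ^ (-((((1 : ℝ)) : ℂ) + t * I)) = ∑ n ∈ Finset.Icc 1 N, a n * (n : ℂ) ^ (-((((1 : ℝ)) : ℂ) + t * I)) := by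
        refine Finset.sum_congr rfl fun n hn => ?_
        have hn0 : (n : ℂ) ≠ 0 := by
          have := (Finset.mem_Icc.1 hn).1
          exact_mod_cast (by omega : n ≠ 0)
        rw [mul_assoc (a n), ← Complex.cpow_add _ _ hn0, neg_add_cancel, Complex.cpow_zero, mul_one]
      rw [hsum]
  have harg : ∀ g : ℝ, (((1 / 2 : ℝ)) : ℂ) + g * I + 1 / 2 = (((1 : ℝ)) : ℂ) + g * I := fun g => by
    push_cast
    ring
  have hX' : X = fun s => w * X' (s + 1 / 2) := funext hX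
  have hord : ∀ s : ℂ, analyticOrderNatAt X s = analyticOrderNatAt X' (s + 1 / 2) := by
    intro s
    have hX'd : Differentiable ℂ X' := by
      have h1 : X' = fun s => w⁻¹ * X (s - 1 / 2) := by
        funext s
        rw [hX, sub_add_cancel, inv_mul_cancel_left₀ hw]
      rw [h1]
      exact (hXd.comp (differentiable_id.sub_const _)).const_mul _
    have h0 : AnalyticAt ℂ (fun s : ℂ => s + 1 / 2) s := by fun_prop
    have h1 : analyticOrderAt (X' ∘ fun s : ℂ => s + 1 / 2) s = analyticOrderAt X' (s + 1 / 2) := by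
      refine analyticOrderAt_comp_of_deriv_ne_zero h0 ?_
      simp
    have h2 : analyticOrderAt (fun s : ℂ => w * X' (s + 1 / 2)) s =
        analyticOrderAt (fun _ : ℂ => w) s + analyticOrderAt (fun s : ℂ => X' (s + 1 / 2)) s :=
      analyticOrderAt_mul analyticAt_const ((hX'd.analyticAt _).comp' h0)
    unfold analyticOrderNatAt
    rw [hX', h2, analyticAt_const.analyticOrderAt_eq_zero.2 hw, zero_add]
    exact congrArg ENat.toNat h1
  have hB : BB X' 1 = BB X (1 / 2) := by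
    unfold BB
    let e : {g : ℝ // X' ((((1 : ℝ)) : ℂ) + g * I) = 0} ≃ {g : ℝ // X ((((1 / 2 : ℝ)) : ℂ) + g * I) = 0} :=
      { toFun := fun g => ⟨g.1, by rw [hX, harg, g.2, mul_zero]⟩
        invFun := fun g => ⟨g.1, by
          have := g.2
          rw [hX, harg] at this
          exact (mul_eq_zero.1 this).resolve_left hw⟩
        left_inv := fun _ => rfl
        right_inv := fun _ => rfl }
    rw [← e.tsum_eq]
    refine tsum_congr fun g => ?_
    show ENNReal.ofReal ((analyticOrderNatAt X' ((((1 : ℝ)) : ℂ) + (g.1 : ℝ) * I) : ℝ) ^ 2 / (1 / 4 + (g.1 : ℝ) ^ 2)) =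
      ENNReal.ofReal ((analyticOrderNatAt X ((((1 / 2 : ℝ)) : ℂ) + (g.1 : ℝ) * I) : ℝ) ^ 2 / (1 / 4 + (g.1 : ℝ) ^ 2))
    rw [hord, harg]
  refine ⟨?_, ?_, ?_, ?_, ?_, ?_⟩
  · intro N
    rw [hd]
    exact h.le N
  · rw [hB]
    exact h.low
  · intro h'
    simp only [hd, hB]
    exact h.rh (hrh.2 h')
  · intro h'
    exact h.nrh fun h'' => h' (hrh.1 h'')
  · simp only [hd]
    exact hrh.symm.trans h.iff_d
  · exact hrh.symm.trans h.iff_e

end Pool.Agent.Q286.GB
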