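import Pool.Agent.Q286.GB.Rows

set_option autoImplicit false

/-!
# Project GB: the qualitative criterion
-/

namespace Pool.Agent.Q286.GB

open Complex MeasureTheory Filter Topology Set
open scoped ComplexConjugate ENNReal

lemma tendsto_log_top : Tendsto (fun N : ℕ => ENNReal.ofReal (Real.log N)) atTop (𝓝 ⊤) :=
  ENNReal.tendsto_ofReal_atTop.comp (Real.tendsto_log_atTop.comp tendsto_natCast_atTop_atTop)

/-- if `f N * log N` converges to a finite limit then `f N → 0` -/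
lemma zero_of_lim {f : ℕ → ℝ≥0∞} {B : ℝ≥0∞} (hB : B ≠ ⊤)
    (h : Tendsto (fun N : ℕ => f N * ENNReal.ofReal (Real.log N)) atTop (𝓝 B)) : Tendsto f atTop (𝓝 0) := by
  have h1 : Tendsto (fun N : ℕ => (f N * ENNReal.ofReal (Real.log N)) * (ENNReal.ofReal (Real.log N))⁻¹) atTop
      (𝓝 (B * 0)) := by
    refine ENNReal.Tendsto.mul h (Or.inr ENNReal.zero_ne_top) ?_ (Or.inr hB)
    have := tendsto_log_top.inv
    rwa [ENNReal.inv_top] at this
  rw [mul_zero] at h1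
  refine h1.congr' ?_
  filter_upwards [eventually_ge_atTop 2] with N hN
  have hlog : 0 < Real.log N := Real.log_pos (by exact_mod_cast (by omega : 1 < N))
  rw [mul_assoc, ENNReal.mul_inv_cancel (by rw [Ne, ENNReal.ofReal_eq_zero, not_le]; exact hlog) ENNReal.ofReal_ne_top,
    mul_one]

theorem Concl.zero_e {L : ℂ → ℂ} {lam : ℕ → ℂ} {X : ℂ → ℂ} {c : ℝ} (h : Concl L lam X c) :
    (∀ s : ℂ, X s = 0 → s.re = c) ↔ Tendsto (ee lam) atTop (𝓝 0) := by
  constructor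
  · intro hr
    exact zero_of_lim (h.rh hr).1 (h.rh hr).2.2
  · intro ht
    by_contra hn
    obtain ⟨b, hb, H⟩ := h.nrh hn
    have := ge_of_tendsto' ht H
    exact hb (le_antisymm this (zero_le))

theorem Concl.zero_d {L : ℂ → ℂ} {lam : ℕ → ℂ} {X : ℂ → ℂ} {c : ℝ} (h : Concl L lam X c) :
    (∀ s : ℂ, X s = 0 → s.re = c) ↔ Tendsto (dd L c) atTop (𝓝 0) := by
  constructor
  · intro hr
    exact zero_of_lim (h.rh hr).1 (h.rh hr).2.1
  · intro ht
    by_contra hn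
    obtain ⟨b, hb, H⟩ := h.nrh hn
    have := ge_of_tendsto' ht fun N => (H N).trans (h.le N)
    exact hb (le_antisymm this (zero_le))

theorem BB_congr {X X' : ℂ → ℂ} {c : ℝ} (h : ∀ g : ℝ, X ((c : ℂ) + g * I) = 0 ↔ X' ((c : ℂ) + g * I) = 0)
    (ho : ∀ g : ℝ, analyticOrderNatAt X ((c : ℂ) + g * I) = analyticOrderNatAt X' ((c : ℂ) + g * I)) :
    BB X c = BB X' c := by
  unfold BB
  let e : {g : ℝ // X ((c : ℂ) + g * I) = 0} ≃ {g : ℝ // X' ((c : ℂ) + g * I) = 0} :=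
    { toFun := fun g => ⟨g.1, (h _).1 g.2⟩
      invFun := fun g => ⟨g.1, (h _).2 g.2⟩
      left_inv := fun _ => rfl
      right_inv := fun _ => rfl }
  rw [← e.tsum_eq]
  refine tsum_congr fun g => ?_
  show ENNReal.ofReal ((analyticOrderNatAt X ((c : ℂ) + (g.1 : ℝ) * I) : ℝ) ^ 2 / (1 / 4 + (g.1 : ℝ) ^ 2)) =
    ENNReal.ofReal ((analyticOrderNatAt X' ((c : ℂ) + (g.1 : ℝ) * I) : ℝ) ^ 2 / (1 / 4 + (g.1 : ℝ) ^ 2))
  rw [ho]

/-- the same with another expression `f g` for the point `c + I g` -/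
theorem BB_pt {X : ℂ → ℂ} {c : ℝ} {f : ℝ → ℂ} (hf : ∀ g : ℝ, f g = (c : ℂ) + g * I) :
    BB X c = ∑' g : {g : ℝ // X (f g) = 0},
      ENNReal.ofReal ((analyticOrderNatAt X (f (g : ℝ)) : ℝ) ^ 2 / (1 / 4 + (g : ℝ) ^ 2)) := by
  have : f = fun g : ℝ => (c : ℂ) + g * I := funext hf
  subst this
  rfl

theorem order_cpow {N : ℝ} (hN : 0 < N) {X : ℂ → ℂ} (hd : Differentiable ℂ X) (s : ℂ) :
    analyticOrderNatAt (fun s => (N : ℂ) ^ (s / 2) * X s) s = analyticOrderNatAt X s := by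
  have hN0 : (N : ℂ) ≠ 0 := by exact_mod_cast hN.ne'
  have h1 : AnalyticAt ℂ (fun s : ℂ => (N : ℂ) ^ (s / 2)) s := by
    have : Differentiable ℂ (fun s : ℂ => (N : ℂ) ^ (s / 2)) :=
      (differentiable_id.div_const 2).const_cpow (Or.inl hN0)
    exact this.analyticAt s
  have h2 : analyticOrderAt (fun s => (N : ℂ) ^ (s / 2) * X s) s =
      analyticOrderAt (fun s : ℂ => (N : ℂ) ^ (s / 2)) s + analyticOrderAt X s :=
    analyticOrderAt_mul h1 (hd.analyticAt s)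
  unfold analyticOrderNatAt
  rw [h2, h1.analyticOrderAt_eq_zero.2 (by rw [Ne, cpow_eq_zero_iff]; exact fun h => hN0 h.1), zero_add]

/-- the factor `N^(s/2)` can be left out -/
theorem Concl.cpow {L : ℂ → ℂ} {lam : ℕ → ℂ} {X Λ : ℂ → ℂ} {c N : ℝ} (h : Concl L lam X c) (hN : 0 < N)
    (hd : Differentiable ℂ Λ) (hX : X = fun s => (N : ℂ) ^ (s / 2) * Λ s) : Concl L lam Λ c := by
  have hN0 : (N : ℂ) ≠ 0 := by exact_mod_cast hN.ne'
  have hz : ∀ s : ℂ, X s = 0 ↔ Λ s = 0 := fun s => by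
    rw [hX]
    show (N : ℂ) ^ (s / 2) * Λ s = 0 ↔ _
    rw [mul_eq_zero, cpow_eq_zero_iff]
    constructor
    · rintro (h | h)
      · exact absurd h.1 hN0
      · exact h
    · exact Or.inr
  have hrh : (∀ s : ℂ, X s = 0 → s.re = c) ↔ ∀ s : ℂ, Λ s = 0 → s.re = c :=
    forall_congr' fun s => by rw [hz]
  have hB : BB X c = BB Λ c := BB_congr (fun g => hz _) fun g => by rw [hX, order_cpow hN hd]
  exact ⟨h.le, hB ▸ h.low, fun h' => hB ▸ h.rh (hrh.2 h'), fun h' => h.nrh fun h'' => h' (hrh.1 h''),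
    hrh.symm.trans h.iff_d, hrh.symm.trans h.iff_e⟩

end Pool.Agent.Q286.GB
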