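import Pool.Agent.Q286.GB.Rows2
import Pool.Agent.Q240.GS.EC2

set_option autoImplicit false

/-!
# Project GB: objects from the data structure of the library
-/

namespace Pool.Agent.Q286.GB

open Complex MeasureTheory Filter Topology Set
open scoped ComplexConjugate ENNReal
open H353.F (DatumT)

/-- from the data structure of the library -/
theorem obj_datum (hEUL : S_EUL) (hOBJ : S_OBJ) {m : ℕ} {θ N : ℝ} {μ : Fin m → ℂ} {α : Fin m → ℕ → ℂ} {ε : ℂ}
    {Λ : ℂ → ℂ} (hθ : θ ≤ 1 / 2) (d : DatumT θ N μ α ε Λ) (hμ : ∀ j, (μ j).re < 1 / 2) :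
    ∃ O : Obj, O.L = LL μ Λ ∧ O.X = fun s => (N : ℂ) ^ (s / 2) * Λ s := by
  refine mk_obj hEUL hOBJ (by linarith [d.one_le]) hμ d.entire ⟨ε, d.norm_eq, d.fe⟩ (fun a b => ?_)
    (ι := Nat.Primes) (D := m) (q := fun p => (p : ℕ)) (β := fun p j => α j p) (fun p => p.2.two_le) ?_
    (fun p j => ?_) (fun s hs => ?_)
  · obtain ⟨M, hM⟩ := d.bdd a b
    refine ⟨M, 1, fun s h1 h2 => ?_⟩
    rw [Real.rpow_one]
    exact hM s h1 h2
  · exact (Nat.Primes.summable_rpow).2 (by norm_num)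
  · refine (d.norm_le j p p.2).trans ?_
    rw [Real.sqrt_eq_rpow]
    exact Real.rpow_le_rpow_of_exponent_le (by exact_mod_cast p.2.one_le) hθ
  · show Λ s * ∏ j, (Gammaℝ (s - μ j))⁻¹ = _
    rw [d.euler s (by linarith), Finset.prod_inv_distrib]
    have h0 : ∏ j, Gammaℝ (s - μ j) ≠ 0 := Finset.prod_ne_zero_iff.2 fun j _ =>
      Gammaℝ_ne_zero_of_re_pos (by rw [sub_re]; linarith [hμ j])
    field_simp

end Pool.Agent.Q286.GB
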