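import Pool.Agent.Q286.GB.RowsA
import Pool.Agent.Q286.GB.All
import Pool.Agent.Q286.TR.HW

set_option autoImplicit false

/-!
# Project GB: Hasse-Weil L-functions attached to newforms
-/

namespace Pool.Agent.Q286.GB

open Complex MeasureTheory Filter Topology Set
open scoped ComplexConjugate ENNReal
open Pool.Agent.W169.HF (Slow)
open H353.E (gaf)

/-- the class: `G` is an L-function with Gamma factor `γ` and completed function `X` -/
def InDX (γ G X : ℂ → ℂ) : Prop :=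
  ∃ (d : ℕ) (N : ℝ) (μ : Fin d → ℂ) (f g : ArithmeticFunction ℂ), 1 ≤ N ∧ (∀ j, (μ j).re ≤ 0) ∧ (∀ s, γ s = gaf N μ s) ∧
    Slow X ∧ (∃ ε : ℂ, ‖ε‖ = 1 ∧ ∀ s : ℂ, X s = ε * conj (X (1 - conj s))) ∧ Dir G f g ∧
    ∃ σ : ℝ, ∀ s : ℂ, σ ≤ s.re → X s = γ s * G s

theorem InDX.mul {γ1 γ2 G1 G2 X1 X2 : ℂ → ℂ} (h1 : InDX γ1 G1 X1) (h2 : InDX γ2 G2 X2) :
    InDX (fun s => γ1 s * γ2 s) (fun s => G1 s * G2 s) (fun s => X1 s * X2 s) := by
  obtain ⟨d1, N1, μ1, f1, g1, n1, r1, c1, s1, ⟨ε1, e1, fe1⟩, D1, σ1, q1⟩ := h1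
  obtain ⟨d2, N2, μ2, f2, g2, n2, r2, c2, s2, ⟨ε2, e2, fe2⟩, D2, σ2, q2⟩ := h2
  refine ⟨d1 + d2, N1 * N2, Fin.append μ1 μ2, f1 * f2, g1 * g2, by nlinarith, fun j => ?_, fun s => ?_,
    Pool.Agent.W355.UN.slow_mul s1 s2, ⟨ε1 * ε2, by rw [norm_mul, e1, e2, one_mul], fun s => ?_⟩, D1.mul D2,
    max σ1 σ2, fun s hs => ?_⟩
  · refine Fin.addCases (fun i => ?_) (fun i => ?_) j
    · rw [Fin.append_left]; exact r1 i
    · rw [Fin.append_right]; exact r2 i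
  · show γ1 s * γ2 s = _
    rw [Pool.Agent.W355.UN.gaf_append (by linarith) (by linarith), c1, c2]
  · show X1 s * X2 s = ε1 * ε2 * conj (X1 (1 - conj s) * X2 (1 - conj s))
    rw [map_mul]
    calc X1 s * X2 s = (ε1 * conj (X1 (1 - conj s))) * (ε2 * conj (X2 (1 - conj s))) := by
          rw [← fe1 s, ← fe2 s]
      _ = _ := by ring
  · show X1 s * X2 s = γ1 s * γ2 s * (G1 s * G2 s)
    rw [q1 s ((le_max_left _ _).trans hs), q2 s ((le_max_right _ _).trans hs)]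
    ring

theorem InDX.concl (H : Facts) {γ G X : ℂ → ℂ} (h : InDX γ G X) :
    ∃ O : Obj, (∀ s : ℂ, 2 ≤ s.re → O.L s = G s) ∧ O.X = X ∧ Concl O.L O.lam X (1 / 2) := by
  obtain ⟨d, N, μ, f, g, hN, hμ, hγ, ⟨hX, hslow⟩, ⟨ε, hε, hfe⟩, D, σ, hσ⟩ := h
  have hN0 : 0 < N := by linarith
  have hμ' : ∀ j, (μ j).re < 1 / 2 := fun j => by linarith [hμ j]
  have hNc : (N : ℂ) ≠ 0 := by exact_mod_cast hN0.ne'
  obtain ⟨Λ, hΛ⟩ : ∃ Λ : ℂ → ℂ, Λ = fun s => (N : ℂ) ^ (-(s / 2)) * X s := ⟨_, rfl⟩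
  have hcp : Differentiable ℂ fun z : ℂ => (N : ℂ) ^ (-(z / 2)) := fun z =>
    DifferentiableAt.const_cpow (by fun_prop) (Or.inl hNc)
  have hΛd : Differentiable ℂ Λ := by rw [hΛ]; exact hcp.mul hX
  have hXΛ : (fun s => (N : ℂ) ^ (s / 2) * Λ s) = X := by
    funext s
    rw [hΛ]
    show (N : ℂ) ^ (s / 2) * ((N : ℂ) ^ (-(s / 2)) * X s) = X s
    rw [← mul_assoc, ← Complex.cpow_add _ _ hNc, add_neg_cancel, Complex.cpow_zero, one_mul]
  have hconj : ∀ w : ℂ, conj ((N : ℂ) ^ w) = (N : ℂ) ^ conj w := fun w => by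
    have harg : ((N : ℂ)).arg ≠ Real.pi := by
      rw [Complex.arg_ofReal_of_nonneg hN0.le]
      exact Real.pi_pos.ne
    rw [Complex.cpow_conj _ _ harg, Complex.conj_ofReal]
  have hLL : Differentiable ℂ (LL μ Λ) := by
    unfold LL
    refine hΛd.mul ?_
    refine Differentiable.fun_finsetProd fun j _ => ?_
    exact Complex.differentiable_Gammaℝ_inv.comp (differentiable_id.sub_const _)
  have hfar : ∀ s : ℂ, max σ 1 ≤ s.re → LL μ Λ s = G s := by
    intro s hs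
    have h1 := hσ s ((le_max_left _ _).trans hs)
    have h2 := (le_max_right _ _).trans hs
    have h0 : ∏ j, Gammaℝ (s - μ j) ≠ 0 := Finset.prod_ne_zero_iff.2 fun j _ =>
      Gammaℝ_ne_zero_of_re_pos (by rw [sub_re]; linarith [hμ j])
    unfold LL
    rw [hΛ]
    show (N : ℂ) ^ (-(s / 2)) * X s * _ = _
    rw [h1, hγ, gaf_eq_gam, Finset.prod_inv_distrib]
    unfold gam
    have h3 : (N : ℂ) ^ (-(s / 2)) * (N : ℂ) ^ (s / 2) = 1 := by
      rw [← Complex.cpow_add _ _ hNc, neg_add_cancel, Complex.cpow_zero]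
    calc (N : ℂ) ^ (-(s / 2)) * ((N : ℂ) ^ (s / 2) * (∏ j, Gammaℝ (s - μ j)) * G s) * (∏ j, Gammaℝ (s - μ j))⁻¹ =
        ((N : ℂ) ^ (-(s / 2)) * (N : ℂ) ^ (s / 2)) * ((∏ j, Gammaℝ (s - μ j)) * (∏ j, Gammaℝ (s - μ j))⁻¹) * G s := by
          ring
      _ = G s := by rw [h3, mul_inv_cancel₀ h0, one_mul, one_mul]
  have hfe' : ∀ s : ℂ, Λ s = ε * (N : ℂ) ^ (1 / 2 - s) * conj (Λ (1 - conj s)) := by
    intro s
    rw [hΛ]
    show (N : ℂ) ^ (-(s / 2)) * X s = ε * (N : ℂ) ^ (1 / 2 - s) * conj ((N : ℂ) ^ (-((1 - conj s) / 2)) * X (1 - conj s))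
    rw [hfe s, map_mul, hconj]
    have e1 : conj (-((1 - conj s) / 2)) = -((1 - s) / 2) := by
      simp only [map_neg, map_div₀, map_sub, map_one, map_ofNat, Complex.conj_conj]
    rw [e1]
    have e2 : (N : ℂ) ^ (1 / 2 - s) * (N : ℂ) ^ (-((1 - s) / 2)) = (N : ℂ) ^ (-(s / 2)) := by
      rw [← Complex.cpow_add _ _ hNc]
      congr 1
      ring
    rw [← e2]
    ring
  have hbd : ∀ a b : ℝ, ∃ M ρ : ℝ, ∀ s : ℂ, a ≤ s.re → s.re ≤ b → ‖Λ s‖ ≤ Real.exp (M * (1 + |s.im|) ^ ρ) := by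
    intro a b
    obtain ⟨K, hK, hb⟩ := hslow 1 one_pos
    obtain ⟨A, hA⟩ : ∃ A : ℝ, A = 1 + |a| + |b| := ⟨_, rfl⟩
    have hA1 : 1 ≤ A := by rw [hA]; linarith [abs_nonneg a, abs_nonneg b]
    obtain ⟨l, hl⟩ : ∃ l : ℝ, l = |Real.log N| := ⟨_, rfl⟩
    have hl0 : 0 ≤ l := by rw [hl]; exact abs_nonneg _
    refine ⟨l * A + K + A ^ 2, 2, fun s h1 h2 => ?_⟩
    have him := abs_nonneg s.im
    have hre : |s.re| ≤ |a| + |b| := by
      rw [abs_le]
      constructor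
      · linarith [neg_abs_le a, abs_nonneg b]
      · linarith [le_abs_self b, abs_nonneg a]
    rw [Real.rpow_two]
    have hW : 1 ≤ (1 + |s.im|) ^ 2 := by nlinarith
    have hn : ‖s‖ ≤ A * (1 + |s.im|) := by
      have h5 := Complex.norm_le_abs_re_add_abs_im s
      nlinarith
    have hn2 : ‖s‖ ^ 2 ≤ A ^ 2 * (1 + |s.im|) ^ 2 := by
      rw [← mul_pow]
      exact pow_le_pow_left₀ (norm_nonneg _) hn 2
    have h3 : ‖(N : ℂ) ^ (-(s / 2))‖ ≤ Real.exp (l * A) := by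
      rw [Complex.norm_cpow_eq_rpow_re_of_pos hN0, Real.rpow_def_of_pos hN0]
      refine Real.exp_le_exp.2 ?_
      have e5 : (-(s / 2)).re = -s.re / 2 := by
        simp
        ring
      rw [e5]
      have e6 : Real.log N * (-s.re / 2) ≤ |Real.log N| * |(-s.re / 2)| := by
        rw [← abs_mul]
        exact le_abs_self _
      refine e6.trans ?_
      rw [← hl]
      refine mul_le_mul_of_nonneg_left ?_ hl0
      rw [abs_div, abs_neg, abs_of_pos (by norm_num : (0 : ℝ) < 2)]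
      linarith [abs_nonneg s.re]
    have h4 : ‖X s‖ ≤ Real.exp (K + A ^ 2 * (1 + |s.im|) ^ 2) := by
      refine (hb s).trans ?_
      rw [Real.exp_add, one_mul]
      have h5 : K ≤ Real.exp K := by linarith [Real.add_one_le_exp K]
      have h6 : Real.exp (‖s‖ ^ 2) ≤ Real.exp (A ^ 2 * (1 + |s.im|) ^ 2) := Real.exp_le_exp.2 hn2
      exact mul_le_mul h5 h6 (Real.exp_pos _).le (Real.exp_pos _).le
    rw [hΛ]
    show ‖(N : ℂ) ^ (-(s / 2)) * X s‖ ≤ _
    rw [norm_mul]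
    calc ‖(N : ℂ) ^ (-(s / 2))‖ * ‖X s‖ ≤ Real.exp (l * A) * Real.exp (K + A ^ 2 * (1 + |s.im|) ^ 2) :=
          mul_le_mul h3 h4 (norm_nonneg _) (Real.exp_pos _).le
      _ = Real.exp (l * A + (K + A ^ 2 * (1 + |s.im|) ^ 2)) := by rw [← Real.exp_add]
      _ ≤ _ := by
          refine Real.exp_le_exp.2 ?_
          have h5 : l * A ≤ l * A * (1 + |s.im|) ^ 2 := le_mul_of_one_le_right (by positivity) hW
          have h6 : K ≤ K * (1 + |s.im|) ^ 2 := le_mul_of_one_le_right hK.le hW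
          nlinarith
  obtain ⟨O, hL, hl, hOX⟩ := obj_dir H.obj hN0 hμ' hΛd ⟨ε, hε, hfe'⟩ hbd D
    (fun s hs => ll_eq hLL D ⟨_, hfar⟩ hs)
  have hXO : O.X = X := by rw [hOX, hXΛ]
  refine ⟨O, fun s hs => ?_, hXO, ?_⟩
  · rw [hL]
    exact ll_eq hLL D ⟨_, hfar⟩ hs
  · rw [← hXO]
    exact Pool.Agent.Q286.GB.concl H O

theorem concl_shiftR {L L' X X' : ℂ → ℂ} {lam : ℕ → ℂ} (h : Concl L lam X (1 / 2)) (d : ℝ) (w : ℂ) (hw : w ≠ 0)
    (hXd : Differentiable ℂ X) (hL : ∀ s : ℂ, 0 ≤ s.re → L s = L' (s + d)) (hX : ∀ s : ℂ, X s = w * X' (s + d)) :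
    Concl L' lam X' (1 / 2 + d) := by
  have hrh : (∀ s : ℂ, X s = 0 → s.re = 1 / 2) ↔ ∀ s : ℂ, X' s = 0 → s.re = 1 / 2 + d := by
    constructor
    · intro h s hs
      have h1 := h (s - d) (by rw [hX, sub_add_cancel, hs, mul_zero])
      rw [sub_re, ofReal_re] at h1
      linarith
    · intro h s hs
      have h1 : X' (s + d) = 0 := by
        rw [hX] at hs
        exact (mul_eq_zero.1 hs).resolve_left hw
      have h2 := h _ h1
      rw [add_re, ofReal_re] at h2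
      linarith
  have hd : ∀ N, dd L' (1 / 2 + d) N = dd L (1 / 2) N := by
    intro N
    unfold dd
    -- reparametrise the coefficients by `n^(1/2)`
    have key : ∀ a : ℕ → ℂ, ∀ t : ℝ,
        L (((1 / 2 : ℝ) : ℂ) + t * I) * ∑ n ∈ Finset.Icc 1 N, a n * (n : ℂ) ^ (-((((1 / 2 : ℝ)) : ℂ) + t * I)) =
        L' (((1 / 2 + d : ℝ) : ℂ) + t * I) *
          ∑ n ∈ Finset.Icc 1 N, (a n * (n : ℂ) ^ (d : ℂ)) * (n : ℂ) ^ (-(((1 / 2 + d : ℝ) : ℂ) + t * I)) := by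
      intro a t
      congr 1
      · rw [hL _ (by simp)]
        congr 1
        push_cast
        ring
      · refine Finset.sum_congr rfl fun n hn => ?_
        have hn0 : (n : ℂ) ≠ 0 := by
          have := (Finset.mem_Icc.1 hn).1
          exact_mod_cast (by omega : n ≠ 0)
        rw [mul_assoc, ← Complex.cpow_add _ _ hn0]
        congr 2
        push_cast
        ring
    apply le_antisymm
    · refine le_iInf fun a => ?_
      refine (iInf_le _ fun n => a n * (n : ℂ) ^ (d : ℂ)).trans (le_of_eq ?_)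
      congr 1
      refine lintegral_congr fun t => ?_
      rw [key a t]
    · refine le_iInf fun a => ?_
      refine (iInf_le _ fun n => a n * (n : ℂ) ^ (-(d : ℂ))).trans (le_of_eq ?_)
      congr 1
      refine lintegral_congr fun t => ?_
      rw [key _ t]
      have hsum : ∑ n ∈ Finset.Icc 1 N, (a n * (n : ℂ) ^ (-(d : ℂ)) * (n : ℂ) ^ (d : ℂ)) *
          (n : ℂ) ^ (-((((1 / 2 + d : ℝ)) : ℂ) + t * I)) = ∑ n ∈ Finset.Icc 1 N, a n * (n : ℂ) ^ (-((((1 / 2 + d : ℝ)) : ℂ) + t * I)) := by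
        refine Finset.sum_congr rfl fun n hn => ?_
        have hn0 : (n : ℂ) ≠ 0 := by
          have := (Finset.mem_Icc.1 hn).1
          exact_mod_cast (by omega : n ≠ 0)
        rw [mul_assoc (a n), ← Complex.cpow_add _ _ hn0, neg_add_cancel, Complex.cpow_zero, mul_one]
      rw [hsum]
  have harg : ∀ g : ℝ, (((1 / 2 : ℝ)) : ℂ) + g * I + d = (((1 / 2 + d : ℝ)) : ℂ) + g * I := fun g => by
    push_cast
    ring
  have hX' : X = fun s => w * X' (s + d) := funext hX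
  have hord : ∀ s : ℂ, analyticOrderNatAt X s = analyticOrderNatAt X' (s + d) := by
    intro s
    have hX'd : Differentiable ℂ X' := by
      have h1 : X' = fun s => w⁻¹ * X (s - d) := by
        funext s
        rw [hX, sub_add_cancel, inv_mul_cancel_left₀ hw]
      rw [h1]
      exact (hXd.comp (differentiable_id.sub_const _)).const_mul _
    have h0 : AnalyticAt ℂ (fun s : ℂ => s + d) s := by fun_prop
    have h1 : analyticOrderAt (X' ∘ fun s : ℂ => s + d) s = analyticOrderAt X' (s + d) := by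
      refine analyticOrderAt_comp_of_deriv_ne_zero h0 ?_
      simp
    have h2 : analyticOrderAt (fun s : ℂ => w * X' (s + d)) s =
        analyticOrderAt (fun _ : ℂ => w) s + analyticOrderAt (fun s : ℂ => X' (s + d)) s :=
      analyticOrderAt_mul analyticAt_const ((hX'd.analyticAt _).comp' h0)
    unfold analyticOrderNatAt
    rw [hX', h2, analyticAt_const.analyticOrderAt_eq_zero.2 hw, zero_add]
    exact congrArg ENat.toNat h1
  have hB : BB X' (1 / 2 + d) = BB X (1 / 2) := by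
    unfold BB
    let e : {g : ℝ // X' ((((1 / 2 + d : ℝ)) : ℂ) + g * I) = 0} ≃ {g : ℝ // X ((((1 / 2 : ℝ)) : ℂ) + g * I) = 0} :=
      { toFun := fun g => ⟨g.1, by rw [hX, harg, g.2, mul_zero]⟩
        invFun := fun g => ⟨g.1, by
          have := g.2
          rw [hX, harg] at this
          exact (mul_eq_zero.1 this).resolve_left hw⟩
        left_inv := fun _ => rfl
        right_inv := fun _ => rfl }
    rw [← e.tsum_eq]
    refine tsum_congr fun g => ?_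
    show ENNReal.ofReal ((analyticOrderNatAt X' ((((1 / 2 + d : ℝ)) : ℂ) + (g.1 : ℝ) * I) : ℝ) ^ 2 / (1 / 4 + (g.1 : ℝ) ^ 2)) =
      ENNReal.ofReal ((analyticOrderNatAt X ((((1 / 2 : ℝ)) : ℂ) + (g.1 : ℝ) * I) : ℝ) ^ 2 / (1 / 4 + (g.1 : ℝ) ^ 2))
    rw [hord, harg]
  refine ⟨?_, ?_, ?_, ?_, ?_, ?_⟩
  · intro N
    rw [hd]
    exact h.le N
  · rw [hB]
    exact h.low
  · intro h'
    simp only [hd, hB]
    exact h.rh (hrh.2 h')
  · intro h'
    exact h.nrh fun h'' => h' (hrh.1 h'')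
  · simp only [hd]
    exact hrh.symm.trans h.iff_d
  · exact hrh.symm.trans h.iff_e


open Pool.Agent.Q246.HW (Newform Attached IsCompleted)
open Pool.Agent.Q246.NC (nco)
open Pool.Agent.TH839.NA (RawT RawTL nf_rawT root_le exists_roots)

/-- newforms -/
theorem inDX_newf (hEUL : S_EUL) (g : Newform) {i : ℕ} (h1 : g.k ≤ i + 1) (h2 : 2 ∣ i + 1 - g.k) :
    ∃ X, InDX (fun s => (g.N : ℂ) ^ (s / 2) * Gammaℂ (s + i / 2 - g.twist i)) (LSeries (nco g.f)) X := by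
  have : NeZero g.N := ⟨by have := g.N_pos; omega⟩
  have hg := g.isNewform
  have hF := Pool.Agent.Q286.TR.frmG g
  obtain ⟨w, hw, hfr⟩ := hg.fricke
  obtain ⟨c, X, h⟩ := nf_rawT g.f (w := w) g.k_pos ⟨hg.one, hw, hfr⟩ hg.mul
    (fun p hp => ⟨g.ψ (p : ZMod g.N) * (p : ℂ) ^ (g.k - 1), fun j => hg.pow p j hp⟩)
  have h' : RawTL (1 / 2) [(((((g.k : ℝ) - 1) / 2) : ℝ) : ℂ), (((((g.k : ℝ) + 1) / 2) : ℝ) : ℂ)] 0 g.N (nco g.f) c X := h
  have hk1 : (1 : ℝ) ≤ g.k := by exact_mod_cast g.k_pos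
  have htw : (g.twist i : ℂ) = (i + 1 - g.k) / 2 := by
    unfold Newform.twist
    rw [Nat.cast_div h2 (by norm_num), Nat.cast_sub h1]
    push_cast
    rfl
  -- the local roots
  choose u v huv hprod using fun p : ℕ => exists_roots (nco g.f p) (g.ψ (p : ZMod g.N))
  obtain ⟨th, C, hth0, hth, hC⟩ := hF.ram
  have key : ∀ (p : ℕ) (a b : ℂ), p.Prime → a + b = nco g.f p → a * b = g.ψ (p : ZMod g.N) → ‖a‖ ≤ Real.sqrt p := by
    intro p a b hp hab hab2
    have hp0 : (0 : ℝ) < p := by exact_mod_cast hp.pos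
    have hp1 : (1 : ℝ) ≤ p := by exact_mod_cast hp.one_le
    refine (root_le (β := fun k => nco g.f (p ^ k)) (u := a) (v := b) (P := (p : ℝ) ^ th) (A := C)
      (Real.rpow_pos_of_pos hp0 _) (by simp only [pow_zero]; exact hF.one) (by simp only [pow_one]; exact hab.symm)
      (fun k => ?_) (fun k => ?_)).trans ?_
    · rw [hab, hab2]
      exact hF.pow p k hp
    · have h3 := hC (p ^ k) (Nat.one_le_iff_ne_zero.2 (pow_ne_zero _ hp.ne_zero))
      have h4 : (((p ^ k : ℕ)) : ℝ) ^ th = ((p : ℝ) ^ th) ^ k := by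
        rw [Nat.cast_pow, ← Real.rpow_natCast, ← Real.rpow_natCast, ← Real.rpow_mul hp0.le, ← Real.rpow_mul hp0.le, mul_comm]
      rw [h4] at h3
      exact h3
    · rw [Real.sqrt_eq_rpow]
      exact Real.rpow_le_rpow_of_exponent_le hp1 hth.le
  obtain ⟨lam, mu, l0, m0, l1, ls, ms, inv, ser⟩ := hEUL Nat.Primes 2 (fun p => (p : ℕ)) (fun p => ![u p, v p])
    (fun p => p.2.two_le) ((Nat.Primes.summable_rpow).2 (by norm_num)) (fun p j => by
      fin_cases j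
      · exact key p (u p) (v p) p.2 (huv p) (hprod p)
      · exact key p (v p) (u p) p.2 (by rw [add_comm]; exact huv p) (by rw [mul_comm]; exact hprod p))
  obtain ⟨σ, hσ⟩ := h'.eq
  refine ⟨X, 2, g.N, ![-(((((g.k : ℝ) - 1) / 2) : ℝ) : ℂ), -(((((g.k : ℝ) + 1) / 2) : ℝ) : ℂ)], _, _, h'.hN, fun j => ?_, fun s => ?_,
    RawT.slow h', h'.fe, dir_of_eul l0 m0 l1 ls ms inv fun s hs => ?_, σ, fun s hs => ?_⟩
  · fin_cases j
    · show (-(((((g.k : ℝ) - 1) / 2) : ℝ) : ℂ)).re ≤ 0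
      rw [neg_re, ofReal_re]
      linarith
    · show (-(((((g.k : ℝ) + 1) / 2) : ℝ) : ℂ)).re ≤ 0
      rw [neg_re, ofReal_re]
      linarith
  · unfold gaf
    beta_reduce
    rw [Fin.prod_univ_two]
    show _ = (((g.N : ℕ) : ℝ) : ℂ) ^ (s / 2) * (Gammaℝ (s - -(((((g.k : ℝ) - 1) / 2) : ℝ) : ℂ)) * Gammaℝ (s - -(((((g.k : ℝ) + 1) / 2) : ℝ) : ℂ)))
    rw [htw, sub_neg_eq_add, sub_neg_eq_add]
    have e1 : s + (i : ℂ) / 2 - (i + 1 - g.k) / 2 = s + ((((g.k : ℝ) - 1) / 2 : ℝ) : ℂ) := by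
      push_cast
      ring
    have e2 : s + (((((g.k : ℝ) + 1) / 2) : ℝ) : ℂ) = s + ((((g.k : ℝ) - 1) / 2 : ℝ) : ℂ) + 1 := by
      push_cast
      ring
    rw [e1, e2, Gammaℝ_mul_Gammaℝ_add_one]
    push_cast
    rfl
  · have h3 : LSeries (nco g.f) s = ∏' p : Nat.Primes, ∏ j : Fin 2, (1 - (![u p, v p] : Fin 2 → ℂ) j * ((p : ℕ) : ℂ) ^ (-s))⁻¹ := by
      rw [Pool.Agent.Q286.TR.lser_nco, ← (Pool.Agent.Q246.NC.frm_euler hF (s := s) (by linarith)).tprod_eq]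
      refine tprod_congr fun p => ?_
      rw [Fin.prod_univ_two, ← mul_inv]
      congr 1
      show _ = (1 - u p * ((p : ℕ) : ℂ) ^ (-s)) * (1 - v p * ((p : ℕ) : ℂ) ^ (-s))
      rw [← huv, ← hprod]
      ring
    rw [h3]
    exact ser s hs
  · rw [hσ s hs, pow_zero, one_mul]
    simp only [List.length_cons, List.length_nil, Nat.reduceAdd, Fin.prod_univ_two]
    have e0 : (((g.N : ℕ) : ℝ) : ℂ) = (g.N : ℂ) := by push_cast; rfl
    have e1 : s + (i : ℂ) / 2 - g.twist i = s + ((((g.k : ℝ) - 1) / 2 : ℝ) : ℂ) := by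
      rw [htw]
      push_cast
      ring
    have e2 : s + (((((g.k : ℝ) + 1) / 2) : ℝ) : ℂ) = s + ((((g.k : ℝ) - 1) / 2 : ℝ) : ℂ) + 1 := by
      push_cast
      ring
    rw [e0, e1, ← Gammaℝ_mul_Gammaℝ_add_one, ← e2]
    rfl

theorem inDX_list {ι : Type*} (γ G : ι → ℂ → ℂ) (l : List ι) (hl : l ≠ []) (h : ∀ g ∈ l, ∃ X, InDX (γ g) (G g) X) :
    ∃ X, InDX (fun s => (l.map fun g => γ g s).prod) (fun s => (l.map fun g => G g s).prod) X := by
  induction l with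
  | nil => exact absurd rfl hl
  | cons a l ih =>
    obtain ⟨X1, h1⟩ := h a (by simp)
    rcases eq_or_ne l [] with rfl | hne
    · exact ⟨X1, by simpa using h1⟩
    · obtain ⟨X2, h2⟩ := ih hne fun c hc => h c (by simp [hc])
      exact ⟨_, by simpa using h1.mul h2⟩

/-- the Euler products -/
theorem hF_eq {N i : ℕ} {R : ℕ → ℕ → Multiset ℂ} {l : List Newform} (h : Attached N i R l) {F Λ : ℂ → ℂ}
    (hc : IsCompleted N i R l F Λ) {s : ℂ} (hs : 1 < s.re) :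
    F (s + i / 2) = (l.map fun g => LSeries (nco g.f) s).prod := by
  have hre : (i : ℝ) / 2 + 1 < (s + i / 2).re := by
    have : (s + i / 2).re = s.re + (i : ℝ) / 2 := by
      rw [add_re, show ((i : ℂ) / 2) = (((i : ℝ) / 2 : ℝ) : ℂ) by push_cast; rfl, ofReal_re]
    rw [this]
    linarith
  have h1 := hc.good (s + i / 2) hre
  have h2 := Pool.Agent.Q286.TR.hasProd_list (fun (g : Newform) (p : Nat.Primes) => (1 - nco g.f p * ((p : ℕ) : ℂ) ^ (-s) +
    g.ψ ((p : ℕ) : ZMod g.N) * (((p : ℕ) : ℂ) ^ (-s)) ^ 2)⁻¹) (fun g => LSeries (nco g.f) s) l (fun g _ => by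
      rw [Pool.Agent.Q286.TR.lser_nco]
      exact Pool.Agent.Q246.NC.frm_euler (Pool.Agent.Q286.TR.frmG g) hs)
  refine h1.unique (h2.congr_fun fun p => ?_)
  rw [Pool.Agent.Q246.NC.prod_inv_list]
  congr 1
  have e1 : (l.map fun g : Newform => 1 - nco g.f p * ((p : ℕ) : ℂ) ^ (-s) +
      g.ψ ((p : ℕ) : ZMod g.N) * (((p : ℕ) : ℂ) ^ (-s)) ^ 2).prod =
      (l.map fun g => g.euler i p (((p : ℕ) : ℂ) ^ (-(s + i / 2)))).prod :=
    congrArg List.prod (List.map_congr_left fun g hg =>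
      Pool.Agent.Q246.HW.euler_eq g (h.weight g hg).1 (h.weight g hg).2 p.2.pos s)
  rw [e1]
  split_ifs with hpN
  · rfl
  · rw [h.factor p p.2 hpN]

lemma prodN_pos (l : List Newform) : 1 ≤ (l.map Newform.N).prod := by
  induction l with
  | nil => simp
  | cons a l ih =>
    rw [List.map_cons, List.prod_cons]
    exact Nat.mul_pos a.N_pos ih

lemma prodN_cpow (l : List Newform) (s : ℂ) :
    (l.map fun g : Newform => (g.N : ℂ) ^ s).prod = (((l.map Newform.N).prod : ℕ) : ℂ) ^ s := by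
  induction l with
  | nil => simp
  | cons a l ih =>
    simp only [List.map_cons, List.prod_cons]
    rw [Nat.cast_mul, Complex.natCast_mul_natCast_cpow, ih]

/-- the cohomology -/
theorem exHD (H : Facts) {N i : ℕ} {R : ℕ → ℕ → Multiset ℂ} {l : List Newform} (h : Attached N i R l) {F Λ : ℂ → ℂ}
    (hc : IsCompleted N i R l F Λ) :
    ∃ O : Obj, (∀ s : ℂ, O.L s = F (s + i / 2)) ∧ Concl F O.lam Λ (1 / 2 + (i : ℝ) / 2) := by
  obtain ⟨X, hX⟩ := inDX_list (fun (g : Newform) s => (g.N : ℂ) ^ (s / 2) * Gammaℂ (s + i / 2 - g.twist i))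
    (fun g => LSeries (nco g.f)) l h.ne (fun g hg => inDX_newf H.eul g (h.weight g hg).1 (h.weight g hg).2)
  obtain ⟨O, hO, hOX, hcon⟩ := hX.concl H
  obtain ⟨_, _, _, _, _, _, _, _, ⟨hXd, -⟩, -, -, σ, hσ⟩ := hX
  obtain ⟨A, hA⟩ : ∃ A : ℕ, A = (l.map Newform.N).prod := ⟨_, rfl⟩
  have hA1 : 1 ≤ A := by
    rw [hA]
    exact prodN_pos l
  have hAc : (A : ℂ) ≠ 0 := by exact_mod_cast (show A ≠ 0 by omega)
  have hF := fun (s : ℂ) (hs : 1 < s.re) => hF_eq h hc hs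
  have hgam : ∀ s : ℂ, (l.map fun g : Newform => (g.N : ℂ) ^ (s / 2) * Gammaℂ (s + i / 2 - g.twist i)).prod =
      (A : ℂ) ^ (s / 2) * (l.map fun g : Newform => Gammaℂ (s + i / 2 - g.twist i)).prod := by
    intro s
    rw [List.prod_map_mul, hA, prodN_cpow]
  have hk0 : (A : ℂ) ^ (-((i : ℂ) / 4)) ≠ 0 := by
    rw [Ne, Complex.cpow_eq_zero_iff]
    exact fun h => hAc h.1
  have hXΛ : X = fun s => (A : ℂ) ^ (-((i : ℂ) / 4)) * Λ (s + i / 2) := by
    refine Pool.Agent.W355.UN.Pk.uniq (G := fun s => (l.map fun g : Newform => (g.N : ℂ) ^ (s / 2) *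
      Gammaℂ (s + i / 2 - g.twist i)).prod * (l.map fun g => LSeries (nco g.f) s).prod)
      ((hc.entire.comp (by fun_prop)).const_mul _) hXd ⟨2, fun s hs => ?_⟩ ⟨σ, hσ⟩
    have hre : (i : ℝ) / 2 < (s + i / 2).re := by
      have : (s + i / 2).re = s.re + (i : ℝ) / 2 := by
        rw [add_re, show ((i : ℂ) / 2) = (((i : ℝ) / 2 : ℝ) : ℂ) by push_cast; rfl, ofReal_re]
      rw [this]
      linarith
    beta_reduce
    rw [hc.eq _ hre, hF s (by linarith), ← hA, hgam]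
    have e1 : (A : ℂ) ^ ((s + i / 2) / 2) = (A : ℂ) ^ ((i : ℂ) / 4) * (A : ℂ) ^ (s / 2) := by
      rw [← Complex.cpow_add _ _ hAc]
      congr 1
      ring
    have e2 : (A : ℂ) ^ (-((i : ℂ) / 4)) * (A : ℂ) ^ ((i : ℂ) / 4) = 1 := by
      rw [← Complex.cpow_add _ _ hAc, neg_add_cancel, Complex.cpow_zero]
    rw [e1]
    linear_combination ((A : ℂ) ^ (s / 2) * (l.map fun g : Newform => Gammaℂ (s + i / 2 - g.twist i)).prod *
      (l.map fun g => LSeries (nco g.f) s).prod) * e2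
  have hO' : ∀ s : ℂ, 2 ≤ s.re → O.L s = (l.map fun g => LSeries (nco g.f) s).prod := hO
  have a1 : Differentiable ℂ fun s : ℂ => F (s + i / 2) := hc.entire_F.comp (by fun_prop)
  have a3 : ∃ σ : ℝ, ∀ s : ℂ, σ ≤ s.re → O.L s = F (s + i / 2) :=
    ⟨2, fun s hs => (hO' s hs).trans (hF s (by linarith)).symm⟩
  have hOL : O.L = fun s => F (s + i / 2) :=
    Pool.Agent.W355.UN.Pk.uniq (G := fun s => F (s + i / 2)) a1 O.entire ⟨0, fun s _ => rfl⟩ a3
  have hi2 : ((((i : ℝ) / 2 : ℝ)) : ℂ) = (i : ℂ) / 2 := by push_cast; rfl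
  refine ⟨O, fun s => congrFun hOL s, concl_shiftR hcon ((i : ℝ) / 2) _ hk0 hXd (fun s _ => ?_) (fun s => ?_)⟩
  · rw [hi2]
    exact congrFun hOL s
  · rw [hi2, hXΛ]

end Pool.Agent.Q286.GB
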