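import Pool.Agent.Q286.GB.Rows3
import Pool.Agent.Q240.OW.K1

set_option autoImplicit false

/-!
# Project GB: elliptic curves over number fields
-/

namespace Pool.Agent.Q286.GB

open Complex Filter Topology NumberField IsDedekindDomain Set
open scoped ComplexConjugate
open Pool.Agent.H921R2.TatePole (nm two_le_nm nm_summable)
open Pool.Agent.TH839.UH (KL EL dg mu_re NX NX_fe NX_eq)
open Pool.Agent.TH839.UH.NF (gv)
open Q240.OW (sdk LK mu_le cA cst_ne sdk_zero XX_sdk LL_sdk)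

/-- the two Frobenius eigenvalues -/
lemma roots (n : ℕ) (hn : 2 ≤ n) (a δ : ℂ) (ha : conj a = a) (hab : ‖a‖ ≤ n) (hδ : δ = 0 ∨ δ = n) :
    ∃ r : Fin 2 → ℂ, (∀ j, ‖r j‖ ≤ n) ∧ ∀ x : ℂ, 1 - a * x + δ * x ^ 2 = ∏ j, (1 - r j * x) := by
  obtain ⟨A, rfl⟩ := Complex.conj_eq_iff_real.1 ha
  rw [Complex.norm_real, Real.norm_eq_abs] at hab
  have hn2 : (2 : ℝ) ≤ n := by exact_mod_cast hn
  rcases hδ with rfl | rfl
  · refine ⟨![(A : ℂ), 0], fun j => ?_, fun x => ?_⟩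
    · fin_cases j
      · simpa using hab
      · simp
    · rw [Fin.prod_univ_two]
      simp
  · rcases le_or_gt 0 (A ^ 2 - 4 * n) with hD | hD
    · obtain ⟨R, hR⟩ : ∃ R : ℝ, R = Real.sqrt (A ^ 2 - 4 * n) := ⟨_, rfl⟩
      have hR2 : R ^ 2 = A ^ 2 - 4 * n := by rw [hR, Real.sq_sqrt hD]
      have hR0 : 0 ≤ R := by rw [hR]; exact Real.sqrt_nonneg _
      have hRA : R ≤ |A| := by
        apply abs_le_of_sq_le_sq' _ (abs_nonneg A) |>.2
        rw [sq_abs]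
        linarith
      refine ⟨![((((A + R) / 2 : ℝ)) : ℂ), ((((A - R) / 2 : ℝ)) : ℂ)], fun j => ?_, fun x => ?_⟩
      · have h1 := abs_le.1 hab
        have h2 := abs_nonneg A
        have h3 := le_abs_self A
        have h4 := neg_abs_le A
        fin_cases j
        · show ‖((((A + R) / 2 : ℝ)) : ℂ)‖ ≤ n
          rw [Complex.norm_real, Real.norm_eq_abs, abs_le]
          constructor <;> linarith
        · show ‖((((A - R) / 2 : ℝ)) : ℂ)‖ ≤ n
          rw [Complex.norm_real, Real.norm_eq_abs, abs_le]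
          constructor <;> linarith
      · rw [Fin.prod_univ_two]
        show _ = (1 - ((((A + R) / 2 : ℝ)) : ℂ) * x) * (1 - ((((A - R) / 2 : ℝ)) : ℂ) * x)
        have h5 : ((R : ℝ) : ℂ) ^ 2 = (A : ℂ) ^ 2 - 4 * n := by exact_mod_cast hR2
        push_cast
        linear_combination (x ^ 2 / 4) * h5
    · obtain ⟨R, hR⟩ : ∃ R : ℝ, R = Real.sqrt (4 * n - A ^ 2) := ⟨_, rfl⟩
      have hR2 : R ^ 2 = 4 * n - A ^ 2 := by rw [hR, Real.sq_sqrt (by linarith)]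
      have hnorm : ∀ e : ℝ, e ^ 2 = 1 → ‖((((A / 2 : ℝ)) : ℂ) + (((e * R / 2 : ℝ)) : ℂ) * I)‖ ≤ n := by
        intro e he
        have h1 : ‖((((A / 2 : ℝ)) : ℂ) + (((e * R / 2 : ℝ)) : ℂ) * I)‖ ^ 2 = n := by
          rw [Complex.sq_norm, Complex.normSq_add_mul_I]
          nlinarith
        have h2 := norm_nonneg ((((A / 2 : ℝ)) : ℂ) + (((e * R / 2 : ℝ)) : ℂ) * I)
        nlinarith
      refine ⟨![(((A / 2 : ℝ)) : ℂ) + (((1 * R / 2 : ℝ)) : ℂ) * I,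
        (((A / 2 : ℝ)) : ℂ) + (((-1 * R / 2 : ℝ)) : ℂ) * I], fun j => ?_, fun x => ?_⟩
      · fin_cases j
        · exact hnorm 1 (by norm_num)
        · exact hnorm (-1) (by norm_num)
      · rw [Fin.prod_univ_two]
        show _ = (1 - ((((A / 2 : ℝ)) : ℂ) + (((1 * R / 2 : ℝ)) : ℂ) * I) * x) *
          (1 - ((((A / 2 : ℝ)) : ℂ) + (((-1 * R / 2 : ℝ)) : ℂ) * I) * x)
        have h5 : ((R : ℝ) : ℂ) ^ 2 = 4 * n - (A : ℂ) ^ 2 := by exact_mod_cast hR2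
        push_cast
        linear_combination (-x ^ 2 / 4) * h5 + (x ^ 2 * (R : ℂ) ^ 2 / 4) * Complex.I_sq

section
variable {K : Type} [Field K] [NumberField K]
variable {a δ : HeightOneSpectrum (𝓞 K) → ℂ} {A : ℝ} {Λ : ℂ → ℂ}

lemma LK_EL (h : KL a δ A Λ) {s : ℂ} (hs : 9 / 4 < s.re) : LK (dg K) A Λ s = EL a δ s := by
  have hA0 : 0 < A := by linarith [h.one_le]
  have hA : (A : ℂ) ≠ 0 := by exact_mod_cast hA0.ne'
  have hpi : (2 * (Real.pi : ℂ)) ≠ 0 := by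
    have := Real.pi_ne_zero
    simp [this]
  unfold LK
  rw [h.eq' hs]
  have h1 : (A : ℂ) ^ (s / 2) * ((2 * (Real.pi : ℂ)) ^ (-s) * Gamma s) ^ dg K ≠ 0 := by
    refine mul_ne_zero (cA hA0 _) (pow_ne_zero _ (mul_ne_zero ?_ (Complex.Gamma_ne_zero_of_re_pos (by linarith))))
    rw [Ne, Complex.cpow_eq_zero_iff]
    exact fun h => hpi h.1
  rw [inv_mul_cancel_left₀ h1]

theorem objK (hEUL : S_EUL) (hOBJ : S_OBJ) (h : KL a δ A Λ) (hd : ∀ v, δ v = 0 ∨ δ v = (nm v : ℂ)) :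
    ∃ O : Obj, O.L = LL (Pool.Agent.TH839.UH.mu (dg K)) (sdk (dg K) A Λ) ∧
      O.X = fun s => ((2 ^ dg K * A ^ (-(1 / 4 : ℝ)) : ℝ) : ℂ) * Λ (s + 1 / 2) := by
  classical
  have hA0 : 0 < A := by linarith [h.one_le]
  have hA : (A : ℂ) ≠ 0 := by exact_mod_cast hA0.ne'
  have hXX : ∀ z, (A : ℂ) ^ (z / 2) * sdk (dg K) A Λ z = NX K A Λ z := fun z => by
    unfold sdk NX
    rw [← mul_assoc, ← Complex.cpow_add _ _ hA, add_neg_cancel, Complex.cpow_zero, one_mul]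
  choose r hr1 hr2 using fun v => roots (nm v) (two_le_nm v) (a v) (δ v) (h.rea v) (h.ha v) (hd v)
  have hobj := mk_obj hEUL hOBJ hA0 (μ := Pool.Agent.TH839.UH.mu (dg K)) (Λ := sdk (dg K) A Λ)
    (fun j => by linarith [mu_le j]) ?_ ?_ ?_
    (ι := HeightOneSpectrum (𝓞 K)) (D := 2) (q := fun v => nm v)
    (β := fun v j => r v j * ((nm v : ℕ) : ℂ) ^ (-(1 / 2) : ℂ)) (fun v => two_le_nm v) ?_ ?_ ?_
  · obtain ⟨O, h1, h2⟩ := hobj
    refine ⟨O, h1, ?_⟩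
    rw [h2]
    funext s
    rw [hXX]
    rfl
  · unfold sdk
    have h1 : Differentiable ℂ fun z : ℂ => (A : ℂ) ^ (-(z / 2)) := fun z =>
      DifferentiableAt.const_cpow (by fun_prop) (Or.inl hA)
    exact h1.mul ((h.entire.comp (by fun_prop)).const_mul _)
  · obtain ⟨ε, hε, hfe⟩ := NX_fe h
    refine ⟨ε, hε, fun s => ?_⟩
    have e1 : sdk (dg K) A Λ s = (A : ℂ) ^ (-(s / 2)) * NX K A Λ s := rfl
    have e2 : NX K A Λ (1 - conj s) = (A : ℂ) ^ ((1 - conj s) / 2) * sdk (dg K) A Λ (1 - conj s) := (hXX _).symm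
    have e3 : conj ((A : ℂ) ^ ((1 - conj s) / 2)) = (A : ℂ) ^ ((1 - s) / 2) := by
      have harg : ((A : ℂ)).arg ≠ Real.pi := by
        rw [Complex.arg_ofReal_of_nonneg hA0.le]
        exact Real.pi_pos.ne
      rw [Pool.Agent.TH839.UH.conj_pow harg (Complex.conj_ofReal A)]
      congr 1
      simp only [map_div₀, map_sub, map_one, map_ofNat, Complex.conj_conj]
    rw [e1, hfe s, e2, map_mul, e3]
    have e4 : (A : ℂ) ^ (-(s / 2)) * (A : ℂ) ^ ((1 - s) / 2) = (A : ℂ) ^ (1 / 2 - s) := by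
      rw [← Complex.cpow_add _ _ hA]
      congr 1
      ring
    rw [← e4]
    ring
  · intro x y
    obtain ⟨c, ρ, hord⟩ := h.order
    obtain ⟨c', hc'⟩ : ∃ c' : ℝ, c' = |c| := ⟨_, rfl⟩
    obtain ⟨ρ', hρ'⟩ : ∃ ρ' : ℝ, ρ' = |ρ| := ⟨_, rfl⟩
    have hc0 : 0 ≤ c' := by rw [hc']; exact abs_nonneg _
    have hρ0 : 0 ≤ ρ' := by rw [hρ']; exact abs_nonneg _
    obtain ⟨D, hD⟩ : ∃ D : ℝ, D = 3 + |x| + |y| := ⟨_, rfl⟩
    have hD1 : 1 ≤ D := by rw [hD]; linarith [abs_nonneg x, abs_nonneg y]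
    obtain ⟨P, hP⟩ : ∃ P : ℝ, P = (2 ^ dg K * A ^ (-(1 / 4 : ℝ))) := ⟨_, rfl⟩
    have hP0 : 0 < P := by rw [hP]; positivity
    obtain ⟨l, hl⟩ : ∃ l : ℝ, l = |Real.log A| := ⟨_, rfl⟩
    have hl0 : 0 ≤ l := by rw [hl]; exact abs_nonneg _
    refine ⟨l * D + P + c' * D ^ ρ', ρ', fun s hs1 hs2 => ?_⟩
    have him := abs_nonneg s.im
    have hre : |s.re| ≤ |x| + |y| := by
      rw [abs_le]
      constructor
      · linarith [neg_abs_le x, abs_nonneg y]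
      · linarith [le_abs_self y, abs_nonneg x]
    have hW : 1 ≤ (1 + |s.im|) ^ ρ' := Real.one_le_rpow (by linarith) hρ0
    have h1 : ‖(A : ℂ) ^ (-(s / 2))‖ ≤ Real.exp (l * D) := by
      rw [Complex.norm_cpow_eq_rpow_re_of_pos hA0, Real.rpow_def_of_pos hA0]
      refine Real.exp_le_exp.2 ?_
      have e5 : (-(s / 2)).re = -s.re / 2 := by
        simp
        ring
      rw [e5]
      have e6 : Real.log A * (-s.re / 2) ≤ |Real.log A| * |(-s.re / 2)| := by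
        rw [← abs_mul]
        exact le_abs_self _
      refine e6.trans ?_
      rw [← hl]
      refine mul_le_mul_of_nonneg_left ?_ hl0
      rw [abs_div, abs_neg, abs_of_pos (by norm_num : (0 : ℝ) < 2)]
      linarith [abs_nonneg s.re]
    have h2 : ‖Λ (s + 1 / 2)‖ ≤ Real.exp (c' * D ^ ρ' * (1 + |s.im|) ^ ρ') := by
      refine (hord _).trans (Real.exp_le_exp.2 ?_)
      have hn : 1 ≤ 1 + ‖s + 1 / 2‖ := by linarith [norm_nonneg (s + 1 / 2)]
      have hn2 : 1 + ‖s + 1 / 2‖ ≤ D * (1 + |s.im|) := by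
        have h3 := norm_add_le s (1 / 2)
        have h4 : ‖(1 / 2 : ℂ)‖ = 1 / 2 := by norm_num
        have h5 := Complex.norm_le_abs_re_add_abs_im s
        have h6 : |s.im| ≤ D * |s.im| := by
          nlinarith
        nlinarith
      calc c * (1 + ‖s + 1 / 2‖) ^ ρ ≤ c' * (1 + ‖s + 1 / 2‖) ^ ρ := by
            refine mul_le_mul_of_nonneg_right (by rw [hc']; exact le_abs_self c) (by positivity)
        _ ≤ c' * (1 + ‖s + 1 / 2‖) ^ ρ' := by
            refine mul_le_mul_of_nonneg_left ?_ hc0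
            exact Real.rpow_le_rpow_of_exponent_le hn (by rw [hρ']; exact le_abs_self ρ)
        _ ≤ c' * (D * (1 + |s.im|)) ^ ρ' := by
            refine mul_le_mul_of_nonneg_left ?_ hc0
            exact Real.rpow_le_rpow (by linarith) hn2 hρ0
        _ = _ := by
            rw [Real.mul_rpow (by linarith) (by linarith)]
            ring
    have h3 : ‖(((2 ^ dg K * A ^ (-(1 / 4 : ℝ)) : ℝ)) : ℂ)‖ ≤ Real.exp P := by
      rw [Complex.norm_real, ← hP, Real.norm_eq_abs, abs_of_pos hP0]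
      linarith [Real.add_one_le_exp P]
    unfold sdk
    rw [norm_mul, norm_mul]
    calc ‖(A : ℂ) ^ (-(s / 2))‖ * (‖(((2 ^ dg K * A ^ (-(1 / 4 : ℝ)) : ℝ)) : ℂ)‖ * ‖Λ (s + 1 / 2)‖) ≤
        Real.exp (l * D) * (Real.exp P * Real.exp (c' * D ^ ρ' * (1 + |s.im|) ^ ρ')) := by
          gcongr
      _ = Real.exp (l * D + (P + c' * D ^ ρ' * (1 + |s.im|) ^ ρ')) := by
          rw [← Real.exp_add, ← Real.exp_add]
      _ ≤ _ := by
          refine Real.exp_le_exp.2 ?_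
          have h4 : 0 ≤ l * D := by positivity
          have h5 : l * D ≤ l * D * (1 + |s.im|) ^ ρ' := le_mul_of_one_le_right h4 hW
          have h6 : P ≤ P * (1 + |s.im|) ^ ρ' := le_mul_of_one_le_right hP0.le hW
          nlinarith
  · have h1 := nm_summable (K := K) (x := 3 / 2) (by norm_num)
    exact h1
  · intro v j
    have h2 : (2 : ℝ) ≤ nm v := by exact_mod_cast two_le_nm v
    have h0 : (0 : ℝ) < nm v := by linarith
    have hn0 : 0 < nm v := by have := two_le_nm v; omega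
    show ‖r v j * ((nm v : ℕ) : ℂ) ^ (-(1 / 2) : ℂ)‖ ≤ _
    rw [norm_mul, Complex.norm_natCast_cpow_of_pos hn0]
    have e1 : (-(1 / 2) : ℂ).re = -(1 / 2) := by norm_num
    rw [e1]
    calc ‖r v j‖ * ((nm v : ℕ) : ℝ) ^ (-(1 / 2) : ℝ) ≤ (nm v : ℝ) * ((nm v : ℕ) : ℝ) ^ (-(1 / 2) : ℝ) :=
          mul_le_mul_of_nonneg_right (hr1 v j) (by positivity)
      _ = Real.sqrt (nm v) := by
          rw [Real.sqrt_eq_rpow, mul_comm, ← Real.rpow_add_one h0.ne']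
          norm_num
  · intro s hs
    have hre : (s + 1 / 2).re = s.re + 1 / 2 := by simp
    rw [show LL (Pool.Agent.TH839.UH.mu (dg K)) (sdk (dg K) A Λ) s = LK (dg K) A Λ (s + 1 / 2) from LL_sdk hA0 Λ s,
      LK_EL h (by rw [hre]; linarith)]
    unfold EL
    refine tprod_congr fun v => ?_
    have hn : ((nm v : ℕ) : ℂ) ≠ 0 := by
      have := two_le_nm v
      exact_mod_cast (by omega : nm v ≠ 0)
    rw [Finset.prod_inv_distrib]
    congr 1
    obtain ⟨X, hX⟩ : ∃ X : ℂ, X = ((nm v : ℕ) : ℂ) ^ (-(1 / 2) : ℂ) * ((nm v : ℕ) : ℂ) ^ (-s) := ⟨_, rfl⟩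
    have e1 : ((nm v : ℕ) : ℂ) ^ (-(s + 1 / 2)) = X := by
      rw [hX, ← Complex.cpow_add _ _ hn]
      congr 1
      ring
    have e2 : ((nm v : ℕ) : ℂ) ^ (-2 * (s + 1 / 2)) = X ^ 2 := by
      rw [← e1, ← Complex.cpow_nat_mul]
      congr 1
      push_cast
      ring
    have e3 : ∀ j : Fin 2, r v j * ((nm v : ℕ) : ℂ) ^ (-(1 / 2) : ℂ) * ((nm v : ℕ) : ℂ) ^ (-s) = r v j * X := fun j => by
      rw [hX]
      ring
    simp only [e3]
    rw [← hr2 v X]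
    unfold gv
    rw [e1, e2]
    ring

end

end Pool.Agent.Q286.GB
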